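import Pool.Agent.H935R3.LW.Stmts
set_option autoImplicit false
set_option linter.unusedSimpArgs false
set_option linter.unusedVariables false
set_option linter.unreachableTactic false
set_option linter.unusedTactic false
open Matrix
namespace Pool.Agent.H935R3.LW.AlgT

/-- the identity array -/
def dl : A2 := fun i j => if i = j then 1 else 0

theorem tau_dl (c : A3) (a : Fin 3) : tauA dl c a = ∑ i, c i i a := by
  simp [tauA, dl]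

theorem th_dl (c : A3) (d : A4) (a b : Fin 3) :
    thA dl c d a b = (∑ i, d i i a b) - ∑ i, ∑ j, c i j b * c i j a := by
  simp [thA, dl]

theorem ht_dl (c : A3) (a : Fin 3) : htA dl c a = tauA dl c a := by
  simp [htA, dl]

theorem n_dl (c : A3) : nA dl c = ∑ a, tauA dl c a * tauA dl c a := by
  simp [nA, ht_dl]

theorem hth_dl (c : A3) (d : A4) (a b : Fin 3) : hthA dl c d a b = thA dl c d a b := by
  simp [hthA, dl]

theorem u_dl (c : A3) (d : A4) (a : Fin 3) : uA dl c d a =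
    (∑ b, thA dl c d a b * tauA dl c b) - ∑ b, ∑ k, c a b k * thA dl c d b k := by
  simp [uA, ht_dl, hth_dl]

theorem v_dl (c : A3) (d : A4) (a : Fin 3) : vA dl c d a = uA dl c d a := by
  simp [vA, dl]

theorem qu_dl (c : A3) (d : A4) : quA dl c d = ∑ a, uA dl c d a * uA dl c d a := by
  simp [quA, dl]

theorem tauD_dl (c : A3) (h' : A2) (c' : A3) (a : Fin 3) :
    tauD dl c h' c' a = (∑ i, ∑ j, h' i j * c i j a) + ∑ i, c' i i a := by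
  simp [tauD, dl, Finset.sum_add_distrib]

theorem thD_dl (c : A3) (d : A4) (h' : A2) (c' : A3) (d' : A4) (a b : Fin 3) :
    thD dl c d h' c' d' a b = (∑ i, ∑ j, h' i j * d i j a b) + (∑ i, d' i i a b)
      - (∑ i, ∑ j, ∑ p, h' i p * c p j b * c i j a)
      - (∑ i, ∑ j, ∑ q, h' j q * c i q b * c i j a)
      - (∑ i, ∑ j, c' i j b * c i j a) - (∑ i, ∑ j, c i j b * c' i j a) := by
  simp only [thD, dl, Finset.sum_add_distrib]
  simp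
  ring

theorem htD_dl (c : A3) (h' : A2) (c' : A3) (a : Fin 3) :
    htD dl c h' c' a = (∑ b, h' a b * tauA dl c b) + tauD dl c h' c' a := by
  simp [htD, Finset.sum_add_distrib]
  simp [dl]

theorem nD_dl (c : A3) (h' : A2) (c' : A3) :
    nD dl c h' c' = ∑ a, (tauD dl c h' c' a * tauA dl c a + tauA dl c a * htD dl c h' c' a) := by
  simp [nD, ht_dl]

theorem hthD_dl (c : A3) (d : A4) (h' : A2) (c' : A3) (d' : A4) (a b : Fin 3) :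
    hthD dl c d h' c' d' a b = (∑ p, h' a p * thA dl c d p b) + thD dl c d h' c' d' a b
      + ∑ q, thA dl c d a q * h' q b := by
  simp only [hthD, Finset.sum_add_distrib]
  simp [dl]

theorem uD_dl (c : A3) (d : A4) (h' : A2) (c' : A3) (d' : A4) (a : Fin 3) :
    uD dl c d h' c' d' a =
    (∑ b, (thD dl c d h' c' d' a b * tauA dl c b + thA dl c d a b * htD dl c h' c' b)) -
    ∑ b, ∑ k, (c' a b k * thA dl c d b k + c a b k * hthD dl c d h' c' d' b k) := by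
  simp only [uD, ht_dl, hth_dl]

theorem vD_dl (c : A3) (d : A4) (h' : A2) (c' : A3) (d' : A4) (a : Fin 3) :
    vD dl c d h' c' d' a = (∑ b, h' a b * uA dl c d b) + uD dl c d h' c' d' a := by
  simp only [vD, Finset.sum_add_distrib]
  simp [dl]

theorem quD_dl (c : A3) (d : A4) (h' : A2) (c' : A3) (d' : A4) :
    quD dl c d h' c' d' = (∑ a, ∑ b, h' a b * (uA dl c d a * uA dl c d b))
      + ∑ a, 2 * (uD dl c d h' c' d' a * uA dl c d a) := by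
  simp only [quD, Finset.sum_add_distrib]
  simp [dl]
  exact Finset.sum_congr rfl fun i _ => by ring



/-- values of `c` -/
structure CV (c : A3) (l1 l2 : ℝ) : Prop where
  v000 : c 0 0 0 = l1
  v001 : c 0 0 1 = 0
  v002 : c 0 0 2 = 0
  v011 : c 0 1 1 = 0
  v012 : c 0 1 2 = 0
  v022 : c 0 2 2 = 0
  v111 : c 1 1 1 = l2
  v112 : c 1 1 2 = 0
  v122 : c 1 2 2 = 0
  v222 : c 2 2 2 = 0
  v010 : c 0 1 0 = 0
  v020 : c 0 2 0 = 0
  v021 : c 0 2 1 = 0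
  v101 : c 1 0 1 = 0
  v102 : c 1 0 2 = 0
  v121 : c 1 2 1 = 0
  v202 : c 2 0 2 = 0
  v212 : c 2 1 2 = 0
  v100 : c 1 0 0 = 0
  v110 : c 1 1 0 = 0
  v120 : c 1 2 0 = 0
  v200 : c 2 0 0 = 0
  v201 : c 2 0 1 = 0
  v211 : c 2 1 1 = 0
  v220 : c 2 2 0 = 0
  v221 : c 2 2 1 = 0
  v210 : c 2 1 0 = 0

/-- values of `d` -/
structure DV (d : A4) (f l1 l2 a p q r b : ℝ) : Prop where
  v0000 : d 0 0 0 0 = a
  v0001 : d 0 0 0 1 = p
  v0002 : d 0 0 0 2 = -l1/f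
  v0011 : d 0 0 1 1 = q
  v0012 : d 0 0 1 2 = 0
  v0022 : d 0 0 2 2 = 0
  v0111 : d 0 1 1 1 = r
  v0112 : d 0 1 1 2 = 0
  v0122 : d 0 1 2 2 = 0
  v0222 : d 0 2 2 2 = 0
  v1111 : d 1 1 1 1 = b
  v1112 : d 1 1 1 2 = -l2/f
  v1122 : d 1 1 2 2 = 0
  v1222 : d 1 2 2 2 = 0
  v2222 : d 2 2 2 2 = 0
  v0010 : d 0 0 1 0 = p
  v0020 : d 0 0 2 0 = -l1/f
  v0021 : d 0 0 2 1 = 0
  v0101 : d 0 1 0 1 = q
  v0102 : d 0 1 0 2 = 0
  v0121 : d 0 1 2 1 = 0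
  v0202 : d 0 2 0 2 = 0
  v0212 : d 0 2 1 2 = 0
  v1011 : d 1 0 1 1 = r
  v1012 : d 1 0 1 2 = 0
  v1022 : d 1 0 2 2 = 0
  v1121 : d 1 1 2 1 = -l2/f
  v1212 : d 1 2 1 2 = 0
  v2022 : d 2 0 2 2 = 0
  v2122 : d 2 1 2 2 = 0
  v0100 : d 0 1 0 0 = p
  v0110 : d 0 1 1 0 = q
  v0120 : d 0 1 2 0 = 0
  v0200 : d 0 2 0 0 = -l1/f
  v0201 : d 0 2 0 1 = 0
  v0211 : d 0 2 1 1 = 0
  v0220 : d 0 2 2 0 = 0
  v0221 : d 0 2 2 1 = 0
  v1001 : d 1 0 0 1 = q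
  v1002 : d 1 0 0 2 = 0
  v1021 : d 1 0 2 1 = 0
  v1101 : d 1 1 0 1 = r
  v1102 : d 1 1 0 2 = 0
  v1202 : d 1 2 0 2 = 0
  v1211 : d 1 2 1 1 = -l2/f
  v1221 : d 1 2 2 1 = 0
  v2002 : d 2 0 0 2 = 0
  v2012 : d 2 0 1 2 = 0
  v2112 : d 2 1 1 2 = 0
  v2202 : d 2 2 0 2 = 0
  v2212 : d 2 2 1 2 = 0
  v0210 : d 0 2 1 0 = 0
  v1000 : d 1 0 0 0 = p
  v1010 : d 1 0 1 0 = q
  v1020 : d 1 0 2 0 = 0
  v1110 : d 1 1 1 0 = r
  v1120 : d 1 1 2 0 = 0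
  v1201 : d 1 2 0 1 = 0
  v1220 : d 1 2 2 0 = 0
  v2000 : d 2 0 0 0 = -l1/f
  v2001 : d 2 0 0 1 = 0
  v2011 : d 2 0 1 1 = 0
  v2020 : d 2 0 2 0 = 0
  v2021 : d 2 0 2 1 = 0
  v2102 : d 2 1 0 2 = 0
  v2111 : d 2 1 1 1 = -l2/f
  v2121 : d 2 1 2 1 = 0
  v2220 : d 2 2 2 0 = 0
  v2221 : d 2 2 2 1 = 0
  v1100 : d 1 1 0 0 = q
  v1200 : d 1 2 0 0 = 0
  v1210 : d 1 2 1 0 = 0
  v2010 : d 2 0 1 0 = 0
  v2101 : d 2 1 0 1 = 0
  v2120 : d 2 1 2 0 = 0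
  v2200 : d 2 2 0 0 = 0
  v2201 : d 2 2 0 1 = 0
  v2211 : d 2 2 1 1 = 0
  v2100 : d 2 1 0 0 = 0
  v2110 : d 2 1 1 0 = 0
  v2210 : d 2 2 1 0 = 0

/-- values of `e` -/
structure EV (e : A5) (f l1 l2 a p q r b E0 E1 E2 E3 E4 E5 : ℝ) : Prop where
  v00000 : e 0 0 0 0 0 = E0
  v00001 : e 0 0 0 0 1 = E1
  v00002 : e 0 0 0 0 2 = -2*a/f
  v00011 : e 0 0 0 1 1 = E2
  v00012 : e 0 0 0 1 2 = -2*p/f
  v00022 : e 0 0 0 2 2 = 2*l1/f^2
  v00111 : e 0 0 1 1 1 = E3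
  v00112 : e 0 0 1 1 2 = -2*q/f
  v00122 : e 0 0 1 2 2 = 0
  v00222 : e 0 0 2 2 2 = 0
  v01111 : e 0 1 1 1 1 = E4
  v01112 : e 0 1 1 1 2 = -2*r/f
  v01122 : e 0 1 1 2 2 = 0
  v01222 : e 0 1 2 2 2 = 0
  v02222 : e 0 2 2 2 2 = 0
  v11111 : e 1 1 1 1 1 = E5
  v11112 : e 1 1 1 1 2 = -2*b/f
  v11122 : e 1 1 1 2 2 = 2*l2/f^2
  v11222 : e 1 1 2 2 2 = 0
  v12222 : e 1 2 2 2 2 = 0
  v22222 : e 2 2 2 2 2 = 0
  v00010 : e 0 0 0 1 0 = E1
  v00020 : e 0 0 0 2 0 = -2*a/f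
  v00021 : e 0 0 0 2 1 = -2*p/f
  v00101 : e 0 0 1 0 1 = E2
  v00102 : e 0 0 1 0 2 = -2*p/f
  v00121 : e 0 0 1 2 1 = -2*q/f
  v00202 : e 0 0 2 0 2 = 2*l1/f^2
  v00212 : e 0 0 2 1 2 = 0
  v01011 : e 0 1 0 1 1 = E3
  v01012 : e 0 1 0 1 2 = -2*q/f
  v01022 : e 0 1 0 2 2 = 0
  v01121 : e 0 1 1 2 1 = -2*r/f
  v01212 : e 0 1 2 1 2 = 0
  v02022 : e 0 2 0 2 2 = 0
  v02122 : e 0 2 1 2 2 = 0
  v10111 : e 1 0 1 1 1 = E4
  v10112 : e 1 0 1 1 2 = -2*r/f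
  v10122 : e 1 0 1 2 2 = 0
  v10222 : e 1 0 2 2 2 = 0
  v11121 : e 1 1 1 2 1 = -2*b/f
  v11212 : e 1 1 2 1 2 = 2*l2/f^2
  v12122 : e 1 2 1 2 2 = 0
  v20222 : e 2 0 2 2 2 = 0
  v21222 : e 2 1 2 2 2 = 0
  v00100 : e 0 0 1 0 0 = E1
  v00110 : e 0 0 1 1 0 = E2
  v00120 : e 0 0 1 2 0 = -2*p/f
  v00200 : e 0 0 2 0 0 = -2*a/f
  v00201 : e 0 0 2 0 1 = -2*p/f
  v00211 : e 0 0 2 1 1 = -2*q/f
  v00220 : e 0 0 2 2 0 = 2*l1/f^2
  v00221 : e 0 0 2 2 1 = 0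
  v01001 : e 0 1 0 0 1 = E2
  v01002 : e 0 1 0 0 2 = -2*p/f
  v01021 : e 0 1 0 2 1 = -2*q/f
  v01101 : e 0 1 1 0 1 = E3
  v01102 : e 0 1 1 0 2 = -2*q/f
  v01202 : e 0 1 2 0 2 = 0
  v01211 : e 0 1 2 1 1 = -2*r/f
  v01221 : e 0 1 2 2 1 = 0
  v02002 : e 0 2 0 0 2 = 2*l1/f^2
  v02012 : e 0 2 0 1 2 = 0
  v02112 : e 0 2 1 1 2 = 0
  v02202 : e 0 2 2 0 2 = 0
  v02212 : e 0 2 2 1 2 = 0
  v10011 : e 1 0 0 1 1 = E3
  v10012 : e 1 0 0 1 2 = -2*q/f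
  v10022 : e 1 0 0 2 2 = 0
  v10121 : e 1 0 1 2 1 = -2*r/f
  v10212 : e 1 0 2 1 2 = 0
  v11011 : e 1 1 0 1 1 = E4
  v11012 : e 1 1 0 1 2 = -2*r/f
  v11022 : e 1 1 0 2 2 = 0
  v11211 : e 1 1 2 1 1 = -2*b/f
  v11221 : e 1 1 2 2 1 = 2*l2/f^2
  v12022 : e 1 2 0 2 2 = 0
  v12112 : e 1 2 1 1 2 = 2*l2/f^2
  v12212 : e 1 2 2 1 2 = 0
  v20022 : e 2 0 0 2 2 = 0
  v20122 : e 2 0 1 2 2 = 0
  v21122 : e 2 1 1 2 2 = 0
  v22022 : e 2 2 0 2 2 = 0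
  v22122 : e 2 2 1 2 2 = 0
  v00210 : e 0 0 2 1 0 = -2*p/f
  v01000 : e 0 1 0 0 0 = E1
  v01010 : e 0 1 0 1 0 = E2
  v01020 : e 0 1 0 2 0 = -2*p/f
  v01110 : e 0 1 1 1 0 = E3
  v01120 : e 0 1 1 2 0 = -2*q/f
  v01201 : e 0 1 2 0 1 = -2*q/f
  v01220 : e 0 1 2 2 0 = 0
  v02000 : e 0 2 0 0 0 = -2*a/f
  v02001 : e 0 2 0 0 1 = -2*p/f
  v02011 : e 0 2 0 1 1 = -2*q/f
  v02020 : e 0 2 0 2 0 = 2*l1/f^2
  v02021 : e 0 2 0 2 1 = 0
  v02102 : e 0 2 1 0 2 = 0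
  v02111 : e 0 2 1 1 1 = -2*r/f
  v02121 : e 0 2 1 2 1 = 0
  v02220 : e 0 2 2 2 0 = 0
  v02221 : e 0 2 2 2 1 = 0
  v10001 : e 1 0 0 0 1 = E2
  v10002 : e 1 0 0 0 2 = -2*p/f
  v10021 : e 1 0 0 2 1 = -2*q/f
  v10101 : e 1 0 1 0 1 = E3
  v10102 : e 1 0 1 0 2 = -2*q/f
  v10202 : e 1 0 2 0 2 = 0
  v10211 : e 1 0 2 1 1 = -2*r/f
  v10221 : e 1 0 2 2 1 = 0
  v11021 : e 1 1 0 2 1 = -2*r/f
  v11101 : e 1 1 1 0 1 = E4
  v11102 : e 1 1 1 0 2 = -2*r/f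
  v11202 : e 1 1 2 0 2 = 0
  v12012 : e 1 2 0 1 2 = 0
  v12111 : e 1 2 1 1 1 = -2*b/f
  v12121 : e 1 2 1 2 1 = 2*l2/f^2
  v12202 : e 1 2 2 0 2 = 0
  v12221 : e 1 2 2 2 1 = 0
  v20002 : e 2 0 0 0 2 = 2*l1/f^2
  v20012 : e 2 0 0 1 2 = 0
  v20112 : e 2 0 1 1 2 = 0
  v20202 : e 2 0 2 0 2 = 0
  v20212 : e 2 0 2 1 2 = 0
  v21022 : e 2 1 0 2 2 = 0
  v21112 : e 2 1 1 1 2 = 2*l2/f^2
  v21212 : e 2 1 2 1 2 = 0
  v22202 : e 2 2 2 0 2 = 0
  v22212 : e 2 2 2 1 2 = 0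
  v01100 : e 0 1 1 0 0 = E2
  v01200 : e 0 1 2 0 0 = -2*p/f
  v01210 : e 0 1 2 1 0 = -2*q/f
  v02010 : e 0 2 0 1 0 = -2*p/f
  v02101 : e 0 2 1 0 1 = -2*q/f
  v02120 : e 0 2 1 2 0 = 0
  v02200 : e 0 2 2 0 0 = 2*l1/f^2
  v02201 : e 0 2 2 0 1 = 0
  v02211 : e 0 2 2 1 1 = 0
  v10000 : e 1 0 0 0 0 = E1
  v10010 : e 1 0 0 1 0 = E2
  v10020 : e 1 0 0 2 0 = -2*p/f
  v10110 : e 1 0 1 1 0 = E3
  v10120 : e 1 0 1 2 0 = -2*q/f
  v10201 : e 1 0 2 0 1 = -2*q/f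
  v10220 : e 1 0 2 2 0 = 0
  v11001 : e 1 1 0 0 1 = E3
  v11002 : e 1 1 0 0 2 = -2*q/f
  v11110 : e 1 1 1 1 0 = E4
  v11120 : e 1 1 1 2 0 = -2*r/f
  v11201 : e 1 1 2 0 1 = -2*r/f
  v11220 : e 1 1 2 2 0 = 0
  v12002 : e 1 2 0 0 2 = 0
  v12011 : e 1 2 0 1 1 = -2*r/f
  v12021 : e 1 2 0 2 1 = 0
  v12102 : e 1 2 1 0 2 = 0
  v12211 : e 1 2 2 1 1 = 2*l2/f^2
  v12220 : e 1 2 2 2 0 = 0
  v20000 : e 2 0 0 0 0 = -2*a/f
  v20001 : e 2 0 0 0 1 = -2*p/f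
  v20011 : e 2 0 0 1 1 = -2*q/f
  v20020 : e 2 0 0 2 0 = 2*l1/f^2
  v20021 : e 2 0 0 2 1 = 0
  v20102 : e 2 0 1 0 2 = 0
  v20111 : e 2 0 1 1 1 = -2*r/f
  v20121 : e 2 0 1 2 1 = 0
  v20220 : e 2 0 2 2 0 = 0
  v20221 : e 2 0 2 2 1 = 0
  v21012 : e 2 1 0 1 2 = 0
  v21111 : e 2 1 1 1 1 = -2*b/f
  v21121 : e 2 1 1 2 1 = 2*l2/f^2
  v21202 : e 2 1 2 0 2 = 0
  v21221 : e 2 1 2 2 1 = 0
  v22002 : e 2 2 0 0 2 = 0
  v22012 : e 2 2 0 1 2 = 0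
  v22112 : e 2 2 1 1 2 = 0
  v22220 : e 2 2 2 2 0 = 0
  v22221 : e 2 2 2 2 1 = 0
  v02100 : e 0 2 1 0 0 = -2*p/f
  v02110 : e 0 2 1 1 0 = -2*q/f
  v02210 : e 0 2 2 1 0 = 0
  v10100 : e 1 0 1 0 0 = E2
  v10200 : e 1 0 2 0 0 = -2*p/f
  v10210 : e 1 0 2 1 0 = -2*q/f
  v11010 : e 1 1 0 1 0 = E3
  v11020 : e 1 1 0 2 0 = -2*q/f
  v11210 : e 1 1 2 1 0 = -2*r/f
  v12001 : e 1 2 0 0 1 = -2*q/f
  v12020 : e 1 2 0 2 0 = 0
  v12101 : e 1 2 1 0 1 = -2*r/f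
  v12120 : e 1 2 1 2 0 = 0
  v12201 : e 1 2 2 0 1 = 0
  v20010 : e 2 0 0 1 0 = -2*p/f
  v20101 : e 2 0 1 0 1 = -2*q/f
  v20120 : e 2 0 1 2 0 = 0
  v20200 : e 2 0 2 0 0 = 2*l1/f^2
  v20201 : e 2 0 2 0 1 = 0
  v20211 : e 2 0 2 1 1 = 0
  v21002 : e 2 1 0 0 2 = 0
  v21011 : e 2 1 0 1 1 = -2*r/f
  v21021 : e 2 1 0 2 1 = 0
  v21102 : e 2 1 1 0 2 = 0
  v21211 : e 2 1 2 1 1 = 2*l2/f^2
  v21220 : e 2 1 2 2 0 = 0
  v22020 : e 2 2 0 2 0 = 0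
  v22021 : e 2 2 0 2 1 = 0
  v22102 : e 2 2 1 0 2 = 0
  v22121 : e 2 2 1 2 1 = 0
  v11000 : e 1 1 0 0 0 = E2
  v11100 : e 1 1 1 0 0 = E3
  v11200 : e 1 1 2 0 0 = -2*q/f
  v12000 : e 1 2 0 0 0 = -2*p/f
  v12010 : e 1 2 0 1 0 = -2*q/f
  v12110 : e 1 2 1 1 0 = -2*r/f
  v12200 : e 1 2 2 0 0 = 0
  v12210 : e 1 2 2 1 0 = 0
  v20100 : e 2 0 1 0 0 = -2*p/f
  v20110 : e 2 0 1 1 0 = -2*q/f
  v20210 : e 2 0 2 1 0 = 0
  v21001 : e 2 1 0 0 1 = -2*q/f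
  v21020 : e 2 1 0 2 0 = 0
  v21101 : e 2 1 1 0 1 = -2*r/f
  v21120 : e 2 1 1 2 0 = 0
  v21201 : e 2 1 2 0 1 = 0
  v22000 : e 2 2 0 0 0 = 2*l1/f^2
  v22001 : e 2 2 0 0 1 = 0
  v22011 : e 2 2 0 1 1 = 0
  v22111 : e 2 2 1 1 1 = 2*l2/f^2
  v22120 : e 2 2 1 2 0 = 0
  v22200 : e 2 2 2 0 0 = 0
  v22201 : e 2 2 2 0 1 = 0
  v22211 : e 2 2 2 1 1 = 0
  v12100 : e 1 2 1 0 0 = -2*q/f
  v21000 : e 2 1 0 0 0 = -2*p/f
  v21010 : e 2 1 0 1 0 = -2*q/f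
  v21110 : e 2 1 1 1 0 = -2*r/f
  v21200 : e 2 1 2 0 0 = 0
  v21210 : e 2 1 2 1 0 = 0
  v22010 : e 2 2 0 1 0 = 0
  v22101 : e 2 2 1 0 1 = 0
  v22210 : e 2 2 2 1 0 = 0
  v21100 : e 2 1 1 0 0 = -2*q/f
  v22100 : e 2 2 1 0 0 = 0
  v22110 : e 2 2 1 1 0 = 0

theorem cv_of (c : A3) (l1 l2 : ℝ) (h1 : ∀ i j k, c i j k = c j i k) (h2 : ∀ i j k, c i j k = c i k j)
    (h3 : ∀ i j, c i j 2 = 0) (h4 : c 0 0 1 = 0) (h5 : c 0 1 1 = 0) (h6 : l1 = c 0 0 0)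
    (h7 : l2 = c 1 1 1) : CV c l1 l2 := by
  have v000 : c 0 0 0 = l1 := by exact h6.symm
  have v001 : c 0 0 1 = 0 := by exact h4
  have v002 : c 0 0 2 = 0 := by exact h3 0 0
  have v011 : c 0 1 1 = 0 := by exact h5
  have v012 : c 0 1 2 = 0 := by exact h3 0 1
  have v022 : c 0 2 2 = 0 := by exact h3 0 2
  have v111 : c 1 1 1 = l2 := by exact h7.symm
  have v112 : c 1 1 2 = 0 := by exact h3 1 1
  have v122 : c 1 2 2 = 0 := by exact h3 1 2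
  have v222 : c 2 2 2 = 0 := by exact h3 2 2
  have v010 : c 0 1 0 = 0 := (h2 0 1 0).trans v001
  have v020 : c 0 2 0 = 0 := (h2 0 2 0).trans v002
  have v021 : c 0 2 1 = 0 := (h2 0 2 1).trans v012
  have v101 : c 1 0 1 = 0 := (h1 1 0 1).trans v011
  have v102 : c 1 0 2 = 0 := (h1 1 0 2).trans v012
  have v121 : c 1 2 1 = 0 := (h2 1 2 1).trans v112
  have v202 : c 2 0 2 = 0 := (h1 2 0 2).trans v022
  have v212 : c 2 1 2 = 0 := (h1 2 1 2).trans v122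
  have v100 : c 1 0 0 = 0 := (h1 1 0 0).trans v010
  have v110 : c 1 1 0 = 0 := (h2 1 1 0).trans v101
  have v120 : c 1 2 0 = 0 := (h2 1 2 0).trans v102
  have v200 : c 2 0 0 = 0 := (h1 2 0 0).trans v020
  have v201 : c 2 0 1 = 0 := (h1 2 0 1).trans v021
  have v211 : c 2 1 1 = 0 := (h1 2 1 1).trans v121
  have v220 : c 2 2 0 = 0 := (h2 2 2 0).trans v202
  have v221 : c 2 2 1 = 0 := (h2 2 2 1).trans v212
  have v210 : c 2 1 0 = 0 := (h1 2 1 0).trans v120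
  exact ⟨v000, v001, v002, v011, v012, v022, v111, v112, v122, v222, v010, v020, v021, v101, v102, v121, v202, v212, v100, v110, v120, v200, v201, v211, v220, v221, v210⟩

theorem dv_of (c : A3) (d : A4) (f l1 l2 a p q r b : ℝ) (hc : CV c l1 l2)
    (h1 : ∀ i j k l, d i j k l = d j i k l) (h2 : ∀ i j k l, d i j k l = d i k j l)
    (h3 : ∀ i j k l, d i j k l = d i j l k) (h4 : ∀ i j k, d i j k 2 = -c i j k / f)
    (ha : a = d 0 0 0 0) (hp : p = d 0 0 0 1) (hq : q = d 0 0 1 1) (hr : r = d 0 1 1 1)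
    (hb : b = d 1 1 1 1) : DV d f l1 l2 a p q r b := by
  have v0000 : d 0 0 0 0 = a := by exact ha.symm
  have v0001 : d 0 0 0 1 = p := by exact hp.symm
  have v0002 : d 0 0 0 2 = -l1/f := by rw [h4 0 0 0, hc.v000]
  have v0011 : d 0 0 1 1 = q := by exact hq.symm
  have v0012 : d 0 0 1 2 = 0 := by rw [h4 0 0 1, hc.v001]; simp
  have v0022 : d 0 0 2 2 = 0 := by rw [h4 0 0 2, hc.v002]; simp
  have v0111 : d 0 1 1 1 = r := by exact hr.symm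
  have v0112 : d 0 1 1 2 = 0 := by rw [h4 0 1 1, hc.v011]; simp
  have v0122 : d 0 1 2 2 = 0 := by rw [h4 0 1 2, hc.v012]; simp
  have v0222 : d 0 2 2 2 = 0 := by rw [h4 0 2 2, hc.v022]; simp
  have v1111 : d 1 1 1 1 = b := by exact hb.symm
  have v1112 : d 1 1 1 2 = -l2/f := by rw [h4 1 1 1, hc.v111]
  have v1122 : d 1 1 2 2 = 0 := by rw [h4 1 1 2, hc.v112]; simp
  have v1222 : d 1 2 2 2 = 0 := by rw [h4 1 2 2, hc.v122]; simp
  have v2222 : d 2 2 2 2 = 0 := by rw [h4 2 2 2, hc.v222]; simp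
  have v0010 : d 0 0 1 0 = p := (h3 0 0 1 0).trans v0001
  have v0020 : d 0 0 2 0 = -l1/f := (h3 0 0 2 0).trans v0002
  have v0021 : d 0 0 2 1 = 0 := (h3 0 0 2 1).trans v0012
  have v0101 : d 0 1 0 1 = q := (h2 0 1 0 1).trans v0011
  have v0102 : d 0 1 0 2 = 0 := (h2 0 1 0 2).trans v0012
  have v0121 : d 0 1 2 1 = 0 := (h3 0 1 2 1).trans v0112
  have v0202 : d 0 2 0 2 = 0 := (h2 0 2 0 2).trans v0022
  have v0212 : d 0 2 1 2 = 0 := (h2 0 2 1 2).trans v0122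
  have v1011 : d 1 0 1 1 = r := (h1 1 0 1 1).trans v0111
  have v1012 : d 1 0 1 2 = 0 := (h1 1 0 1 2).trans v0112
  have v1022 : d 1 0 2 2 = 0 := (h1 1 0 2 2).trans v0122
  have v1121 : d 1 1 2 1 = -l2/f := (h3 1 1 2 1).trans v1112
  have v1212 : d 1 2 1 2 = 0 := (h2 1 2 1 2).trans v1122
  have v2022 : d 2 0 2 2 = 0 := (h1 2 0 2 2).trans v0222
  have v2122 : d 2 1 2 2 = 0 := (h1 2 1 2 2).trans v1222
  have v0100 : d 0 1 0 0 = p := (h2 0 1 0 0).trans v0010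
  have v0110 : d 0 1 1 0 = q := (h3 0 1 1 0).trans v0101
  have v0120 : d 0 1 2 0 = 0 := (h3 0 1 2 0).trans v0102
  have v0200 : d 0 2 0 0 = -l1/f := (h2 0 2 0 0).trans v0020
  have v0201 : d 0 2 0 1 = 0 := (h2 0 2 0 1).trans v0021
  have v0211 : d 0 2 1 1 = 0 := (h2 0 2 1 1).trans v0121
  have v0220 : d 0 2 2 0 = 0 := (h3 0 2 2 0).trans v0202
  have v0221 : d 0 2 2 1 = 0 := (h3 0 2 2 1).trans v0212
  have v1001 : d 1 0 0 1 = q := (h1 1 0 0 1).trans v0101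
  have v1002 : d 1 0 0 2 = 0 := (h1 1 0 0 2).trans v0102
  have v1021 : d 1 0 2 1 = 0 := (h1 1 0 2 1).trans v0121
  have v1101 : d 1 1 0 1 = r := (h2 1 1 0 1).trans v1011
  have v1102 : d 1 1 0 2 = 0 := (h2 1 1 0 2).trans v1012
  have v1202 : d 1 2 0 2 = 0 := (h2 1 2 0 2).trans v1022
  have v1211 : d 1 2 1 1 = -l2/f := (h2 1 2 1 1).trans v1121
  have v1221 : d 1 2 2 1 = 0 := (h3 1 2 2 1).trans v1212
  have v2002 : d 2 0 0 2 = 0 := (h1 2 0 0 2).trans v0202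
  have v2012 : d 2 0 1 2 = 0 := (h1 2 0 1 2).trans v0212
  have v2112 : d 2 1 1 2 = 0 := (h1 2 1 1 2).trans v1212
  have v2202 : d 2 2 0 2 = 0 := (h2 2 2 0 2).trans v2022
  have v2212 : d 2 2 1 2 = 0 := (h2 2 2 1 2).trans v2122
  have v0210 : d 0 2 1 0 = 0 := (h2 0 2 1 0).trans v0120
  have v1000 : d 1 0 0 0 = p := (h1 1 0 0 0).trans v0100
  have v1010 : d 1 0 1 0 = q := (h1 1 0 1 0).trans v0110
  have v1020 : d 1 0 2 0 = 0 := (h1 1 0 2 0).trans v0120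
  have v1110 : d 1 1 1 0 = r := (h3 1 1 1 0).trans v1101
  have v1120 : d 1 1 2 0 = 0 := (h3 1 1 2 0).trans v1102
  have v1201 : d 1 2 0 1 = 0 := (h2 1 2 0 1).trans v1021
  have v1220 : d 1 2 2 0 = 0 := (h3 1 2 2 0).trans v1202
  have v2000 : d 2 0 0 0 = -l1/f := (h1 2 0 0 0).trans v0200
  have v2001 : d 2 0 0 1 = 0 := (h1 2 0 0 1).trans v0201
  have v2011 : d 2 0 1 1 = 0 := (h1 2 0 1 1).trans v0211
  have v2020 : d 2 0 2 0 = 0 := (h1 2 0 2 0).trans v0220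
  have v2021 : d 2 0 2 1 = 0 := (h1 2 0 2 1).trans v0221
  have v2102 : d 2 1 0 2 = 0 := (h1 2 1 0 2).trans v1202
  have v2111 : d 2 1 1 1 = -l2/f := (h1 2 1 1 1).trans v1211
  have v2121 : d 2 1 2 1 = 0 := (h1 2 1 2 1).trans v1221
  have v2220 : d 2 2 2 0 = 0 := (h3 2 2 2 0).trans v2202
  have v2221 : d 2 2 2 1 = 0 := (h3 2 2 2 1).trans v2212
  have v1100 : d 1 1 0 0 = q := (h2 1 1 0 0).trans v1010
  have v1200 : d 1 2 0 0 = 0 := (h2 1 2 0 0).trans v1020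
  have v1210 : d 1 2 1 0 = 0 := (h2 1 2 1 0).trans v1120
  have v2010 : d 2 0 1 0 = 0 := (h1 2 0 1 0).trans v0210
  have v2101 : d 2 1 0 1 = 0 := (h1 2 1 0 1).trans v1201
  have v2120 : d 2 1 2 0 = 0 := (h1 2 1 2 0).trans v1220
  have v2200 : d 2 2 0 0 = 0 := (h2 2 2 0 0).trans v2020
  have v2201 : d 2 2 0 1 = 0 := (h2 2 2 0 1).trans v2021
  have v2211 : d 2 2 1 1 = 0 := (h2 2 2 1 1).trans v2121
  have v2100 : d 2 1 0 0 = 0 := (h1 2 1 0 0).trans v1200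
  have v2110 : d 2 1 1 0 = 0 := (h1 2 1 1 0).trans v1210
  have v2210 : d 2 2 1 0 = 0 := (h2 2 2 1 0).trans v2120
  exact ⟨v0000, v0001, v0002, v0011, v0012, v0022, v0111, v0112, v0122, v0222, v1111, v1112, v1122, v1222, v2222, v0010, v0020, v0021, v0101, v0102, v0121, v0202, v0212, v1011, v1012, v1022, v1121, v1212, v2022, v2122, v0100, v0110, v0120, v0200, v0201, v0211, v0220, v0221, v1001, v1002, v1021, v1101, v1102, v1202, v1211, v1221, v2002, v2012, v2112, v2202, v2212, v0210, v1000, v1010, v1020, v1110, v1120, v1201, v1220, v2000, v2001, v2011, v2020, v2021, v2102, v2111, v2121, v2220, v2221, v1100, v1200, v1210, v2010, v2101, v2120, v2200, v2201, v2211, v2100, v2110, v2210⟩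

theorem ev_of (c : A3) (d : A4) (e : A5) (f l1 l2 a p q r b E0 E1 E2 E3 E4 E5 : ℝ)
    (hd : DV d f l1 l2 a p q r b)
    (h1 : ∀ i j k l m, e i j k l m = e j i k l m) (h2 : ∀ i j k l m, e i j k l m = e i k j l m)
    (h3 : ∀ i j k l m, e i j k l m = e i j l k m) (h4 : ∀ i j k l m, e i j k l m = e i j k m l)
    (h5 : ∀ i j k l, e i j k l 2 = -(2 * d i j k l) / f)
    (k0 : E0 = e 0 0 0 0 0) (k1 : E1 = e 0 0 0 0 1) (k2 : E2 = e 0 0 0 1 1) (k3 : E3 = e 0 0 1 1 1)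
    (k4 : E4 = e 0 1 1 1 1) (k5 : E5 = e 1 1 1 1 1) :
    EV e f l1 l2 a p q r b E0 E1 E2 E3 E4 E5 := by
  have v00000 : e 0 0 0 0 0 = E0 := by exact k0.symm
  have v00001 : e 0 0 0 0 1 = E1 := by exact k1.symm
  have v00002 : e 0 0 0 0 2 = -2*a/f := by rw [h5 0 0 0 0, hd.v0000]; ring
  have v00011 : e 0 0 0 1 1 = E2 := by exact k2.symm
  have v00012 : e 0 0 0 1 2 = -2*p/f := by rw [h5 0 0 0 1, hd.v0001]; ring
  have v00022 : e 0 0 0 2 2 = 2*l1/f^2 := by rw [h5 0 0 0 2, hd.v0002]; ring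
  have v00111 : e 0 0 1 1 1 = E3 := by exact k3.symm
  have v00112 : e 0 0 1 1 2 = -2*q/f := by rw [h5 0 0 1 1, hd.v0011]; ring
  have v00122 : e 0 0 1 2 2 = 0 := by rw [h5 0 0 1 2, hd.v0012]; ring
  have v00222 : e 0 0 2 2 2 = 0 := by rw [h5 0 0 2 2, hd.v0022]; ring
  have v01111 : e 0 1 1 1 1 = E4 := by exact k4.symm
  have v01112 : e 0 1 1 1 2 = -2*r/f := by rw [h5 0 1 1 1, hd.v0111]; ring
  have v01122 : e 0 1 1 2 2 = 0 := by rw [h5 0 1 1 2, hd.v0112]; ring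
  have v01222 : e 0 1 2 2 2 = 0 := by rw [h5 0 1 2 2, hd.v0122]; ring
  have v02222 : e 0 2 2 2 2 = 0 := by rw [h5 0 2 2 2, hd.v0222]; ring
  have v11111 : e 1 1 1 1 1 = E5 := by exact k5.symm
  have v11112 : e 1 1 1 1 2 = -2*b/f := by rw [h5 1 1 1 1, hd.v1111]; ring
  have v11122 : e 1 1 1 2 2 = 2*l2/f^2 := by rw [h5 1 1 1 2, hd.v1112]; ring
  have v11222 : e 1 1 2 2 2 = 0 := by rw [h5 1 1 2 2, hd.v1122]; ring
  have v12222 : e 1 2 2 2 2 = 0 := by rw [h5 1 2 2 2, hd.v1222]; ring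
  have v22222 : e 2 2 2 2 2 = 0 := by rw [h5 2 2 2 2, hd.v2222]; ring
  have v00010 : e 0 0 0 1 0 = E1 := (h4 0 0 0 1 0).trans v00001
  have v00020 : e 0 0 0 2 0 = -2*a/f := (h4 0 0 0 2 0).trans v00002
  have v00021 : e 0 0 0 2 1 = -2*p/f := (h4 0 0 0 2 1).trans v00012
  have v00101 : e 0 0 1 0 1 = E2 := (h3 0 0 1 0 1).trans v00011
  have v00102 : e 0 0 1 0 2 = -2*p/f := (h3 0 0 1 0 2).trans v00012
  have v00121 : e 0 0 1 2 1 = -2*q/f := (h4 0 0 1 2 1).trans v00112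
  have v00202 : e 0 0 2 0 2 = 2*l1/f^2 := (h3 0 0 2 0 2).trans v00022
  have v00212 : e 0 0 2 1 2 = 0 := (h3 0 0 2 1 2).trans v00122
  have v01011 : e 0 1 0 1 1 = E3 := (h2 0 1 0 1 1).trans v00111
  have v01012 : e 0 1 0 1 2 = -2*q/f := (h2 0 1 0 1 2).trans v00112
  have v01022 : e 0 1 0 2 2 = 0 := (h2 0 1 0 2 2).trans v00122
  have v01121 : e 0 1 1 2 1 = -2*r/f := (h4 0 1 1 2 1).trans v01112
  have v01212 : e 0 1 2 1 2 = 0 := (h3 0 1 2 1 2).trans v01122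
  have v02022 : e 0 2 0 2 2 = 0 := (h2 0 2 0 2 2).trans v00222
  have v02122 : e 0 2 1 2 2 = 0 := (h2 0 2 1 2 2).trans v01222
  have v10111 : e 1 0 1 1 1 = E4 := (h1 1 0 1 1 1).trans v01111
  have v10112 : e 1 0 1 1 2 = -2*r/f := (h1 1 0 1 1 2).trans v01112
  have v10122 : e 1 0 1 2 2 = 0 := (h1 1 0 1 2 2).trans v01122
  have v10222 : e 1 0 2 2 2 = 0 := (h1 1 0 2 2 2).trans v01222
  have v11121 : e 1 1 1 2 1 = -2*b/f := (h4 1 1 1 2 1).trans v11112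
  have v11212 : e 1 1 2 1 2 = 2*l2/f^2 := (h3 1 1 2 1 2).trans v11122
  have v12122 : e 1 2 1 2 2 = 0 := (h2 1 2 1 2 2).trans v11222
  have v20222 : e 2 0 2 2 2 = 0 := (h1 2 0 2 2 2).trans v02222
  have v21222 : e 2 1 2 2 2 = 0 := (h1 2 1 2 2 2).trans v12222
  have v00100 : e 0 0 1 0 0 = E1 := (h3 0 0 1 0 0).trans v00010
  have v00110 : e 0 0 1 1 0 = E2 := (h4 0 0 1 1 0).trans v00101
  have v00120 : e 0 0 1 2 0 = -2*p/f := (h4 0 0 1 2 0).trans v00102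
  have v00200 : e 0 0 2 0 0 = -2*a/f := (h3 0 0 2 0 0).trans v00020
  have v00201 : e 0 0 2 0 1 = -2*p/f := (h3 0 0 2 0 1).trans v00021
  have v00211 : e 0 0 2 1 1 = -2*q/f := (h3 0 0 2 1 1).trans v00121
  have v00220 : e 0 0 2 2 0 = 2*l1/f^2 := (h4 0 0 2 2 0).trans v00202
  have v00221 : e 0 0 2 2 1 = 0 := (h4 0 0 2 2 1).trans v00212
  have v01001 : e 0 1 0 0 1 = E2 := (h2 0 1 0 0 1).trans v00101
  have v01002 : e 0 1 0 0 2 = -2*p/f := (h2 0 1 0 0 2).trans v00102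
  have v01021 : e 0 1 0 2 1 = -2*q/f := (h2 0 1 0 2 1).trans v00121
  have v01101 : e 0 1 1 0 1 = E3 := (h3 0 1 1 0 1).trans v01011
  have v01102 : e 0 1 1 0 2 = -2*q/f := (h3 0 1 1 0 2).trans v01012
  have v01202 : e 0 1 2 0 2 = 0 := (h3 0 1 2 0 2).trans v01022
  have v01211 : e 0 1 2 1 1 = -2*r/f := (h3 0 1 2 1 1).trans v01121
  have v01221 : e 0 1 2 2 1 = 0 := (h4 0 1 2 2 1).trans v01212
  have v02002 : e 0 2 0 0 2 = 2*l1/f^2 := (h2 0 2 0 0 2).trans v00202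
  have v02012 : e 0 2 0 1 2 = 0 := (h2 0 2 0 1 2).trans v00212
  have v02112 : e 0 2 1 1 2 = 0 := (h2 0 2 1 1 2).trans v01212
  have v02202 : e 0 2 2 0 2 = 0 := (h3 0 2 2 0 2).trans v02022
  have v02212 : e 0 2 2 1 2 = 0 := (h3 0 2 2 1 2).trans v02122
  have v10011 : e 1 0 0 1 1 = E3 := (h1 1 0 0 1 1).trans v01011
  have v10012 : e 1 0 0 1 2 = -2*q/f := (h1 1 0 0 1 2).trans v01012
  have v10022 : e 1 0 0 2 2 = 0 := (h1 1 0 0 2 2).trans v01022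
  have v10121 : e 1 0 1 2 1 = -2*r/f := (h1 1 0 1 2 1).trans v01121
  have v10212 : e 1 0 2 1 2 = 0 := (h1 1 0 2 1 2).trans v01212
  have v11011 : e 1 1 0 1 1 = E4 := (h2 1 1 0 1 1).trans v10111
  have v11012 : e 1 1 0 1 2 = -2*r/f := (h2 1 1 0 1 2).trans v10112
  have v11022 : e 1 1 0 2 2 = 0 := (h2 1 1 0 2 2).trans v10122
  have v11211 : e 1 1 2 1 1 = -2*b/f := (h3 1 1 2 1 1).trans v11121
  have v11221 : e 1 1 2 2 1 = 2*l2/f^2 := (h4 1 1 2 2 1).trans v11212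
  have v12022 : e 1 2 0 2 2 = 0 := (h2 1 2 0 2 2).trans v10222
  have v12112 : e 1 2 1 1 2 = 2*l2/f^2 := (h2 1 2 1 1 2).trans v11212
  have v12212 : e 1 2 2 1 2 = 0 := (h3 1 2 2 1 2).trans v12122
  have v20022 : e 2 0 0 2 2 = 0 := (h1 2 0 0 2 2).trans v02022
  have v20122 : e 2 0 1 2 2 = 0 := (h1 2 0 1 2 2).trans v02122
  have v21122 : e 2 1 1 2 2 = 0 := (h1 2 1 1 2 2).trans v12122
  have v22022 : e 2 2 0 2 2 = 0 := (h2 2 2 0 2 2).trans v20222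
  have v22122 : e 2 2 1 2 2 = 0 := (h2 2 2 1 2 2).trans v21222
  have v00210 : e 0 0 2 1 0 = -2*p/f := (h3 0 0 2 1 0).trans v00120
  have v01000 : e 0 1 0 0 0 = E1 := (h2 0 1 0 0 0).trans v00100
  have v01010 : e 0 1 0 1 0 = E2 := (h2 0 1 0 1 0).trans v00110
  have v01020 : e 0 1 0 2 0 = -2*p/f := (h2 0 1 0 2 0).trans v00120
  have v01110 : e 0 1 1 1 0 = E3 := (h4 0 1 1 1 0).trans v01101
  have v01120 : e 0 1 1 2 0 = -2*q/f := (h4 0 1 1 2 0).trans v01102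
  have v01201 : e 0 1 2 0 1 = -2*q/f := (h3 0 1 2 0 1).trans v01021
  have v01220 : e 0 1 2 2 0 = 0 := (h4 0 1 2 2 0).trans v01202
  have v02000 : e 0 2 0 0 0 = -2*a/f := (h2 0 2 0 0 0).trans v00200
  have v02001 : e 0 2 0 0 1 = -2*p/f := (h2 0 2 0 0 1).trans v00201
  have v02011 : e 0 2 0 1 1 = -2*q/f := (h2 0 2 0 1 1).trans v00211
  have v02020 : e 0 2 0 2 0 = 2*l1/f^2 := (h2 0 2 0 2 0).trans v00220
  have v02021 : e 0 2 0 2 1 = 0 := (h2 0 2 0 2 1).trans v00221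
  have v02102 : e 0 2 1 0 2 = 0 := (h2 0 2 1 0 2).trans v01202
  have v02111 : e 0 2 1 1 1 = -2*r/f := (h2 0 2 1 1 1).trans v01211
  have v02121 : e 0 2 1 2 1 = 0 := (h2 0 2 1 2 1).trans v01221
  have v02220 : e 0 2 2 2 0 = 0 := (h4 0 2 2 2 0).trans v02202
  have v02221 : e 0 2 2 2 1 = 0 := (h4 0 2 2 2 1).trans v02212
  have v10001 : e 1 0 0 0 1 = E2 := (h1 1 0 0 0 1).trans v01001
  have v10002 : e 1 0 0 0 2 = -2*p/f := (h1 1 0 0 0 2).trans v01002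
  have v10021 : e 1 0 0 2 1 = -2*q/f := (h1 1 0 0 2 1).trans v01021
  have v10101 : e 1 0 1 0 1 = E3 := (h1 1 0 1 0 1).trans v01101
  have v10102 : e 1 0 1 0 2 = -2*q/f := (h1 1 0 1 0 2).trans v01102
  have v10202 : e 1 0 2 0 2 = 0 := (h1 1 0 2 0 2).trans v01202
  have v10211 : e 1 0 2 1 1 = -2*r/f := (h1 1 0 2 1 1).trans v01211
  have v10221 : e 1 0 2 2 1 = 0 := (h1 1 0 2 2 1).trans v01221
  have v11021 : e 1 1 0 2 1 = -2*r/f := (h2 1 1 0 2 1).trans v10121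
  have v11101 : e 1 1 1 0 1 = E4 := (h3 1 1 1 0 1).trans v11011
  have v11102 : e 1 1 1 0 2 = -2*r/f := (h3 1 1 1 0 2).trans v11012
  have v11202 : e 1 1 2 0 2 = 0 := (h3 1 1 2 0 2).trans v11022
  have v12012 : e 1 2 0 1 2 = 0 := (h2 1 2 0 1 2).trans v10212
  have v12111 : e 1 2 1 1 1 = -2*b/f := (h2 1 2 1 1 1).trans v11211
  have v12121 : e 1 2 1 2 1 = 2*l2/f^2 := (h2 1 2 1 2 1).trans v11221
  have v12202 : e 1 2 2 0 2 = 0 := (h3 1 2 2 0 2).trans v12022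
  have v12221 : e 1 2 2 2 1 = 0 := (h4 1 2 2 2 1).trans v12212
  have v20002 : e 2 0 0 0 2 = 2*l1/f^2 := (h1 2 0 0 0 2).trans v02002
  have v20012 : e 2 0 0 1 2 = 0 := (h1 2 0 0 1 2).trans v02012
  have v20112 : e 2 0 1 1 2 = 0 := (h1 2 0 1 1 2).trans v02112
  have v20202 : e 2 0 2 0 2 = 0 := (h1 2 0 2 0 2).trans v02202
  have v20212 : e 2 0 2 1 2 = 0 := (h1 2 0 2 1 2).trans v02212
  have v21022 : e 2 1 0 2 2 = 0 := (h1 2 1 0 2 2).trans v12022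
  have v21112 : e 2 1 1 1 2 = 2*l2/f^2 := (h1 2 1 1 1 2).trans v12112
  have v21212 : e 2 1 2 1 2 = 0 := (h1 2 1 2 1 2).trans v12212
  have v22202 : e 2 2 2 0 2 = 0 := (h3 2 2 2 0 2).trans v22022
  have v22212 : e 2 2 2 1 2 = 0 := (h3 2 2 2 1 2).trans v22122
  have v01100 : e 0 1 1 0 0 = E2 := (h3 0 1 1 0 0).trans v01010
  have v01200 : e 0 1 2 0 0 = -2*p/f := (h3 0 1 2 0 0).trans v01020
  have v01210 : e 0 1 2 1 0 = -2*q/f := (h3 0 1 2 1 0).trans v01120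
  have v02010 : e 0 2 0 1 0 = -2*p/f := (h2 0 2 0 1 0).trans v00210
  have v02101 : e 0 2 1 0 1 = -2*q/f := (h2 0 2 1 0 1).trans v01201
  have v02120 : e 0 2 1 2 0 = 0 := (h2 0 2 1 2 0).trans v01220
  have v02200 : e 0 2 2 0 0 = 2*l1/f^2 := (h3 0 2 2 0 0).trans v02020
  have v02201 : e 0 2 2 0 1 = 0 := (h3 0 2 2 0 1).trans v02021
  have v02211 : e 0 2 2 1 1 = 0 := (h3 0 2 2 1 1).trans v02121
  have v10000 : e 1 0 0 0 0 = E1 := (h1 1 0 0 0 0).trans v01000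
  have v10010 : e 1 0 0 1 0 = E2 := (h1 1 0 0 1 0).trans v01010
  have v10020 : e 1 0 0 2 0 = -2*p/f := (h1 1 0 0 2 0).trans v01020
  have v10110 : e 1 0 1 1 0 = E3 := (h1 1 0 1 1 0).trans v01110
  have v10120 : e 1 0 1 2 0 = -2*q/f := (h1 1 0 1 2 0).trans v01120
  have v10201 : e 1 0 2 0 1 = -2*q/f := (h1 1 0 2 0 1).trans v01201
  have v10220 : e 1 0 2 2 0 = 0 := (h1 1 0 2 2 0).trans v01220
  have v11001 : e 1 1 0 0 1 = E3 := (h2 1 1 0 0 1).trans v10101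
  have v11002 : e 1 1 0 0 2 = -2*q/f := (h2 1 1 0 0 2).trans v10102
  have v11110 : e 1 1 1 1 0 = E4 := (h4 1 1 1 1 0).trans v11101
  have v11120 : e 1 1 1 2 0 = -2*r/f := (h4 1 1 1 2 0).trans v11102
  have v11201 : e 1 1 2 0 1 = -2*r/f := (h3 1 1 2 0 1).trans v11021
  have v11220 : e 1 1 2 2 0 = 0 := (h4 1 1 2 2 0).trans v11202
  have v12002 : e 1 2 0 0 2 = 0 := (h2 1 2 0 0 2).trans v10202
  have v12011 : e 1 2 0 1 1 = -2*r/f := (h2 1 2 0 1 1).trans v10211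
  have v12021 : e 1 2 0 2 1 = 0 := (h2 1 2 0 2 1).trans v10221
  have v12102 : e 1 2 1 0 2 = 0 := (h2 1 2 1 0 2).trans v11202
  have v12211 : e 1 2 2 1 1 = 2*l2/f^2 := (h3 1 2 2 1 1).trans v12121
  have v12220 : e 1 2 2 2 0 = 0 := (h4 1 2 2 2 0).trans v12202
  have v20000 : e 2 0 0 0 0 = -2*a/f := (h1 2 0 0 0 0).trans v02000
  have v20001 : e 2 0 0 0 1 = -2*p/f := (h1 2 0 0 0 1).trans v02001
  have v20011 : e 2 0 0 1 1 = -2*q/f := (h1 2 0 0 1 1).trans v02011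
  have v20020 : e 2 0 0 2 0 = 2*l1/f^2 := (h1 2 0 0 2 0).trans v02020
  have v20021 : e 2 0 0 2 1 = 0 := (h1 2 0 0 2 1).trans v02021
  have v20102 : e 2 0 1 0 2 = 0 := (h1 2 0 1 0 2).trans v02102
  have v20111 : e 2 0 1 1 1 = -2*r/f := (h1 2 0 1 1 1).trans v02111
  have v20121 : e 2 0 1 2 1 = 0 := (h1 2 0 1 2 1).trans v02121
  have v20220 : e 2 0 2 2 0 = 0 := (h1 2 0 2 2 0).trans v02220
  have v20221 : e 2 0 2 2 1 = 0 := (h1 2 0 2 2 1).trans v02221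
  have v21012 : e 2 1 0 1 2 = 0 := (h1 2 1 0 1 2).trans v12012
  have v21111 : e 2 1 1 1 1 = -2*b/f := (h1 2 1 1 1 1).trans v12111
  have v21121 : e 2 1 1 2 1 = 2*l2/f^2 := (h1 2 1 1 2 1).trans v12121
  have v21202 : e 2 1 2 0 2 = 0 := (h1 2 1 2 0 2).trans v12202
  have v21221 : e 2 1 2 2 1 = 0 := (h1 2 1 2 2 1).trans v12221
  have v22002 : e 2 2 0 0 2 = 0 := (h2 2 2 0 0 2).trans v20202
  have v22012 : e 2 2 0 1 2 = 0 := (h2 2 2 0 1 2).trans v20212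
  have v22112 : e 2 2 1 1 2 = 0 := (h2 2 2 1 1 2).trans v21212
  have v22220 : e 2 2 2 2 0 = 0 := (h4 2 2 2 2 0).trans v22202
  have v22221 : e 2 2 2 2 1 = 0 := (h4 2 2 2 2 1).trans v22212
  have v02100 : e 0 2 1 0 0 = -2*p/f := (h2 0 2 1 0 0).trans v01200
  have v02110 : e 0 2 1 1 0 = -2*q/f := (h2 0 2 1 1 0).trans v01210
  have v02210 : e 0 2 2 1 0 = 0 := (h3 0 2 2 1 0).trans v02120
  have v10100 : e 1 0 1 0 0 = E2 := (h1 1 0 1 0 0).trans v01100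
  have v10200 : e 1 0 2 0 0 = -2*p/f := (h1 1 0 2 0 0).trans v01200
  have v10210 : e 1 0 2 1 0 = -2*q/f := (h1 1 0 2 1 0).trans v01210
  have v11010 : e 1 1 0 1 0 = E3 := (h2 1 1 0 1 0).trans v10110
  have v11020 : e 1 1 0 2 0 = -2*q/f := (h2 1 1 0 2 0).trans v10120
  have v11210 : e 1 1 2 1 0 = -2*r/f := (h3 1 1 2 1 0).trans v11120
  have v12001 : e 1 2 0 0 1 = -2*q/f := (h2 1 2 0 0 1).trans v10201
  have v12020 : e 1 2 0 2 0 = 0 := (h2 1 2 0 2 0).trans v10220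
  have v12101 : e 1 2 1 0 1 = -2*r/f := (h2 1 2 1 0 1).trans v11201
  have v12120 : e 1 2 1 2 0 = 0 := (h2 1 2 1 2 0).trans v11220
  have v12201 : e 1 2 2 0 1 = 0 := (h3 1 2 2 0 1).trans v12021
  have v20010 : e 2 0 0 1 0 = -2*p/f := (h1 2 0 0 1 0).trans v02010
  have v20101 : e 2 0 1 0 1 = -2*q/f := (h1 2 0 1 0 1).trans v02101
  have v20120 : e 2 0 1 2 0 = 0 := (h1 2 0 1 2 0).trans v02120
  have v20200 : e 2 0 2 0 0 = 2*l1/f^2 := (h1 2 0 2 0 0).trans v02200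
  have v20201 : e 2 0 2 0 1 = 0 := (h1 2 0 2 0 1).trans v02201
  have v20211 : e 2 0 2 1 1 = 0 := (h1 2 0 2 1 1).trans v02211
  have v21002 : e 2 1 0 0 2 = 0 := (h1 2 1 0 0 2).trans v12002
  have v21011 : e 2 1 0 1 1 = -2*r/f := (h1 2 1 0 1 1).trans v12011
  have v21021 : e 2 1 0 2 1 = 0 := (h1 2 1 0 2 1).trans v12021
  have v21102 : e 2 1 1 0 2 = 0 := (h1 2 1 1 0 2).trans v12102
  have v21211 : e 2 1 2 1 1 = 2*l2/f^2 := (h1 2 1 2 1 1).trans v12211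
  have v21220 : e 2 1 2 2 0 = 0 := (h1 2 1 2 2 0).trans v12220
  have v22020 : e 2 2 0 2 0 = 0 := (h2 2 2 0 2 0).trans v20220
  have v22021 : e 2 2 0 2 1 = 0 := (h2 2 2 0 2 1).trans v20221
  have v22102 : e 2 2 1 0 2 = 0 := (h2 2 2 1 0 2).trans v21202
  have v22121 : e 2 2 1 2 1 = 0 := (h2 2 2 1 2 1).trans v21221
  have v11000 : e 1 1 0 0 0 = E2 := (h2 1 1 0 0 0).trans v10100
  have v11100 : e 1 1 1 0 0 = E3 := (h3 1 1 1 0 0).trans v11010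
  have v11200 : e 1 1 2 0 0 = -2*q/f := (h3 1 1 2 0 0).trans v11020
  have v12000 : e 1 2 0 0 0 = -2*p/f := (h2 1 2 0 0 0).trans v10200
  have v12010 : e 1 2 0 1 0 = -2*q/f := (h2 1 2 0 1 0).trans v10210
  have v12110 : e 1 2 1 1 0 = -2*r/f := (h2 1 2 1 1 0).trans v11210
  have v12200 : e 1 2 2 0 0 = 0 := (h3 1 2 2 0 0).trans v12020
  have v12210 : e 1 2 2 1 0 = 0 := (h3 1 2 2 1 0).trans v12120
  have v20100 : e 2 0 1 0 0 = -2*p/f := (h1 2 0 1 0 0).trans v02100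
  have v20110 : e 2 0 1 1 0 = -2*q/f := (h1 2 0 1 1 0).trans v02110
  have v20210 : e 2 0 2 1 0 = 0 := (h1 2 0 2 1 0).trans v02210
  have v21001 : e 2 1 0 0 1 = -2*q/f := (h1 2 1 0 0 1).trans v12001
  have v21020 : e 2 1 0 2 0 = 0 := (h1 2 1 0 2 0).trans v12020
  have v21101 : e 2 1 1 0 1 = -2*r/f := (h1 2 1 1 0 1).trans v12101
  have v21120 : e 2 1 1 2 0 = 0 := (h1 2 1 1 2 0).trans v12120
  have v21201 : e 2 1 2 0 1 = 0 := (h1 2 1 2 0 1).trans v12201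
  have v22000 : e 2 2 0 0 0 = 2*l1/f^2 := (h2 2 2 0 0 0).trans v20200
  have v22001 : e 2 2 0 0 1 = 0 := (h2 2 2 0 0 1).trans v20201
  have v22011 : e 2 2 0 1 1 = 0 := (h2 2 2 0 1 1).trans v20211
  have v22111 : e 2 2 1 1 1 = 2*l2/f^2 := (h2 2 2 1 1 1).trans v21211
  have v22120 : e 2 2 1 2 0 = 0 := (h2 2 2 1 2 0).trans v21220
  have v22200 : e 2 2 2 0 0 = 0 := (h3 2 2 2 0 0).trans v22020
  have v22201 : e 2 2 2 0 1 = 0 := (h3 2 2 2 0 1).trans v22021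
  have v22211 : e 2 2 2 1 1 = 0 := (h3 2 2 2 1 1).trans v22121
  have v12100 : e 1 2 1 0 0 = -2*q/f := (h2 1 2 1 0 0).trans v11200
  have v21000 : e 2 1 0 0 0 = -2*p/f := (h1 2 1 0 0 0).trans v12000
  have v21010 : e 2 1 0 1 0 = -2*q/f := (h1 2 1 0 1 0).trans v12010
  have v21110 : e 2 1 1 1 0 = -2*r/f := (h1 2 1 1 1 0).trans v12110
  have v21200 : e 2 1 2 0 0 = 0 := (h1 2 1 2 0 0).trans v12200
  have v21210 : e 2 1 2 1 0 = 0 := (h1 2 1 2 1 0).trans v12210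
  have v22010 : e 2 2 0 1 0 = 0 := (h2 2 2 0 1 0).trans v20210
  have v22101 : e 2 2 1 0 1 = 0 := (h2 2 2 1 0 1).trans v21201
  have v22210 : e 2 2 2 1 0 = 0 := (h3 2 2 2 1 0).trans v22120
  have v21100 : e 2 1 1 0 0 = -2*q/f := (h1 2 1 1 0 0).trans v12100
  have v22100 : e 2 2 1 0 0 = 0 := (h2 2 2 1 0 0).trans v21200
  have v22110 : e 2 2 1 1 0 = 0 := (h2 2 2 1 1 0).trans v21210
  exact ⟨v00000, v00001, v00002, v00011, v00012, v00022, v00111, v00112, v00122, v00222, v01111, v01112, v01122, v01222, v02222, v11111, v11112, v11122, v11222, v12222, v22222, v00010, v00020, v00021, v00101, v00102, v00121, v00202, v00212, v01011, v01012, v01022, v01121, v01212, v02022, v02122, v10111, v10112, v10122, v10222, v11121, v11212, v12122, v20222, v21222, v00100, v00110, v00120, v00200, v00201, v00211, v00220, v00221, v01001, v01002, v01021, v01101, v01102, v01202,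 v01211, v01221, v02002, v02012, v02112, v02202, v02212, v10011, v10012, v10022, v10121, v10212, v11011, v11012, v11022, v11211, v11221, v12022, v12112, v12212, v20022, v20122, v21122, v22022, v22122, v00210, v01000, v01010, v01020, v01110, v01120, v01201, v01220, v02000, v02001, v02011, v02020, v02021, v02102, v02111, v02121, v02220, v02221, v10001, v10002, v10021, v10101, v10102, v10202, v10211, v10221, v11021, v11101, v11102, v11202, v12012, v12111, v12121, v12202, v12221, v20002, v20012, v20112, v20202, v20212, v21022, v21112, v21212, v22202, v22212, v01100, v01200, v01210, v02010, v02101, v02120, v02200, v02201, v02211, v10000, v10010, v10020, v10110, v10120, v10201, v10220, v11001, v11002, v11110, v11120, v11201, v11220, v12002, v12011, v12021, v12102, v12211, v12220, v20000, v20001, v20011, v20020, v20021, v20102, v20111, v20121, v20220, v20221,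 v21012, v21111, v21121, v21202, v21221, v22002, v22012, v22112, v22220, v22221, v02100, v02110, v02210, v10100, v10200, v10210, v11010, v11020, v11210, v12001, v12020, v12101, v12120, v12201, v20010, v20101, v20120, v20200, v20201, v20211, v21002, v21011, v21021, v21102, v21211, v21220, v22020, v22021, v22102, v22121, v11000, v11100, v11200, v12000, v12010, v12110, v12200, v12210, v20100, v20110, v20210, v21001, v21020, v21101, v21120, v21201, v22000, v22001, v22011, v22111, v22120, v22200, v22201, v22211, v12100, v21000, v21010, v21110, v21200, v21210, v22010, v22101, v22210, v21100, v22100, v22110⟩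

section
variable (c : A3) (d : A4) (e : A5) (f l1 l2 a p q r b E0 E1 E2 E3 E4 E5 : ℝ)

theorem tau0 (hc : CV c l1 l2) :
    tauA dl c 0 = l1 := by
  simp only [tau_dl, Fin.sum_univ_three, hc.v000, hc.v001, hc.v002, hc.v011, hc.v012, hc.v022, hc.v111, hc.v112, hc.v122, hc.v222, hc.v010, hc.v020, hc.v021, hc.v101, hc.v102, hc.v121, hc.v202, hc.v212, hc.v100, hc.v110, hc.v120, hc.v200, hc.v201, hc.v211, hc.v220, hc.v221, hc.v210]; ring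

theorem tau1 (hc : CV c l1 l2) :
    tauA dl c 1 = l2 := by
  simp only [tau_dl, Fin.sum_univ_three, hc.v000, hc.v001, hc.v002, hc.v011, hc.v012, hc.v022, hc.v111, hc.v112, hc.v122, hc.v222, hc.v010, hc.v020, hc.v021, hc.v101, hc.v102, hc.v121, hc.v202, hc.v212, hc.v100, hc.v110, hc.v120, hc.v200, hc.v201, hc.v211, hc.v220, hc.v221, hc.v210]; ring

theorem tau2 (hc : CV c l1 l2) :
    tauA dl c 2 = 0 := by
  simp only [tau_dl, Fin.sum_univ_three, hc.v000, hc.v001, hc.v002, hc.v011, hc.v012, hc.v022, hc.v111, hc.v112, hc.v122, hc.v222, hc.v010, hc.v020, hc.v021, hc.v101, hc.v102, hc.v121, hc.v202, hc.v212, hc.v100, hc.v110, hc.v120, hc.v200, hc.v201, hc.v211, hc.v220, hc.v221, hc.v210]; ring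

theorem nval (hc : CV c l1 l2) :
    nA dl c = l1 ^ 2 + l2 ^ 2 := by
  simp only [n_dl, Fin.sum_univ_three, tau0 c l1 l2 hc, tau1 c l1 l2 hc, tau2 c l1 l2 hc]; ring

theorem th00 (hc : CV c l1 l2) (hd : DV d f l1 l2 a p q r b) :
    thA dl c d 0 0 = a - l1^2 + q := by
  simp only [th_dl, Fin.sum_univ_three, hc.v000, hc.v001, hc.v002, hc.v011, hc.v012, hc.v022, hc.v111, hc.v112, hc.v122, hc.v222, hc.v010, hc.v020, hc.v021, hc.v101, hc.v102, hc.v121, hc.v202, hc.v212, hc.v100, hc.v110, hc.v120, hc.v200, hc.v201, hc.v211, hc.v220, hc.v221, hc.v210, hd.v0000, hd.v0001, hd.v0002, hd.v0011, hd.v0012, hd.v0022, hd.v0111, hd.v0112, hd.v0122, hd.v0222, hd.v1111, hd.v1112, hd.v1122, hd.v1222, hd.v2222, hd.v0010, hd.v0020, hd.v0021, hd.v0101, hd.v0102, hd.v0121, hd.v0202, hd.v0212, hd.v1011, hd.v1012, hd.v1022, hd.v1121, hd.v1212, hd.v2022, hd.v2122, hd.v0100, hd.v0110,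 hd.v0120, hd.v0200, hd.v0201, hd.v0211, hd.v0220, hd.v0221, hd.v1001, hd.v1002, hd.v1021, hd.v1101, hd.v1102, hd.v1202, hd.v1211, hd.v1221, hd.v2002, hd.v2012, hd.v2112, hd.v2202, hd.v2212, hd.v0210, hd.v1000, hd.v1010, hd.v1020, hd.v1110, hd.v1120, hd.v1201, hd.v1220, hd.v2000, hd.v2001, hd.v2011, hd.v2020, hd.v2021, hd.v2102, hd.v2111, hd.v2121, hd.v2220, hd.v2221, hd.v1100, hd.v1200, hd.v1210, hd.v2010, hd.v2101, hd.v2120, hd.v2200, hd.v2201, hd.v2211, hd.v2100, hd.v2110, hd.v2210]; ring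

theorem th01 (hc : CV c l1 l2) (hd : DV d f l1 l2 a p q r b) :
    thA dl c d 0 1 = p + r := by
  simp only [th_dl, Fin.sum_univ_three, hc.v000, hc.v001, hc.v002, hc.v011, hc.v012, hc.v022, hc.v111, hc.v112, hc.v122, hc.v222, hc.v010, hc.v020, hc.v021, hc.v101, hc.v102, hc.v121, hc.v202, hc.v212, hc.v100, hc.v110, hc.v120, hc.v200, hc.v201, hc.v211, hc.v220, hc.v221, hc.v210, hd.v0000, hd.v0001, hd.v0002, hd.v0011, hd.v0012, hd.v0022, hd.v0111, hd.v0112, hd.v0122, hd.v0222, hd.v1111, hd.v1112, hd.v1122, hd.v1222, hd.v2222, hd.v0010, hd.v0020, hd.v0021, hd.v0101, hd.v0102, hd.v0121, hd.v0202, hd.v0212, hd.v1011, hd.v1012, hd.v1022, hd.v1121, hd.v1212, hd.v2022, hd.v2122, hd.v0100, hd.v0110, hd.v0120, hd.v0200, hd.v0201, hd.v0211, hd.v0220, hd.v0221, hd.v1001, hd.v1002, hd.v1021, hd.v1101, hd.v1102, hd.v1202, hd.v1211, hd.v1221, hd.v2002, hd.v2012, hd.v2112,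 hd.v2202, hd.v2212, hd.v0210, hd.v1000, hd.v1010, hd.v1020, hd.v1110, hd.v1120, hd.v1201, hd.v1220, hd.v2000, hd.v2001, hd.v2011, hd.v2020, hd.v2021, hd.v2102, hd.v2111, hd.v2121, hd.v2220, hd.v2221, hd.v1100, hd.v1200, hd.v1210, hd.v2010, hd.v2101, hd.v2120, hd.v2200, hd.v2201, hd.v2211, hd.v2100, hd.v2110, hd.v2210]; ring

theorem th02 (hc : CV c l1 l2) (hd : DV d f l1 l2 a p q r b) :
    thA dl c d 0 2 = -l1/f := by
  simp only [th_dl, Fin.sum_univ_three, hc.v000, hc.v001, hc.v002, hc.v011, hc.v012, hc.v022, hc.v111, hc.v112, hc.v122, hc.v222, hc.v010, hc.v020, hc.v021, hc.v101, hc.v102, hc.v121, hc.v202, hc.v212, hc.v100, hc.v110, hc.v120, hc.v200, hc.v201, hc.v211, hc.v220, hc.v221, hc.v210, hd.v0000, hd.v0001, hd.v0002, hd.v0011, hd.v0012, hd.v0022, hd.v0111, hd.v0112, hd.v0122, hd.v0222, hd.v1111, hd.v1112, hd.v1122, hd.v1222, hd.v2222, hd.v0010,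 hd.v0020, hd.v0021, hd.v0101, hd.v0102, hd.v0121, hd.v0202, hd.v0212, hd.v1011, hd.v1012, hd.v1022, hd.v1121, hd.v1212, hd.v2022, hd.v2122, hd.v0100, hd.v0110, hd.v0120, hd.v0200, hd.v0201, hd.v0211, hd.v0220, hd.v0221, hd.v1001, hd.v1002, hd.v1021, hd.v1101, hd.v1102, hd.v1202, hd.v1211, hd.v1221, hd.v2002, hd.v2012, hd.v2112, hd.v2202, hd.v2212, hd.v0210, hd.v1000, hd.v1010, hd.v1020, hd.v1110, hd.v1120, hd.v1201, hd.v1220, hd.v2000, hd.v2001, hd.v2011, hd.v2020, hd.v2021, hd.v2102, hd.v2111, hd.v2121, hd.v2220, hd.v2221, hd.v1100, hd.v1200, hd.v1210, hd.v2010, hd.v2101, hd.v2120, hd.v2200, hd.v2201, hd.v2211, hd.v2100, hd.v2110, hd.v2210]; ring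

theorem th10 (hc : CV c l1 l2) (hd : DV d f l1 l2 a p q r b) :
    thA dl c d 1 0 = p + r := by
  simp only [th_dl, Fin.sum_univ_three, hc.v000, hc.v001, hc.v002, hc.v011, hc.v012, hc.v022, hc.v111, hc.v112, hc.v122, hc.v222, hc.v010, hc.v020, hc.v021, hc.v101, hc.v102, hc.v121, hc.v202, hc.v212, hc.v100, hc.v110, hc.v120, hc.v200, hc.v201, hc.v211, hc.v220, hc.v221, hc.v210, hd.v0000, hd.v0001, hd.v0002, hd.v0011, hd.v0012, hd.v0022, hd.v0111, hd.v0112, hd.v0122, hd.v0222, hd.v1111, hd.v1112, hd.v1122, hd.v1222, hd.v2222, hd.v0010, hd.v0020, hd.v0021, hd.v0101, hd.v0102, hd.v0121, hd.v0202, hd.v0212, hd.v1011, hd.v1012, hd.v1022, hd.v1121, hd.v1212, hd.v2022, hd.v2122, hd.v0100, hd.v0110, hd.v0120, hd.v0200, hd.v0201, hd.v0211, hd.v0220, hd.v0221, hd.v1001, hd.v1002, hd.v1021, hd.v1101, hd.v1102, hd.v1202, hd.v1211, hd.v1221, hd.v2002, hd.v2012, hd.v2112,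 hd.v2202, hd.v2212, hd.v0210, hd.v1000, hd.v1010, hd.v1020, hd.v1110, hd.v1120, hd.v1201, hd.v1220, hd.v2000, hd.v2001, hd.v2011, hd.v2020, hd.v2021, hd.v2102, hd.v2111, hd.v2121, hd.v2220, hd.v2221, hd.v1100, hd.v1200, hd.v1210, hd.v2010, hd.v2101, hd.v2120, hd.v2200, hd.v2201, hd.v2211, hd.v2100, hd.v2110, hd.v2210]; ring

theorem th11 (hc : CV c l1 l2) (hd : DV d f l1 l2 a p q r b) :
    thA dl c d 1 1 = b - l2^2 + q := by
  simp only [th_dl, Fin.sum_univ_three, hc.v000, hc.v001, hc.v002, hc.v011, hc.v012, hc.v022, hc.v111, hc.v112, hc.v122, hc.v222, hc.v010, hc.v020, hc.v021, hc.v101, hc.v102, hc.v121, hc.v202, hc.v212, hc.v100, hc.v110, hc.v120, hc.v200, hc.v201, hc.v211, hc.v220, hc.v221, hc.v210, hd.v0000, hd.v0001, hd.v0002, hd.v0011, hd.v0012, hd.v0022, hd.v0111, hd.v0112, hd.v0122, hd.v0222, hd.v1111, hd.v1112, hd.v1122, hd.v1222, hd.v2222, hd.v0010,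 hd.v0020, hd.v0021, hd.v0101, hd.v0102, hd.v0121, hd.v0202, hd.v0212, hd.v1011, hd.v1012, hd.v1022, hd.v1121, hd.v1212, hd.v2022, hd.v2122, hd.v0100, hd.v0110, hd.v0120, hd.v0200, hd.v0201, hd.v0211, hd.v0220, hd.v0221, hd.v1001, hd.v1002, hd.v1021, hd.v1101, hd.v1102, hd.v1202, hd.v1211, hd.v1221, hd.v2002, hd.v2012, hd.v2112, hd.v2202, hd.v2212, hd.v0210, hd.v1000, hd.v1010, hd.v1020, hd.v1110, hd.v1120, hd.v1201, hd.v1220, hd.v2000, hd.v2001, hd.v2011, hd.v2020, hd.v2021, hd.v2102, hd.v2111, hd.v2121, hd.v2220, hd.v2221, hd.v1100, hd.v1200, hd.v1210, hd.v2010, hd.v2101, hd.v2120, hd.v2200, hd.v2201, hd.v2211, hd.v2100, hd.v2110, hd.v2210]; ring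

theorem th12 (hc : CV c l1 l2) (hd : DV d f l1 l2 a p q r b) :
    thA dl c d 1 2 = -l2/f := by
  simp only [th_dl, Fin.sum_univ_three, hc.v000, hc.v001, hc.v002, hc.v011, hc.v012, hc.v022, hc.v111, hc.v112, hc.v122, hc.v222, hc.v010, hc.v020, hc.v021, hc.v101, hc.v102, hc.v121, hc.v202, hc.v212, hc.v100, hc.v110, hc.v120, hc.v200, hc.v201, hc.v211, hc.v220, hc.v221, hc.v210, hd.v0000, hd.v0001, hd.v0002, hd.v0011, hd.v0012, hd.v0022, hd.v0111, hd.v0112, hd.v0122, hd.v0222, hd.v1111, hd.v1112, hd.v1122, hd.v1222, hd.v2222, hd.v0010, hd.v0020, hd.v0021, hd.v0101, hd.v0102, hd.v0121, hd.v0202, hd.v0212, hd.v1011, hd.v1012, hd.v1022, hd.v1121, hd.v1212, hd.v2022, hd.v2122, hd.v0100, hd.v0110, hd.v0120, hd.v0200, hd.v0201, hd.v0211, hd.v0220, hd.v0221, hd.v1001, hd.v1002, hd.v1021, hd.v1101, hd.v1102, hd.v1202, hd.v1211, hd.v1221, hd.v2002, hd.v2012, hd.v2112,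 hd.v2202, hd.v2212, hd.v0210, hd.v1000, hd.v1010, hd.v1020, hd.v1110, hd.v1120, hd.v1201, hd.v1220, hd.v2000, hd.v2001, hd.v2011, hd.v2020, hd.v2021, hd.v2102, hd.v2111, hd.v2121, hd.v2220, hd.v2221, hd.v1100, hd.v1200, hd.v1210, hd.v2010, hd.v2101, hd.v2120, hd.v2200, hd.v2201, hd.v2211, hd.v2100, hd.v2110, hd.v2210]; ring

theorem th20 (hc : CV c l1 l2) (hd : DV d f l1 l2 a p q r b) :
    thA dl c d 2 0 = -l1/f := by
  simp only [th_dl, Fin.sum_univ_three, hc.v000, hc.v001, hc.v002, hc.v011, hc.v012, hc.v022, hc.v111, hc.v112, hc.v122, hc.v222, hc.v010, hc.v020, hc.v021, hc.v101, hc.v102, hc.v121, hc.v202, hc.v212, hc.v100, hc.v110, hc.v120, hc.v200, hc.v201, hc.v211, hc.v220, hc.v221, hc.v210, hd.v0000, hd.v0001, hd.v0002, hd.v0011, hd.v0012, hd.v0022, hd.v0111, hd.v0112, hd.v0122, hd.v0222, hd.v1111, hd.v1112, hd.v1122, hd.v1222, hd.v2222, hd.v0010,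 hd.v0020, hd.v0021, hd.v0101, hd.v0102, hd.v0121, hd.v0202, hd.v0212, hd.v1011, hd.v1012, hd.v1022, hd.v1121, hd.v1212, hd.v2022, hd.v2122, hd.v0100, hd.v0110, hd.v0120, hd.v0200, hd.v0201, hd.v0211, hd.v0220, hd.v0221, hd.v1001, hd.v1002, hd.v1021, hd.v1101, hd.v1102, hd.v1202, hd.v1211, hd.v1221, hd.v2002, hd.v2012, hd.v2112, hd.v2202, hd.v2212, hd.v0210, hd.v1000, hd.v1010, hd.v1020, hd.v1110, hd.v1120, hd.v1201, hd.v1220, hd.v2000, hd.v2001, hd.v2011, hd.v2020, hd.v2021, hd.v2102, hd.v2111, hd.v2121, hd.v2220, hd.v2221, hd.v1100, hd.v1200, hd.v1210, hd.v2010, hd.v2101, hd.v2120, hd.v2200, hd.v2201, hd.v2211, hd.v2100, hd.v2110, hd.v2210]; ring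

theorem th21 (hc : CV c l1 l2) (hd : DV d f l1 l2 a p q r b) :
    thA dl c d 2 1 = -l2/f := by
  simp only [th_dl, Fin.sum_univ_three, hc.v000, hc.v001, hc.v002, hc.v011, hc.v012, hc.v022, hc.v111, hc.v112, hc.v122, hc.v222, hc.v010, hc.v020, hc.v021, hc.v101, hc.v102, hc.v121, hc.v202, hc.v212, hc.v100, hc.v110, hc.v120, hc.v200, hc.v201, hc.v211, hc.v220, hc.v221, hc.v210, hd.v0000, hd.v0001, hd.v0002, hd.v0011, hd.v0012, hd.v0022, hd.v0111, hd.v0112, hd.v0122, hd.v0222, hd.v1111, hd.v1112, hd.v1122, hd.v1222, hd.v2222, hd.v0010, hd.v0020, hd.v0021, hd.v0101, hd.v0102, hd.v0121, hd.v0202, hd.v0212, hd.v1011, hd.v1012, hd.v1022, hd.v1121, hd.v1212, hd.v2022, hd.v2122, hd.v0100, hd.v0110, hd.v0120, hd.v0200, hd.v0201, hd.v0211, hd.v0220, hd.v0221, hd.v1001, hd.v1002, hd.v1021, hd.v1101, hd.v1102, hd.v1202, hd.v1211, hd.v1221, hd.v2002, hd.v2012, hd.v2112,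 hd.v2202, hd.v2212, hd.v0210, hd.v1000, hd.v1010, hd.v1020, hd.v1110, hd.v1120, hd.v1201, hd.v1220, hd.v2000, hd.v2001, hd.v2011, hd.v2020, hd.v2021, hd.v2102, hd.v2111, hd.v2121, hd.v2220, hd.v2221, hd.v1100, hd.v1200, hd.v1210, hd.v2010, hd.v2101, hd.v2120, hd.v2200, hd.v2201, hd.v2211, hd.v2100, hd.v2110, hd.v2210]; ring

theorem th22 (hc : CV c l1 l2) (hd : DV d f l1 l2 a p q r b) :
    thA dl c d 2 2 = 0 := by
  simp only [th_dl, Fin.sum_univ_three, hc.v000, hc.v001, hc.v002, hc.v011, hc.v012, hc.v022, hc.v111, hc.v112, hc.v122, hc.v222, hc.v010, hc.v020, hc.v021, hc.v101, hc.v102, hc.v121, hc.v202, hc.v212, hc.v100, hc.v110, hc.v120, hc.v200, hc.v201, hc.v211, hc.v220, hc.v221, hc.v210, hd.v0000, hd.v0001, hd.v0002, hd.v0011, hd.v0012, hd.v0022, hd.v0111, hd.v0112, hd.v0122, hd.v0222, hd.v1111, hd.v1112, hd.v1122, hd.v1222, hd.v2222, hd.v0010, hd.v0020,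 hd.v0021, hd.v0101, hd.v0102, hd.v0121, hd.v0202, hd.v0212, hd.v1011, hd.v1012, hd.v1022, hd.v1121, hd.v1212, hd.v2022, hd.v2122, hd.v0100, hd.v0110, hd.v0120, hd.v0200, hd.v0201, hd.v0211, hd.v0220, hd.v0221, hd.v1001, hd.v1002, hd.v1021, hd.v1101, hd.v1102, hd.v1202, hd.v1211, hd.v1221, hd.v2002, hd.v2012, hd.v2112, hd.v2202, hd.v2212, hd.v0210, hd.v1000, hd.v1010, hd.v1020, hd.v1110, hd.v1120, hd.v1201, hd.v1220, hd.v2000, hd.v2001, hd.v2011, hd.v2020, hd.v2021, hd.v2102, hd.v2111, hd.v2121, hd.v2220, hd.v2221, hd.v1100, hd.v1200, hd.v1210, hd.v2010, hd.v2101, hd.v2120, hd.v2200, hd.v2201, hd.v2211, hd.v2100, hd.v2110, hd.v2210]; ring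

theorem u0 (hc : CV c l1 l2) (hd : DV d f l1 l2 a p q r b) :
    uA dl c d 0 = l2*p + l2*r := by
  simp only [u_dl, Fin.sum_univ_three, tau0 c l1 l2 hc, tau1 c l1 l2 hc, tau2 c l1 l2 hc, th00 c d f l1 l2 a p q r b hc hd, th01 c d f l1 l2 a p q r b hc hd, th02 c d f l1 l2 a p q r b hc hd, th10 c d f l1 l2 a p q r b hc hd, th11 c d f l1 l2 a p q r b hc hd, th12 c d f l1 l2 a p q r b hc hd, th20 c d f l1 l2 a p q r b hc hd, th21 c d f l1 l2 a p q r b hc hd, th22 c d f l1 l2 a p q r b hc hd, hc.v000, hc.v001, hc.v002, hc.v011, hc.v012, hc.v022, hc.v111, hc.v112, hc.v122, hc.v222, hc.v010, hc.v020, hc.v021, hc.v101, hc.v102, hc.v121, hc.v202, hc.v212, hc.v100, hc.v110, hc.v120, hc.v200, hc.v201, hc.v211, hc.v220, hc.v221, hc.v210]; ring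

theorem u1 (hc : CV c l1 l2) (hd : DV d f l1 l2 a p q r b) :
    uA dl c d 1 = l1*p + l1*r := by
  simp only [u_dl, Fin.sum_univ_three, tau0 c l1 l2 hc, tau1 c l1 l2 hc, tau2 c l1 l2 hc, th00 c d f l1 l2 a p q r b hc hd, th01 c d f l1 l2 a p q r b hc hd, th02 c d f l1 l2 a p q r b hc hd, th10 c d f l1 l2 a p q r b hc hd, th11 c d f l1 l2 a p q r b hc hd, th12 c d f l1 l2 a p q r b hc hd, th20 c d f l1 l2 a p q r b hc hd, th21 c d f l1 l2 a p q r b hc hd, th22 c d f l1 l2 a p q r b hc hd, hc.v000, hc.v001, hc.v002, hc.v011, hc.v012, hc.v022, hc.v111, hc.v112, hc.v122, hc.v222, hc.v010, hc.v020, hc.v021, hc.v101, hc.v102, hc.v121, hc.v202, hc.v212, hc.v100, hc.v110, hc.v120, hc.v200, hc.v201, hc.v211, hc.v220, hc.v221, hc.v210]; ring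

theorem u2 (hc : CV c l1 l2) (hd : DV d f l1 l2 a p q r b) :
    uA dl c d 2 = -l1^2/f - l2^2/f := by
  simp only [u_dl, Fin.sum_univ_three, tau0 c l1 l2 hc, tau1 c l1 l2 hc, tau2 c l1 l2 hc, th00 c d f l1 l2 a p q r b hc hd, th01 c d f l1 l2 a p q r b hc hd, th02 c d f l1 l2 a p q r b hc hd, th10 c d f l1 l2 a p q r b hc hd, th11 c d f l1 l2 a p q r b hc hd, th12 c d f l1 l2 a p q r b hc hd, th20 c d f l1 l2 a p q r b hc hd, th21 c d f l1 l2 a p q r b hc hd, th22 c d f l1 l2 a p q r b hc hd, hc.v000, hc.v001, hc.v002, hc.v011, hc.v012, hc.v022, hc.v111, hc.v112, hc.v122, hc.v222, hc.v010, hc.v020, hc.v021, hc.v101, hc.v102, hc.v121, hc.v202, hc.v212, hc.v100, hc.v110, hc.v120, hc.v200, hc.v201, hc.v211, hc.v220, hc.v221, hc.v210]; ring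

theorem quval (hc : CV c l1 l2) (hd : DV d f l1 l2 a p q r b) :
    quA dl c d = 2*l1^2*l2^2/f^2 + l1^4/f^2 + l2^4/f^2 + 2*l1^2*p*r + l1^2*p^2 + l1^2*r^2 + 2*l2^2*p*r + l2^2*p^2 + l2^2*r^2 := by
  simp only [qu_dl, Fin.sum_univ_three, u0 c d f l1 l2 a p q r b hc hd, u1 c d f l1 l2 a p q r b hc hd, u2 c d f l1 l2 a p q r b hc hd]; ring

end

/-- the derivative arrays in the direction `k` -/
def hK (c : A3) (k : Fin 3) : A2 := fun i j => -c i j k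
def cK (d : A4) (k : Fin 3) : A3 := fun i j m => d i j m k
def dK (e : A5) (k : Fin 3) : A4 := fun i j m n => e i j m n k

section
variable (c : A3) (d : A4) (e : A5) (f l1 l2 a p q r b E0 E1 E2 E3 E4 E5 : ℝ)

theorem tauD00 (hc : CV c l1 l2) (hd : DV d f l1 l2 a p q r b) :
    tauD dl c (hK c 0) (cK d 0) 0 = a - l1^2 + q := by
  simp only [tauD_dl, hK, cK, Fin.sum_univ_three, hc.v000, hc.v001, hc.v002, hc.v011, hc.v012, hc.v022, hc.v111, hc.v112, hc.v122, hc.v222, hc.v010, hc.v020, hc.v021, hc.v101, hc.v102, hc.v121, hc.v202, hc.v212, hc.v100, hc.v110, hc.v120, hc.v200, hc.v201, hc.v211, hc.v220, hc.v221, hc.v210, hd.v0000, hd.v0001, hd.v0002, hd.v0011, hd.v0012, hd.v0022, hd.v0111, hd.v0112, hd.v0122, hd.v0222, hd.v1111, hd.v1112, hd.v1122, hd.v1222, hd.v2222, hd.v0010, hd.v0020, hd.v0021, hd.v0101, hd.v0102, hd.v0121, hd.v0202, hd.v0212, hd.v1011, hd.v1012,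 hd.v1022, hd.v1121, hd.v1212, hd.v2022, hd.v2122, hd.v0100, hd.v0110, hd.v0120, hd.v0200, hd.v0201, hd.v0211, hd.v0220, hd.v0221, hd.v1001, hd.v1002, hd.v1021, hd.v1101, hd.v1102, hd.v1202, hd.v1211, hd.v1221, hd.v2002, hd.v2012, hd.v2112, hd.v2202, hd.v2212, hd.v0210, hd.v1000, hd.v1010, hd.v1020, hd.v1110, hd.v1120, hd.v1201, hd.v1220, hd.v2000, hd.v2001, hd.v2011, hd.v2020, hd.v2021, hd.v2102, hd.v2111, hd.v2121, hd.v2220, hd.v2221, hd.v1100, hd.v1200, hd.v1210, hd.v2010, hd.v2101, hd.v2120, hd.v2200, hd.v2201, hd.v2211, hd.v2100, hd.v2110, hd.v2210]; ring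

theorem tauD01 (hc : CV c l1 l2) (hd : DV d f l1 l2 a p q r b) :
    tauD dl c (hK c 0) (cK d 0) 1 = p + r := by
  simp only [tauD_dl, hK, cK, Fin.sum_univ_three, hc.v000, hc.v001, hc.v002, hc.v011, hc.v012, hc.v022, hc.v111, hc.v112, hc.v122, hc.v222, hc.v010, hc.v020, hc.v021, hc.v101, hc.v102, hc.v121, hc.v202, hc.v212, hc.v100, hc.v110, hc.v120, hc.v200, hc.v201, hc.v211, hc.v220, hc.v221, hc.v210, hd.v0000, hd.v0001, hd.v0002, hd.v0011, hd.v0012, hd.v0022, hd.v0111, hd.v0112, hd.v0122, hd.v0222, hd.v1111, hd.v1112, hd.v1122, hd.v1222, hd.v2222, hd.v0010, hd.v0020, hd.v0021, hd.v0101, hd.v0102, hd.v0121, hd.v0202, hd.v0212, hd.v1011, hd.v1012, hd.v1022, hd.v1121, hd.v1212, hd.v2022, hd.v2122, hd.v0100, hd.v0110, hd.v0120, hd.v0200, hd.v0201, hd.v0211, hd.v0220, hd.v0221, hd.v1001, hd.v1002, hd.v1021, hd.v1101, hd.v1102, hd.v1202, hd.v1211, hd.v1221,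 hd.v2002, hd.v2012, hd.v2112, hd.v2202, hd.v2212, hd.v0210, hd.v1000, hd.v1010, hd.v1020, hd.v1110, hd.v1120, hd.v1201, hd.v1220, hd.v2000, hd.v2001, hd.v2011, hd.v2020, hd.v2021, hd.v2102, hd.v2111, hd.v2121, hd.v2220, hd.v2221, hd.v1100, hd.v1200, hd.v1210, hd.v2010, hd.v2101, hd.v2120, hd.v2200, hd.v2201, hd.v2211, hd.v2100, hd.v2110, hd.v2210]; ring

theorem tauD02 (hc : CV c l1 l2) (hd : DV d f l1 l2 a p q r b) :
    tauD dl c (hK c 0) (cK d 0) 2 = -l1/f := by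
  simp only [tauD_dl, hK, cK, Fin.sum_univ_three, hc.v000, hc.v001, hc.v002, hc.v011, hc.v012, hc.v022, hc.v111, hc.v112, hc.v122, hc.v222, hc.v010, hc.v020, hc.v021, hc.v101, hc.v102, hc.v121, hc.v202, hc.v212, hc.v100, hc.v110, hc.v120, hc.v200, hc.v201, hc.v211, hc.v220, hc.v221, hc.v210, hd.v0000, hd.v0001, hd.v0002, hd.v0011, hd.v0012, hd.v0022, hd.v0111, hd.v0112, hd.v0122, hd.v0222, hd.v1111, hd.v1112, hd.v1122, hd.v1222, hd.v2222, hd.v0010, hd.v0020, hd.v0021, hd.v0101, hd.v0102, hd.v0121, hd.v0202, hd.v0212, hd.v1011, hd.v1012, hd.v1022, hd.v1121, hd.v1212, hd.v2022, hd.v2122, hd.v0100, hd.v0110, hd.v0120, hd.v0200, hd.v0201, hd.v0211, hd.v0220, hd.v0221, hd.v1001, hd.v1002, hd.v1021, hd.v1101, hd.v1102, hd.v1202, hd.v1211, hd.v1221, hd.v2002, hd.v2012, hd.v2112, hd.v2202, hd.v2212, hd.v0210, hd.v1000, hd.v1010, hd.v1020, hd.v1110, hd.v1120, hd.v1201,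 hd.v1220, hd.v2000, hd.v2001, hd.v2011, hd.v2020, hd.v2021, hd.v2102, hd.v2111, hd.v2121, hd.v2220, hd.v2221, hd.v1100, hd.v1200, hd.v1210, hd.v2010, hd.v2101, hd.v2120, hd.v2200, hd.v2201, hd.v2211, hd.v2100, hd.v2110, hd.v2210]; ring

theorem htD00 (hc : CV c l1 l2) (hd : DV d f l1 l2 a p q r b) :
    htD dl c (hK c 0) (cK d 0) 0 = a - 2*l1^2 + q := by
  simp only [htD_dl, Fin.sum_univ_three, tauD00 c d f l1 l2 a p q r b hc hd, tauD01 c d f l1 l2 a p q r b hc hd, tauD02 c d f l1 l2 a p q r b hc hd, tau0 c l1 l2 hc, tau1 c l1 l2 hc, tau2 c l1 l2 hc, hK, hc.v000, hc.v001, hc.v002, hc.v011, hc.v012, hc.v022, hc.v111, hc.v112, hc.v122, hc.v222, hc.v010, hc.v020, hc.v021, hc.v101, hc.v102, hc.v121, hc.v202, hc.v212, hc.v100, hc.v110, hc.v120, hc.v200, hc.v201, hc.v211, hc.v220, hc.v221, hc.v210]; ring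

theorem htD01 (hc : CV c l1 l2) (hd : DV d f l1 l2 a p q r b) :
    htD dl c (hK c 0) (cK d 0) 1 = p + r := by
  simp only [htD_dl, Fin.sum_univ_three, tauD00 c d f l1 l2 a p q r b hc hd, tauD01 c d f l1 l2 a p q r b hc hd, tauD02 c d f l1 l2 a p q r b hc hd, tau0 c l1 l2 hc, tau1 c l1 l2 hc, tau2 c l1 l2 hc, hK, hc.v000, hc.v001, hc.v002, hc.v011, hc.v012, hc.v022, hc.v111, hc.v112, hc.v122, hc.v222, hc.v010, hc.v020, hc.v021, hc.v101, hc.v102, hc.v121, hc.v202, hc.v212, hc.v100, hc.v110, hc.v120, hc.v200, hc.v201, hc.v211, hc.v220, hc.v221, hc.v210]; ring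

theorem htD02 (hc : CV c l1 l2) (hd : DV d f l1 l2 a p q r b) :
    htD dl c (hK c 0) (cK d 0) 2 = -l1/f := by
  simp only [htD_dl, Fin.sum_univ_three, tauD00 c d f l1 l2 a p q r b hc hd, tauD01 c d f l1 l2 a p q r b hc hd, tauD02 c d f l1 l2 a p q r b hc hd, tau0 c l1 l2 hc, tau1 c l1 l2 hc, tau2 c l1 l2 hc, hK, hc.v000, hc.v001, hc.v002, hc.v011, hc.v012, hc.v022, hc.v111, hc.v112, hc.v122, hc.v222, hc.v010, hc.v020, hc.v021, hc.v101, hc.v102, hc.v121, hc.v202, hc.v212, hc.v100, hc.v110, hc.v120, hc.v200, hc.v201, hc.v211, hc.v220, hc.v221, hc.v210]; ring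

theorem nD0 (hc : CV c l1 l2) (hd : DV d f l1 l2 a p q r b) :
    nD dl c (hK c 0) (cK d 0) = 2*a*l1 + 2*l1*q - 3*l1^3 + 2*l2*p + 2*l2*r := by
  simp only [nD_dl, Fin.sum_univ_three, tauD00 c d f l1 l2 a p q r b hc hd, tauD01 c d f l1 l2 a p q r b hc hd, tauD02 c d f l1 l2 a p q r b hc hd, tau0 c l1 l2 hc, tau1 c l1 l2 hc, tau2 c l1 l2 hc, htD00 c d f l1 l2 a p q r b hc hd, htD01 c d f l1 l2 a p q r b hc hd, htD02 c d f l1 l2 a p q r b hc hd]; ring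

theorem thD000 (hc : CV c l1 l2) (hd : DV d f l1 l2 a p q r b) (he : EV e f l1 l2 a p q r b E0 E1 E2 E3 E4 E5) :
    thD dl c d (hK c 0) (cK d 0) (dK e 0) 0 0 = E0 + E2 - 3*a*l1 + 2*l1/f^2 + 2*l1^3 := by
  simp only [thD_dl, hK, cK, dK, Fin.sum_univ_three, hc.v000, hc.v001, hc.v002, hc.v011, hc.v012, hc.v022, hc.v111, hc.v112, hc.v122, hc.v222, hc.v010, hc.v020, hc.v021, hc.v101, hc.v102, hc.v121, hc.v202, hc.v212, hc.v100, hc.v110, hc.v120, hc.v200, hc.v201, hc.v211, hc.v220, hc.v221, hc.v210, hd.v0000, hd.v0001, hd.v0002, hd.v0011, hd.v0012, hd.v0022, hd.v0111, hd.v0112, hd.v0122, hd.v0222, hd.v1111, hd.v1112, hd.v1122, hd.v1222, hd.v2222, hd.v0010, hd.v0020, hd.v0021, hd.v0101, hd.v0102, hd.v0121, hd.v0202, hd.v0212, hd.v1011, hd.v1012, hd.v1022, hd.v1121, hd.v1212, hd.v2022, hd.v2122, hd.v0100, hd.v0110, hd.v0120, hd.v0200, hd.v0201, hd.v0211, hd.v0220,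 hd.v0221, hd.v1001, hd.v1002, hd.v1021, hd.v1101, hd.v1102, hd.v1202, hd.v1211, hd.v1221, hd.v2002, hd.v2012, hd.v2112, hd.v2202, hd.v2212, hd.v0210, hd.v1000, hd.v1010, hd.v1020, hd.v1110, hd.v1120, hd.v1201, hd.v1220, hd.v2000, hd.v2001, hd.v2011, hd.v2020, hd.v2021, hd.v2102, hd.v2111, hd.v2121, hd.v2220, hd.v2221, hd.v1100, hd.v1200, hd.v1210, hd.v2010, hd.v2101, hd.v2120, hd.v2200, hd.v2201, hd.v2211, hd.v2100, hd.v2110, hd.v2210, he.v00000, he.v11000, he.v22000]; ring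

theorem thD001 (hc : CV c l1 l2) (hd : DV d f l1 l2 a p q r b) (he : EV e f l1 l2 a p q r b E0 E1 E2 E3 E4 E5) :
    thD dl c d (hK c 0) (cK d 0) (dK e 0) 0 1 = E1 + E3 - 2*l1*p - l2*q := by
  simp only [thD_dl, hK, cK, dK, Fin.sum_univ_three, hc.v000, hc.v001, hc.v002, hc.v011, hc.v012, hc.v022, hc.v111, hc.v112, hc.v122, hc.v222, hc.v010, hc.v020, hc.v021, hc.v101, hc.v102, hc.v121, hc.v202, hc.v212, hc.v100, hc.v110, hc.v120, hc.v200, hc.v201, hc.v211, hc.v220, hc.v221, hc.v210, hd.v0000, hd.v0001, hd.v0002, hd.v0011, hd.v0012, hd.v0022, hd.v0111, hd.v0112, hd.v0122, hd.v0222, hd.v1111, hd.v1112, hd.v1122, hd.v1222, hd.v2222, hd.v0010, hd.v0020, hd.v0021, hd.v0101, hd.v0102, hd.v0121, hd.v0202, hd.v0212, hd.v1011, hd.v1012, hd.v1022, hd.v1121, hd.v1212, hd.v2022, hd.v2122, hd.v0100, hd.v0110, hd.v0120, hd.v0200, hd.v0201, hd.v0211, hd.v0220, hd.v0221,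 hd.v1001, hd.v1002, hd.v1021, hd.v1101, hd.v1102, hd.v1202, hd.v1211, hd.v1221, hd.v2002, hd.v2012, hd.v2112, hd.v2202, hd.v2212, hd.v0210, hd.v1000, hd.v1010, hd.v1020, hd.v1110, hd.v1120, hd.v1201, hd.v1220, hd.v2000, hd.v2001, hd.v2011, hd.v2020, hd.v2021, hd.v2102, hd.v2111, hd.v2121, hd.v2220, hd.v2221, hd.v1100, hd.v1200, hd.v1210, hd.v2010, hd.v2101, hd.v2120, hd.v2200, hd.v2201, hd.v2211, hd.v2100, hd.v2110, hd.v2210, he.v00010, he.v11010, he.v22010]; ring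

theorem thD002 (hc : CV c l1 l2) (hd : DV d f l1 l2 a p q r b) (he : EV e f l1 l2 a p q r b E0 E1 E2 E3 E4 E5) :
    thD dl c d (hK c 0) (cK d 0) (dK e 0) 0 2 = -2*a/f + 2*l1^2/f - 2*q/f := by
  simp only [thD_dl, hK, cK, dK, Fin.sum_univ_three, hc.v000, hc.v001, hc.v002, hc.v011, hc.v012, hc.v022, hc.v111, hc.v112, hc.v122, hc.v222, hc.v010, hc.v020, hc.v021, hc.v101, hc.v102, hc.v121, hc.v202, hc.v212, hc.v100, hc.v110, hc.v120, hc.v200, hc.v201, hc.v211, hc.v220, hc.v221, hc.v210, hd.v0000, hd.v0001, hd.v0002, hd.v0011, hd.v0012, hd.v0022, hd.v0111, hd.v0112, hd.v0122, hd.v0222, hd.v1111, hd.v1112, hd.v1122, hd.v1222, hd.v2222, hd.v0010, hd.v0020, hd.v0021, hd.v0101, hd.v0102, hd.v0121, hd.v0202, hd.v0212, hd.v1011, hd.v1012, hd.v1022, hd.v1121, hd.v1212, hd.v2022, hd.v2122, hd.v0100, hd.v0110, hd.v0120, hd.v0200, hd.v0201, hd.v0211, hd.v0220, hd.v0221,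 hd.v1001, hd.v1002, hd.v1021, hd.v1101, hd.v1102, hd.v1202, hd.v1211, hd.v1221, hd.v2002, hd.v2012, hd.v2112, hd.v2202, hd.v2212, hd.v0210, hd.v1000, hd.v1010, hd.v1020, hd.v1110, hd.v1120, hd.v1201, hd.v1220, hd.v2000, hd.v2001, hd.v2011, hd.v2020, hd.v2021, hd.v2102, hd.v2111, hd.v2121, hd.v2220, hd.v2221, hd.v1100, hd.v1200, hd.v1210, hd.v2010, hd.v2101, hd.v2120, hd.v2200, hd.v2201, hd.v2211, hd.v2100, hd.v2110, hd.v2210, he.v00020, he.v11020, he.v22020]; ring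

theorem thD010 (hc : CV c l1 l2) (hd : DV d f l1 l2 a p q r b) (he : EV e f l1 l2 a p q r b E0 E1 E2 E3 E4 E5) :
    thD dl c d (hK c 0) (cK d 0) (dK e 0) 1 0 = E1 + E3 - 2*l1*p - l2*q := by
  simp only [thD_dl, hK, cK, dK, Fin.sum_univ_three, hc.v000, hc.v001, hc.v002, hc.v011, hc.v012, hc.v022, hc.v111, hc.v112, hc.v122, hc.v222, hc.v010, hc.v020, hc.v021, hc.v101, hc.v102, hc.v121, hc.v202, hc.v212, hc.v100, hc.v110, hc.v120, hc.v200, hc.v201, hc.v211, hc.v220, hc.v221, hc.v210, hd.v0000, hd.v0001, hd.v0002, hd.v0011, hd.v0012, hd.v0022, hd.v0111, hd.v0112, hd.v0122, hd.v0222, hd.v1111, hd.v1112, hd.v1122, hd.v1222, hd.v2222, hd.v0010, hd.v0020, hd.v0021, hd.v0101, hd.v0102, hd.v0121, hd.v0202, hd.v0212, hd.v1011, hd.v1012, hd.v1022, hd.v1121, hd.v1212, hd.v2022, hd.v2122, hd.v0100, hd.v0110, hd.v0120, hd.v0200, hd.v0201, hd.v0211, hd.v0220, hd.v0221,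 hd.v1001, hd.v1002, hd.v1021, hd.v1101, hd.v1102, hd.v1202, hd.v1211, hd.v1221, hd.v2002, hd.v2012, hd.v2112, hd.v2202, hd.v2212, hd.v0210, hd.v1000, hd.v1010, hd.v1020, hd.v1110, hd.v1120, hd.v1201, hd.v1220, hd.v2000, hd.v2001, hd.v2011, hd.v2020, hd.v2021, hd.v2102, hd.v2111, hd.v2121, hd.v2220, hd.v2221, hd.v1100, hd.v1200, hd.v1210, hd.v2010, hd.v2101, hd.v2120, hd.v2200, hd.v2201, hd.v2211, hd.v2100, hd.v2110, hd.v2210, he.v00100, he.v11100, he.v22100]; ring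

theorem thD011 (hc : CV c l1 l2) (hd : DV d f l1 l2 a p q r b) (he : EV e f l1 l2 a p q r b E0 E1 E2 E3 E4 E5) :
    thD dl c d (hK c 0) (cK d 0) (dK e 0) 1 1 = E2 + E4 - l1*q - 2*l2*r := by
  simp only [thD_dl, hK, cK, dK, Fin.sum_univ_three, hc.v000, hc.v001, hc.v002, hc.v011, hc.v012, hc.v022, hc.v111, hc.v112, hc.v122, hc.v222, hc.v010, hc.v020, hc.v021, hc.v101, hc.v102, hc.v121, hc.v202, hc.v212, hc.v100, hc.v110, hc.v120, hc.v200, hc.v201, hc.v211, hc.v220, hc.v221, hc.v210, hd.v0000, hd.v0001, hd.v0002, hd.v0011, hd.v0012, hd.v0022, hd.v0111, hd.v0112, hd.v0122, hd.v0222, hd.v1111, hd.v1112, hd.v1122, hd.v1222, hd.v2222, hd.v0010, hd.v0020, hd.v0021, hd.v0101, hd.v0102, hd.v0121, hd.v0202, hd.v0212, hd.v1011, hd.v1012, hd.v1022, hd.v1121, hd.v1212, hd.v2022, hd.v2122, hd.v0100, hd.v0110, hd.v0120, hd.v0200, hd.v0201, hd.v0211, hd.v0220, hd.v0221,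 hd.v1001, hd.v1002, hd.v1021, hd.v1101, hd.v1102, hd.v1202, hd.v1211, hd.v1221, hd.v2002, hd.v2012, hd.v2112, hd.v2202, hd.v2212, hd.v0210, hd.v1000, hd.v1010, hd.v1020, hd.v1110, hd.v1120, hd.v1201, hd.v1220, hd.v2000, hd.v2001, hd.v2011, hd.v2020, hd.v2021, hd.v2102, hd.v2111, hd.v2121, hd.v2220, hd.v2221, hd.v1100, hd.v1200, hd.v1210, hd.v2010, hd.v2101, hd.v2120, hd.v2200, hd.v2201, hd.v2211, hd.v2100, hd.v2110, hd.v2210, he.v00110, he.v11110, he.v22110]; ring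

theorem thD012 (hc : CV c l1 l2) (hd : DV d f l1 l2 a p q r b) (he : EV e f l1 l2 a p q r b E0 E1 E2 E3 E4 E5) :
    thD dl c d (hK c 0) (cK d 0) (dK e 0) 1 2 = -2*p/f - 2*r/f := by
  simp only [thD_dl, hK, cK, dK, Fin.sum_univ_three, hc.v000, hc.v001, hc.v002, hc.v011, hc.v012, hc.v022, hc.v111, hc.v112, hc.v122, hc.v222, hc.v010, hc.v020, hc.v021, hc.v101, hc.v102, hc.v121, hc.v202, hc.v212, hc.v100, hc.v110, hc.v120, hc.v200, hc.v201, hc.v211, hc.v220, hc.v221, hc.v210, hd.v0000, hd.v0001, hd.v0002, hd.v0011, hd.v0012, hd.v0022, hd.v0111, hd.v0112, hd.v0122, hd.v0222, hd.v1111, hd.v1112, hd.v1122, hd.v1222, hd.v2222, hd.v0010, hd.v0020, hd.v0021, hd.v0101, hd.v0102, hd.v0121, hd.v0202, hd.v0212, hd.v1011, hd.v1012, hd.v1022, hd.v1121, hd.v1212, hd.v2022, hd.v2122, hd.v0100, hd.v0110, hd.v0120, hd.v0200, hd.v0201, hd.v0211, hd.v0220, hd.v0221, hd.v1001,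 hd.v1002, hd.v1021, hd.v1101, hd.v1102, hd.v1202, hd.v1211, hd.v1221, hd.v2002, hd.v2012, hd.v2112, hd.v2202, hd.v2212, hd.v0210, hd.v1000, hd.v1010, hd.v1020, hd.v1110, hd.v1120, hd.v1201, hd.v1220, hd.v2000, hd.v2001, hd.v2011, hd.v2020, hd.v2021, hd.v2102, hd.v2111, hd.v2121, hd.v2220, hd.v2221, hd.v1100, hd.v1200, hd.v1210, hd.v2010, hd.v2101, hd.v2120, hd.v2200, hd.v2201, hd.v2211, hd.v2100, hd.v2110, hd.v2210, he.v00120, he.v11120, he.v22120]; ring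

theorem thD020 (hc : CV c l1 l2) (hd : DV d f l1 l2 a p q r b) (he : EV e f l1 l2 a p q r b E0 E1 E2 E3 E4 E5) :
    thD dl c d (hK c 0) (cK d 0) (dK e 0) 2 0 = -2*a/f + 2*l1^2/f - 2*q/f := by
  simp only [thD_dl, hK, cK, dK, Fin.sum_univ_three, hc.v000, hc.v001, hc.v002, hc.v011, hc.v012, hc.v022, hc.v111, hc.v112, hc.v122, hc.v222, hc.v010, hc.v020, hc.v021, hc.v101, hc.v102, hc.v121, hc.v202, hc.v212, hc.v100, hc.v110, hc.v120, hc.v200, hc.v201, hc.v211, hc.v220, hc.v221, hc.v210, hd.v0000, hd.v0001, hd.v0002, hd.v0011, hd.v0012, hd.v0022, hd.v0111, hd.v0112, hd.v0122, hd.v0222, hd.v1111, hd.v1112, hd.v1122, hd.v1222, hd.v2222, hd.v0010, hd.v0020, hd.v0021, hd.v0101, hd.v0102, hd.v0121, hd.v0202, hd.v0212, hd.v1011, hd.v1012, hd.v1022, hd.v1121, hd.v1212, hd.v2022, hd.v2122, hd.v0100, hd.v0110, hd.v0120, hd.v0200, hd.v0201, hd.v0211, hd.v0220, hd.v0221,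 hd.v1001, hd.v1002, hd.v1021, hd.v1101, hd.v1102, hd.v1202, hd.v1211, hd.v1221, hd.v2002, hd.v2012, hd.v2112, hd.v2202, hd.v2212, hd.v0210, hd.v1000, hd.v1010, hd.v1020, hd.v1110, hd.v1120, hd.v1201, hd.v1220, hd.v2000, hd.v2001, hd.v2011, hd.v2020, hd.v2021, hd.v2102, hd.v2111, hd.v2121, hd.v2220, hd.v2221, hd.v1100, hd.v1200, hd.v1210, hd.v2010, hd.v2101, hd.v2120, hd.v2200, hd.v2201, hd.v2211, hd.v2100, hd.v2110, hd.v2210, he.v00200, he.v11200, he.v22200]; ring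

theorem thD021 (hc : CV c l1 l2) (hd : DV d f l1 l2 a p q r b) (he : EV e f l1 l2 a p q r b E0 E1 E2 E3 E4 E5) :
    thD dl c d (hK c 0) (cK d 0) (dK e 0) 2 1 = -2*p/f - 2*r/f := by
  simp only [thD_dl, hK, cK, dK, Fin.sum_univ_three, hc.v000, hc.v001, hc.v002, hc.v011, hc.v012, hc.v022, hc.v111, hc.v112, hc.v122, hc.v222, hc.v010, hc.v020, hc.v021, hc.v101, hc.v102, hc.v121, hc.v202, hc.v212, hc.v100, hc.v110, hc.v120, hc.v200, hc.v201, hc.v211, hc.v220, hc.v221, hc.v210, hd.v0000, hd.v0001, hd.v0002, hd.v0011, hd.v0012, hd.v0022, hd.v0111, hd.v0112, hd.v0122, hd.v0222, hd.v1111, hd.v1112, hd.v1122, hd.v1222, hd.v2222, hd.v0010, hd.v0020, hd.v0021, hd.v0101, hd.v0102, hd.v0121, hd.v0202, hd.v0212, hd.v1011, hd.v1012, hd.v1022, hd.v1121, hd.v1212, hd.v2022, hd.v2122, hd.v0100, hd.v0110, hd.v0120, hd.v0200, hd.v0201, hd.v0211, hd.v0220, hd.v0221, hd.v1001,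 hd.v1002, hd.v1021, hd.v1101, hd.v1102, hd.v1202, hd.v1211, hd.v1221, hd.v2002, hd.v2012, hd.v2112, hd.v2202, hd.v2212, hd.v0210, hd.v1000, hd.v1010, hd.v1020, hd.v1110, hd.v1120, hd.v1201, hd.v1220, hd.v2000, hd.v2001, hd.v2011, hd.v2020, hd.v2021, hd.v2102, hd.v2111, hd.v2121, hd.v2220, hd.v2221, hd.v1100, hd.v1200, hd.v1210, hd.v2010, hd.v2101, hd.v2120, hd.v2200, hd.v2201, hd.v2211, hd.v2100, hd.v2110, hd.v2210, he.v00210, he.v11210, he.v22210]; ring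

theorem thD022 (hc : CV c l1 l2) (hd : DV d f l1 l2 a p q r b) (he : EV e f l1 l2 a p q r b E0 E1 E2 E3 E4 E5) :
    thD dl c d (hK c 0) (cK d 0) (dK e 0) 2 2 = 2*l1/f^2 := by
  simp only [thD_dl, hK, cK, dK, Fin.sum_univ_three, hc.v000, hc.v001, hc.v002, hc.v011, hc.v012, hc.v022, hc.v111, hc.v112, hc.v122, hc.v222, hc.v010, hc.v020, hc.v021, hc.v101, hc.v102, hc.v121, hc.v202, hc.v212, hc.v100, hc.v110, hc.v120, hc.v200, hc.v201, hc.v211, hc.v220, hc.v221, hc.v210, hd.v0000, hd.v0001, hd.v0002, hd.v0011, hd.v0012, hd.v0022, hd.v0111, hd.v0112, hd.v0122, hd.v0222, hd.v1111, hd.v1112, hd.v1122, hd.v1222, hd.v2222, hd.v0010, hd.v0020, hd.v0021, hd.v0101, hd.v0102, hd.v0121, hd.v0202, hd.v0212, hd.v1011, hd.v1012, hd.v1022, hd.v1121, hd.v1212, hd.v2022, hd.v2122, hd.v0100, hd.v0110, hd.v0120, hd.v0200, hd.v0201, hd.v0211, hd.v0220, hd.v0221, hd.v1001, hd.v1002,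 hd.v1021, hd.v1101, hd.v1102, hd.v1202, hd.v1211, hd.v1221, hd.v2002, hd.v2012, hd.v2112, hd.v2202, hd.v2212, hd.v0210, hd.v1000, hd.v1010, hd.v1020, hd.v1110, hd.v1120, hd.v1201, hd.v1220, hd.v2000, hd.v2001, hd.v2011, hd.v2020, hd.v2021, hd.v2102, hd.v2111, hd.v2121, hd.v2220, hd.v2221, hd.v1100, hd.v1200, hd.v1210, hd.v2010, hd.v2101, hd.v2120, hd.v2200, hd.v2201, hd.v2211, hd.v2100, hd.v2110, hd.v2210, he.v00220, he.v11220, he.v22220]; ring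

theorem hthD000 (hc : CV c l1 l2) (hd : DV d f l1 l2 a p q r b) (he : EV e f l1 l2 a p q r b E0 E1 E2 E3 E4 E5) :
    hthD dl c d (hK c 0) (cK d 0) (dK e 0) 0 0 = E0 + E2 - 5*a*l1 + 2*l1/f^2 - 2*l1*q + 4*l1^3 := by
  simp only [hthD_dl, Fin.sum_univ_three, thD000 c d e f l1 l2 a p q r b E0 E1 E2 E3 E4 E5 hc hd he, thD001 c d e f l1 l2 a p q r b E0 E1 E2 E3 E4 E5 hc hd he, thD002 c d e f l1 l2 a p q r b E0 E1 E2 E3 E4 E5 hc hd he, thD010 c d e f l1 l2 a p q r b E0 E1 E2 E3 E4 E5 hc hd he, thD011 c d e f l1 l2 a p q r b E0 E1 E2 E3 E4 E5 hc hd he, thD012 c d e f l1 l2 a p q r b E0 E1 E2 E3 E4 E5 hc hd he, thD020 c d e f l1 l2 a p q r b E0 E1 E2 E3 E4 E5 hc hd he, thD021 c d e f l1 l2 a p q r b E0 E1 E2 E3 E4 E5 hc hd he, thD022 c d e f l1 l2 a p q r b E0 E1 E2 E3 E4 E5 hc hd he, th00 c d f l1 l2 a p q r b hc hd, th01 c d f l1 l2 a p q r b hc hd, th02 c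 d f l1 l2 a p q r b hc hd, th10 c d f l1 l2 a p q r b hc hd, th11 c d f l1 l2 a p q r b hc hd, th12 c d f l1 l2 a p q r b hc hd, th20 c d f l1 l2 a p q r b hc hd, th21 c d f l1 l2 a p q r b hc hd, th22 c d f l1 l2 a p q r b hc hd, hK, hc.v000, hc.v001, hc.v002, hc.v011, hc.v012, hc.v022, hc.v111, hc.v112, hc.v122, hc.v222, hc.v010, hc.v020, hc.v021, hc.v101, hc.v102, hc.v121, hc.v202, hc.v212, hc.v100, hc.v110, hc.v120, hc.v200, hc.v201, hc.v211, hc.v220, hc.v221, hc.v210]; ring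

theorem hthD001 (hc : CV c l1 l2) (hd : DV d f l1 l2 a p q r b) (he : EV e f l1 l2 a p q r b E0 E1 E2 E3 E4 E5) :
    hthD dl c d (hK c 0) (cK d 0) (dK e 0) 0 1 = E1 + E3 - 3*l1*p - l1*r - l2*q := by
  simp only [hthD_dl, Fin.sum_univ_three, thD000 c d e f l1 l2 a p q r b E0 E1 E2 E3 E4 E5 hc hd he, thD001 c d e f l1 l2 a p q r b E0 E1 E2 E3 E4 E5 hc hd he, thD002 c d e f l1 l2 a p q r b E0 E1 E2 E3 E4 E5 hc hd he, thD010 c d e f l1 l2 a p q r b E0 E1 E2 E3 E4 E5 hc hd he, thD011 c d e f l1 l2 a p q r b E0 E1 E2 E3 E4 E5 hc hd he, thD012 c d e f l1 l2 a p q r b E0 E1 E2 E3 E4 E5 hc hd he, thD020 c d e f l1 l2 a p q r b E0 E1 E2 E3 E4 E5 hc hd he, thD021 c d e f l1 l2 a p q r b E0 E1 E2 E3 E4 E5 hc hd he, thD022 c d e f l1 l2 a p q r b E0 E1 E2 E3 E4 E5 hc hd he, th00 c d f l1 l2 a p q r b hc hd, th01 c d f l1 l2 a p q r b hc hd, th02 c d f l1 l2 a p q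 r b hc hd, th10 c d f l1 l2 a p q r b hc hd, th11 c d f l1 l2 a p q r b hc hd, th12 c d f l1 l2 a p q r b hc hd, th20 c d f l1 l2 a p q r b hc hd, th21 c d f l1 l2 a p q r b hc hd, th22 c d f l1 l2 a p q r b hc hd, hK, hc.v000, hc.v001, hc.v002, hc.v011, hc.v012, hc.v022, hc.v111, hc.v112, hc.v122, hc.v222, hc.v010, hc.v020, hc.v021, hc.v101, hc.v102, hc.v121, hc.v202, hc.v212, hc.v100, hc.v110, hc.v120, hc.v200, hc.v201, hc.v211, hc.v220, hc.v221, hc.v210]; ring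

theorem hthD002 (hc : CV c l1 l2) (hd : DV d f l1 l2 a p q r b) (he : EV e f l1 l2 a p q r b E0 E1 E2 E3 E4 E5) :
    hthD dl c d (hK c 0) (cK d 0) (dK e 0) 0 2 = -2*a/f + 3*l1^2/f - 2*q/f := by
  simp only [hthD_dl, Fin.sum_univ_three, thD000 c d e f l1 l2 a p q r b E0 E1 E2 E3 E4 E5 hc hd he, thD001 c d e f l1 l2 a p q r b E0 E1 E2 E3 E4 E5 hc hd he, thD002 c d e f l1 l2 a p q r b E0 E1 E2 E3 E4 E5 hc hd he, thD010 c d e f l1 l2 a p q r b E0 E1 E2 E3 E4 E5 hc hd he, thD011 c d e f l1 l2 a p q r b E0 E1 E2 E3 E4 E5 hc hd he, thD012 c d e f l1 l2 a p q r b E0 E1 E2 E3 E4 E5 hc hd he, thD020 c d e f l1 l2 a p q r b E0 E1 E2 E3 E4 E5 hc hd he, thD021 c d e f l1 l2 a p q r b E0 E1 E2 E3 E4 E5 hc hd he, thD022 c d e f l1 l2 a p q r b E0 E1 E2 E3 E4 E5 hc hd he, th00 c d f l1 l2 a p q r b hc hd, th01 c d f l1 l2 a p q r b hc hd, th02 c d f l1 l2 a p q r b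 hc hd, th10 c d f l1 l2 a p q r b hc hd, th11 c d f l1 l2 a p q r b hc hd, th12 c d f l1 l2 a p q r b hc hd, th20 c d f l1 l2 a p q r b hc hd, th21 c d f l1 l2 a p q r b hc hd, th22 c d f l1 l2 a p q r b hc hd, hK, hc.v000, hc.v001, hc.v002, hc.v011, hc.v012, hc.v022, hc.v111, hc.v112, hc.v122, hc.v222, hc.v010, hc.v020, hc.v021, hc.v101, hc.v102, hc.v121, hc.v202, hc.v212, hc.v100, hc.v110, hc.v120, hc.v200, hc.v201, hc.v211, hc.v220, hc.v221, hc.v210]; ring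

theorem hthD010 (hc : CV c l1 l2) (hd : DV d f l1 l2 a p q r b) (he : EV e f l1 l2 a p q r b E0 E1 E2 E3 E4 E5) :
    hthD dl c d (hK c 0) (cK d 0) (dK e 0) 1 0 = E1 + E3 - 3*l1*p - l1*r - l2*q := by
  simp only [hthD_dl, Fin.sum_univ_three, thD000 c d e f l1 l2 a p q r b E0 E1 E2 E3 E4 E5 hc hd he, thD001 c d e f l1 l2 a p q r b E0 E1 E2 E3 E4 E5 hc hd he, thD002 c d e f l1 l2 a p q r b E0 E1 E2 E3 E4 E5 hc hd he, thD010 c d e f l1 l2 a p q r b E0 E1 E2 E3 E4 E5 hc hd he, thD011 c d e f l1 l2 a p q r b E0 E1 E2 E3 E4 E5 hc hd he, thD012 c d e f l1 l2 a p q r b E0 E1 E2 E3 E4 E5 hc hd he, thD020 c d e f l1 l2 a p q r b E0 E1 E2 E3 E4 E5 hc hd he, thD021 c d e f l1 l2 a p q r b E0 E1 E2 E3 E4 E5 hc hd he, thD022 c d e f l1 l2 a p q r b E0 E1 E2 E3 E4 E5 hc hd he, th00 c d f l1 l2 a p q r b hc hd, th01 c d f l1 l2 a p q r b hc hd, th02 c d f l1 l2 a p q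 r b hc hd, th10 c d f l1 l2 a p q r b hc hd, th11 c d f l1 l2 a p q r b hc hd, th12 c d f l1 l2 a p q r b hc hd, th20 c d f l1 l2 a p q r b hc hd, th21 c d f l1 l2 a p q r b hc hd, th22 c d f l1 l2 a p q r b hc hd, hK, hc.v000, hc.v001, hc.v002, hc.v011, hc.v012, hc.v022, hc.v111, hc.v112, hc.v122, hc.v222, hc.v010, hc.v020, hc.v021, hc.v101, hc.v102, hc.v121, hc.v202, hc.v212, hc.v100, hc.v110, hc.v120, hc.v200, hc.v201, hc.v211, hc.v220, hc.v221, hc.v210]; ring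

theorem hthD011 (hc : CV c l1 l2) (hd : DV d f l1 l2 a p q r b) (he : EV e f l1 l2 a p q r b E0 E1 E2 E3 E4 E5) :
    hthD dl c d (hK c 0) (cK d 0) (dK e 0) 1 1 = E2 + E4 - l1*q - 2*l2*r := by
  simp only [hthD_dl, Fin.sum_univ_three, thD000 c d e f l1 l2 a p q r b E0 E1 E2 E3 E4 E5 hc hd he, thD001 c d e f l1 l2 a p q r b E0 E1 E2 E3 E4 E5 hc hd he, thD002 c d e f l1 l2 a p q r b E0 E1 E2 E3 E4 E5 hc hd he, thD010 c d e f l1 l2 a p q r b E0 E1 E2 E3 E4 E5 hc hd he, thD011 c d e f l1 l2 a p q r b E0 E1 E2 E3 E4 E5 hc hd he, thD012 c d e f l1 l2 a p q r b E0 E1 E2 E3 E4 E5 hc hd he, thD020 c d e f l1 l2 a p q r b E0 E1 E2 E3 E4 E5 hc hd he, thD021 c d e f l1 l2 a p q r b E0 E1 E2 E3 E4 E5 hc hd he, thD022 c d e f l1 l2 a p q r b E0 E1 E2 E3 E4 E5 hc hd he, th00 c d f l1 l2 a p q r b hc hd, th01 c d f l1 l2 a p q r b hc hd, th02 c d f l1 l2 a p q r b hc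 hd, th10 c d f l1 l2 a p q r b hc hd, th11 c d f l1 l2 a p q r b hc hd, th12 c d f l1 l2 a p q r b hc hd, th20 c d f l1 l2 a p q r b hc hd, th21 c d f l1 l2 a p q r b hc hd, th22 c d f l1 l2 a p q r b hc hd, hK, hc.v000, hc.v001, hc.v002, hc.v011, hc.v012, hc.v022, hc.v111, hc.v112, hc.v122, hc.v222, hc.v010, hc.v020, hc.v021, hc.v101, hc.v102, hc.v121, hc.v202, hc.v212, hc.v100, hc.v110, hc.v120, hc.v200, hc.v201, hc.v211, hc.v220, hc.v221, hc.v210]; ring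

theorem hthD012 (hc : CV c l1 l2) (hd : DV d f l1 l2 a p q r b) (he : EV e f l1 l2 a p q r b E0 E1 E2 E3 E4 E5) :
    hthD dl c d (hK c 0) (cK d 0) (dK e 0) 1 2 = -2*p/f - 2*r/f := by
  simp only [hthD_dl, Fin.sum_univ_three, thD000 c d e f l1 l2 a p q r b E0 E1 E2 E3 E4 E5 hc hd he, thD001 c d e f l1 l2 a p q r b E0 E1 E2 E3 E4 E5 hc hd he, thD002 c d e f l1 l2 a p q r b E0 E1 E2 E3 E4 E5 hc hd he, thD010 c d e f l1 l2 a p q r b E0 E1 E2 E3 E4 E5 hc hd he, thD011 c d e f l1 l2 a p q r b E0 E1 E2 E3 E4 E5 hc hd he, thD012 c d e f l1 l2 a p q r b E0 E1 E2 E3 E4 E5 hc hd he, thD020 c d e f l1 l2 a p q r b E0 E1 E2 E3 E4 E5 hc hd he, thD021 c d e f l1 l2 a p q r b E0 E1 E2 E3 E4 E5 hc hd he, thD022 c d e f l1 l2 a p q r b E0 E1 E2 E3 E4 E5 hc hd he, th00 c d f l1 l2 a p q r b hc hd, th01 c d f l1 l2 a p q r b hc hd, th02 c d f l1 l2 a p q r b hc hd, th10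 c d f l1 l2 a p q r b hc hd, th11 c d f l1 l2 a p q r b hc hd, th12 c d f l1 l2 a p q r b hc hd, th20 c d f l1 l2 a p q r b hc hd, th21 c d f l1 l2 a p q r b hc hd, th22 c d f l1 l2 a p q r b hc hd, hK, hc.v000, hc.v001, hc.v002, hc.v011, hc.v012, hc.v022, hc.v111, hc.v112, hc.v122, hc.v222, hc.v010, hc.v020, hc.v021, hc.v101, hc.v102, hc.v121, hc.v202, hc.v212, hc.v100, hc.v110, hc.v120, hc.v200, hc.v201, hc.v211, hc.v220, hc.v221, hc.v210]; ring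

theorem hthD020 (hc : CV c l1 l2) (hd : DV d f l1 l2 a p q r b) (he : EV e f l1 l2 a p q r b E0 E1 E2 E3 E4 E5) :
    hthD dl c d (hK c 0) (cK d 0) (dK e 0) 2 0 = -2*a/f + 3*l1^2/f - 2*q/f := by
  simp only [hthD_dl, Fin.sum_univ_three, thD000 c d e f l1 l2 a p q r b E0 E1 E2 E3 E4 E5 hc hd he, thD001 c d e f l1 l2 a p q r b E0 E1 E2 E3 E4 E5 hc hd he, thD002 c d e f l1 l2 a p q r b E0 E1 E2 E3 E4 E5 hc hd he, thD010 c d e f l1 l2 a p q r b E0 E1 E2 E3 E4 E5 hc hd he, thD011 c d e f l1 l2 a p q r b E0 E1 E2 E3 E4 E5 hc hd he, thD012 c d e f l1 l2 a p q r b E0 E1 E2 E3 E4 E5 hc hd he, thD020 c d e f l1 l2 a p q r b E0 E1 E2 E3 E4 E5 hc hd he, thD021 c d e f l1 l2 a p q r b E0 E1 E2 E3 E4 E5 hc hd he, thD022 c d e f l1 l2 a p q r b E0 E1 E2 E3 E4 E5 hc hd he, th00 c d f l1 l2 a p q r b hc hd, th01 c d f l1 l2 a p q r b hc hd, th02 c d f l1 l2 a p q r b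 hc hd, th10 c d f l1 l2 a p q r b hc hd, th11 c d f l1 l2 a p q r b hc hd, th12 c d f l1 l2 a p q r b hc hd, th20 c d f l1 l2 a p q r b hc hd, th21 c d f l1 l2 a p q r b hc hd, th22 c d f l1 l2 a p q r b hc hd, hK, hc.v000, hc.v001, hc.v002, hc.v011, hc.v012, hc.v022, hc.v111, hc.v112, hc.v122, hc.v222, hc.v010, hc.v020, hc.v021, hc.v101, hc.v102, hc.v121, hc.v202, hc.v212, hc.v100, hc.v110, hc.v120, hc.v200, hc.v201, hc.v211, hc.v220, hc.v221, hc.v210]; ring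

theorem hthD021 (hc : CV c l1 l2) (hd : DV d f l1 l2 a p q r b) (he : EV e f l1 l2 a p q r b E0 E1 E2 E3 E4 E5) :
    hthD dl c d (hK c 0) (cK d 0) (dK e 0) 2 1 = -2*p/f - 2*r/f := by
  simp only [hthD_dl, Fin.sum_univ_three, thD000 c d e f l1 l2 a p q r b E0 E1 E2 E3 E4 E5 hc hd he, thD001 c d e f l1 l2 a p q r b E0 E1 E2 E3 E4 E5 hc hd he, thD002 c d e f l1 l2 a p q r b E0 E1 E2 E3 E4 E5 hc hd he, thD010 c d e f l1 l2 a p q r b E0 E1 E2 E3 E4 E5 hc hd he, thD011 c d e f l1 l2 a p q r b E0 E1 E2 E3 E4 E5 hc hd he, thD012 c d e f l1 l2 a p q r b E0 E1 E2 E3 E4 E5 hc hd he, thD020 c d e f l1 l2 a p q r b E0 E1 E2 E3 E4 E5 hc hd he, thD021 c d e f l1 l2 a p q r b E0 E1 E2 E3 E4 E5 hc hd he, thD022 c d e f l1 l2 a p q r b E0 E1 E2 E3 E4 E5 hc hd he, th00 c d f l1 l2 a p q r b hc hd, th01 c d f l1 l2 a p q r b hc hd, th02 c d f l1 l2 a p q r b hc hd, th10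 c d f l1 l2 a p q r b hc hd, th11 c d f l1 l2 a p q r b hc hd, th12 c d f l1 l2 a p q r b hc hd, th20 c d f l1 l2 a p q r b hc hd, th21 c d f l1 l2 a p q r b hc hd, th22 c d f l1 l2 a p q r b hc hd, hK, hc.v000, hc.v001, hc.v002, hc.v011, hc.v012, hc.v022, hc.v111, hc.v112, hc.v122, hc.v222, hc.v010, hc.v020, hc.v021, hc.v101, hc.v102, hc.v121, hc.v202, hc.v212, hc.v100, hc.v110, hc.v120, hc.v200, hc.v201, hc.v211, hc.v220, hc.v221, hc.v210]; ring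

theorem hthD022 (hc : CV c l1 l2) (hd : DV d f l1 l2 a p q r b) (he : EV e f l1 l2 a p q r b E0 E1 E2 E3 E4 E5) :
    hthD dl c d (hK c 0) (cK d 0) (dK e 0) 2 2 = 2*l1/f^2 := by
  simp only [hthD_dl, Fin.sum_univ_three, thD000 c d e f l1 l2 a p q r b E0 E1 E2 E3 E4 E5 hc hd he, thD001 c d e f l1 l2 a p q r b E0 E1 E2 E3 E4 E5 hc hd he, thD002 c d e f l1 l2 a p q r b E0 E1 E2 E3 E4 E5 hc hd he, thD010 c d e f l1 l2 a p q r b E0 E1 E2 E3 E4 E5 hc hd he, thD011 c d e f l1 l2 a p q r b E0 E1 E2 E3 E4 E5 hc hd he, thD012 c d e f l1 l2 a p q r b E0 E1 E2 E3 E4 E5 hc hd he, thD020 c d e f l1 l2 a p q r b E0 E1 E2 E3 E4 E5 hc hd he, thD021 c d e f l1 l2 a p q r b E0 E1 E2 E3 E4 E5 hc hd he, thD022 c d e f l1 l2 a p q r b E0 E1 E2 E3 E4 E5 hc hd he, th00 c d f l1 l2 a p q r b hc hd, th01 c d f l1 l2 a p q r b hc hd, th02 c d f l1 l2 a p q r b hc hd, th10 c d f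 l1 l2 a p q r b hc hd, th11 c d f l1 l2 a p q r b hc hd, th12 c d f l1 l2 a p q r b hc hd, th20 c d f l1 l2 a p q r b hc hd, th21 c d f l1 l2 a p q r b hc hd, th22 c d f l1 l2 a p q r b hc hd, hK, hc.v000, hc.v001, hc.v002, hc.v011, hc.v012, hc.v022, hc.v111, hc.v112, hc.v122, hc.v222, hc.v010, hc.v020, hc.v021, hc.v101, hc.v102, hc.v121, hc.v202, hc.v212, hc.v100, hc.v110, hc.v120, hc.v200, hc.v201, hc.v211, hc.v220, hc.v221, hc.v210]; ring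

theorem uD00 (hc : CV c l1 l2) (hd : DV d f l1 l2 a p q r b) (he : EV e f l1 l2 a p q r b E0 E1 E2 E3 E4 E5) :
    uD dl c d (hK c 0) (cK d 0) (dK e 0) 0 = E1*l2 + E3*l2 + a*q - b*q - l1^2/f^2 - 2*l1*l2*p - l1^2*q - p^2 + r^2 := by
  simp only [uD_dl, Fin.sum_univ_three, thD000 c d e f l1 l2 a p q r b E0 E1 E2 E3 E4 E5 hc hd he, thD001 c d e f l1 l2 a p q r b E0 E1 E2 E3 E4 E5 hc hd he, thD002 c d e f l1 l2 a p q r b E0 E1 E2 E3 E4 E5 hc hd he, thD010 c d e f l1 l2 a p q r b E0 E1 E2 E3 E4 E5 hc hd he, thD011 c d e f l1 l2 a p q r b E0 E1 E2 E3 E4 E5 hc hd he, thD012 c d e f l1 l2 a p q r b E0 E1 E2 E3 E4 E5 hc hd he, thD020 c d e f l1 l2 a p q r b E0 E1 E2 E3 E4 E5 hc hd he, thD021 c d e f l1 l2 a p q r b E0 E1 E2 E3 E4 E5 hc hd he, thD022 c d e f l1 l2 a p q r b E0 E1 E2 E3 E4 E5 hc hd he, hthD000 c d e f l1 l2 a p q r b E0 E1 E2 E3 E4 E5 hc hd he,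 hthD001 c d e f l1 l2 a p q r b E0 E1 E2 E3 E4 E5 hc hd he, hthD002 c d e f l1 l2 a p q r b E0 E1 E2 E3 E4 E5 hc hd he, hthD010 c d e f l1 l2 a p q r b E0 E1 E2 E3 E4 E5 hc hd he, hthD011 c d e f l1 l2 a p q r b E0 E1 E2 E3 E4 E5 hc hd he, hthD012 c d e f l1 l2 a p q r b E0 E1 E2 E3 E4 E5 hc hd he, hthD020 c d e f l1 l2 a p q r b E0 E1 E2 E3 E4 E5 hc hd he, hthD021 c d e f l1 l2 a p q r b E0 E1 E2 E3 E4 E5 hc hd he, hthD022 c d e f l1 l2 a p q r b E0 E1 E2 E3 E4 E5 hc hd he, th00 c d f l1 l2 a p q r b hc hd, th01 c d f l1 l2 a p q r b hc hd, th02 c d f l1 l2 a p q r b hc hd, th10 c d f l1 l2 a p q r b hc hd, th11 c d f l1 l2 a p q r b hc hd, th12 c d f l1 l2 a p q r b hc hd, th20 c d f l1 l2 a p q r b hc hd, th21 c d f l1 l2 a p q r b hc hd, th22 c d f l1 l2 a p q r b hc hd, tau0 c l1 l2 hc, tau1 c l1 l2 hc, tau2 c l1 l2 hc, htD00 c d f l1 l2 a p q r b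 hc hd, htD01 c d f l1 l2 a p q r b hc hd, htD02 c d f l1 l2 a p q r b hc hd, cK, hc.v000, hc.v001, hc.v002, hc.v011, hc.v012, hc.v022, hc.v111, hc.v112, hc.v122, hc.v222, hc.v010, hc.v020, hc.v021, hc.v101, hc.v102, hc.v121, hc.v202, hc.v212, hc.v100, hc.v110, hc.v120, hc.v200, hc.v201, hc.v211, hc.v220, hc.v221, hc.v210, hd.v0000, hd.v0001, hd.v0002, hd.v0011, hd.v0012, hd.v0022, hd.v0111, hd.v0112, hd.v0122, hd.v0222, hd.v1111, hd.v1112, hd.v1122, hd.v1222, hd.v2222, hd.v0010, hd.v0020, hd.v0021, hd.v0101, hd.v0102, hd.v0121, hd.v0202, hd.v0212, hd.v1011, hd.v1012, hd.v1022, hd.v1121, hd.v1212, hd.v2022, hd.v2122, hd.v0100, hd.v0110, hd.v0120, hd.v0200, hd.v0201, hd.v0211, hd.v0220, hd.v0221, hd.v1001, hd.v1002, hd.v1021, hd.v1101, hd.v1102, hd.v1202, hd.v1211, hd.v1221, hd.v2002, hd.v2012, hd.v2112, hd.v2202, hd.v2212, hd.v0210, hd.v1000, hd.v1010,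 hd.v1020, hd.v1110, hd.v1120, hd.v1201, hd.v1220, hd.v2000, hd.v2001, hd.v2011, hd.v2020, hd.v2021, hd.v2102, hd.v2111, hd.v2121, hd.v2220, hd.v2221, hd.v1100, hd.v1200, hd.v1210, hd.v2010, hd.v2101, hd.v2120, hd.v2200, hd.v2201, hd.v2211, hd.v2100, hd.v2110, hd.v2210]; ring

theorem uD01 (hc : CV c l1 l2) (hd : DV d f l1 l2 a p q r b) (he : EV e f l1 l2 a p q r b E0 E1 E2 E3 E4 E5) :
    uD dl c d (hK c 0) (cK d 0) (dK e 0) 1 = E1*l1 + E3*l1 + a*r + b*p + l1*l2/f^2 - l1*l2*q - 3*l1^2*p - 2*l1^2*r - l2^2*p - p*q - q*r := by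
  simp only [uD_dl, Fin.sum_univ_three, thD000 c d e f l1 l2 a p q r b E0 E1 E2 E3 E4 E5 hc hd he, thD001 c d e f l1 l2 a p q r b E0 E1 E2 E3 E4 E5 hc hd he, thD002 c d e f l1 l2 a p q r b E0 E1 E2 E3 E4 E5 hc hd he, thD010 c d e f l1 l2 a p q r b E0 E1 E2 E3 E4 E5 hc hd he, thD011 c d e f l1 l2 a p q r b E0 E1 E2 E3 E4 E5 hc hd he, thD012 c d e f l1 l2 a p q r b E0 E1 E2 E3 E4 E5 hc hd he, thD020 c d e f l1 l2 a p q r b E0 E1 E2 E3 E4 E5 hc hd he, thD021 c d e f l1 l2 a p q r b E0 E1 E2 E3 E4 E5 hc hd he, thD022 c d e f l1 l2 a p q r b E0 E1 E2 E3 E4 E5 hc hd he, hthD000 c d e f l1 l2 a p q r b E0 E1 E2 E3 E4 E5 hc hd he, hthD001 c d e f l1 l2 a p q r b E0 E1 E2 E3 E4 E5 hc hd he, hthD002 c d e f l1 l2 a p q r b E0 E1 E2 E3 E4 E5 hc hd he, hthD010 c d e f l1 l2 a p q r b E0 E1 E2 E3 E4 E5 hc hd he, hthD011 c d e f l1 l2 a p q r b E0 E1 E2 E3 E4 E5 hc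 hd he, hthD012 c d e f l1 l2 a p q r b E0 E1 E2 E3 E4 E5 hc hd he, hthD020 c d e f l1 l2 a p q r b E0 E1 E2 E3 E4 E5 hc hd he, hthD021 c d e f l1 l2 a p q r b E0 E1 E2 E3 E4 E5 hc hd he, hthD022 c d e f l1 l2 a p q r b E0 E1 E2 E3 E4 E5 hc hd he, th00 c d f l1 l2 a p q r b hc hd, th01 c d f l1 l2 a p q r b hc hd, th02 c d f l1 l2 a p q r b hc hd, th10 c d f l1 l2 a p q r b hc hd, th11 c d f l1 l2 a p q r b hc hd, th12 c d f l1 l2 a p q r b hc hd, th20 c d f l1 l2 a p q r b hc hd, th21 c d f l1 l2 a p q r b hc hd, th22 c d f l1 l2 a p q r b hc hd, tau0 c l1 l2 hc, tau1 c l1 l2 hc, tau2 c l1 l2 hc, htD00 c d f l1 l2 a p q r b hc hd, htD01 c d f l1 l2 a p q r b hc hd, htD02 c d f l1 l2 a p q r b hc hd, cK, hc.v000, hc.v001, hc.v002, hc.v011, hc.v012, hc.v022, hc.v111, hc.v112, hc.v122, hc.v222, hc.v010, hc.v020, hc.v021, hc.v101, hc.v102, hc.v121, hc.v202,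 hc.v212, hc.v100, hc.v110, hc.v120, hc.v200, hc.v201, hc.v211, hc.v220, hc.v221, hc.v210, hd.v0000, hd.v0001, hd.v0002, hd.v0011, hd.v0012, hd.v0022, hd.v0111, hd.v0112, hd.v0122, hd.v0222, hd.v1111, hd.v1112, hd.v1122, hd.v1222, hd.v2222, hd.v0010, hd.v0020, hd.v0021, hd.v0101, hd.v0102, hd.v0121, hd.v0202, hd.v0212, hd.v1011, hd.v1012, hd.v1022, hd.v1121, hd.v1212, hd.v2022, hd.v2122, hd.v0100, hd.v0110, hd.v0120, hd.v0200, hd.v0201, hd.v0211, hd.v0220, hd.v0221, hd.v1001, hd.v1002, hd.v1021, hd.v1101, hd.v1102, hd.v1202, hd.v1211, hd.v1221, hd.v2002, hd.v2012, hd.v2112, hd.v2202, hd.v2212, hd.v0210, hd.v1000, hd.v1010, hd.v1020, hd.v1110, hd.v1120, hd.v1201, hd.v1220, hd.v2000, hd.v2001, hd.v2011, hd.v2020, hd.v2021, hd.v2102, hd.v2111, hd.v2121, hd.v2220, hd.v2221, hd.v1100, hd.v1200, hd.v1210, hd.v2010, hd.v2101, hd.v2120, hd.v2200, hd.v2201, hd.v2211,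 hd.v2100, hd.v2110, hd.v2210]; ring

theorem uD02 (hc : CV c l1 l2) (hd : DV d f l1 l2 a p q r b) (he : EV e f l1 l2 a p q r b E0 E1 E2 E3 E4 E5) :
    uD dl c d (hK c 0) (cK d 0) (dK e 0) 2 = -2*a*l1/f - 2*l1*q/f + 3*l1^3/f - 3*l2*p/f - 3*l2*r/f := by
  simp only [uD_dl, Fin.sum_univ_three, thD000 c d e f l1 l2 a p q r b E0 E1 E2 E3 E4 E5 hc hd he, thD001 c d e f l1 l2 a p q r b E0 E1 E2 E3 E4 E5 hc hd he, thD002 c d e f l1 l2 a p q r b E0 E1 E2 E3 E4 E5 hc hd he, thD010 c d e f l1 l2 a p q r b E0 E1 E2 E3 E4 E5 hc hd he, thD011 c d e f l1 l2 a p q r b E0 E1 E2 E3 E4 E5 hc hd he, thD012 c d e f l1 l2 a p q r b E0 E1 E2 E3 E4 E5 hc hd he, thD020 c d e f l1 l2 a p q r b E0 E1 E2 E3 E4 E5 hc hd he, thD021 c d e f l1 l2 a p q r b E0 E1 E2 E3 E4 E5 hc hd he, thD022 c d e f l1 l2 a p q r b E0 E1 E2 E3 E4 E5 hc hd he, hthD000 c d e f l1 l2 a p q r b E0 E1 E2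 E3 E4 E5 hc hd he, hthD001 c d e f l1 l2 a p q r b E0 E1 E2 E3 E4 E5 hc hd he, hthD002 c d e f l1 l2 a p q r b E0 E1 E2 E3 E4 E5 hc hd he, hthD010 c d e f l1 l2 a p q r b E0 E1 E2 E3 E4 E5 hc hd he, hthD011 c d e f l1 l2 a p q r b E0 E1 E2 E3 E4 E5 hc hd he, hthD012 c d e f l1 l2 a p q r b E0 E1 E2 E3 E4 E5 hc hd he, hthD020 c d e f l1 l2 a p q r b E0 E1 E2 E3 E4 E5 hc hd he, hthD021 c d e f l1 l2 a p q r b E0 E1 E2 E3 E4 E5 hc hd he, hthD022 c d e f l1 l2 a p q r b E0 E1 E2 E3 E4 E5 hc hd he, th00 c d f l1 l2 a p q r b hc hd, th01 c d f l1 l2 a p q r b hc hd, th02 c d f l1 l2 a p q r b hc hd, th10 c d f l1 l2 a p q r b hc hd, th11 c d f l1 l2 a p q r b hc hd, th12 c d f l1 l2 a p q r b hc hd, th20 c d f l1 l2 a p q r b hc hd, th21 c d f l1 l2 a p q r b hc hd, th22 c d f l1 l2 a p q r b hc hd, tau0 c l1 l2 hc, tau1 c l1 l2 hc, tau2 c l1 l2 hc, htD00 c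 d f l1 l2 a p q r b hc hd, htD01 c d f l1 l2 a p q r b hc hd, htD02 c d f l1 l2 a p q r b hc hd, cK, hc.v000, hc.v001, hc.v002, hc.v011, hc.v012, hc.v022, hc.v111, hc.v112, hc.v122, hc.v222, hc.v010, hc.v020, hc.v021, hc.v101, hc.v102, hc.v121, hc.v202, hc.v212, hc.v100, hc.v110, hc.v120, hc.v200, hc.v201, hc.v211, hc.v220, hc.v221, hc.v210, hd.v0000, hd.v0001, hd.v0002, hd.v0011, hd.v0012, hd.v0022, hd.v0111, hd.v0112, hd.v0122, hd.v0222, hd.v1111, hd.v1112, hd.v1122, hd.v1222, hd.v2222, hd.v0010, hd.v0020, hd.v0021, hd.v0101, hd.v0102, hd.v0121, hd.v0202, hd.v0212, hd.v1011, hd.v1012, hd.v1022, hd.v1121, hd.v1212, hd.v2022, hd.v2122, hd.v0100, hd.v0110, hd.v0120, hd.v0200, hd.v0201, hd.v0211, hd.v0220, hd.v0221, hd.v1001, hd.v1002, hd.v1021, hd.v1101, hd.v1102, hd.v1202, hd.v1211, hd.v1221, hd.v2002, hd.v2012, hd.v2112, hd.v2202, hd.v2212, hd.v0210,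 hd.v1000, hd.v1010, hd.v1020, hd.v1110, hd.v1120, hd.v1201, hd.v1220, hd.v2000, hd.v2001, hd.v2011, hd.v2020, hd.v2021, hd.v2102, hd.v2111, hd.v2121, hd.v2220, hd.v2221, hd.v1100, hd.v1200, hd.v1210, hd.v2010, hd.v2101, hd.v2120, hd.v2200, hd.v2201, hd.v2211, hd.v2100, hd.v2110, hd.v2210]; ring

theorem vD0 (hc : CV c l1 l2) (hd : DV d f l1 l2 a p q r b) (he : EV e f l1 l2 a p q r b E0 E1 E2 E3 E4 E5) :
    vD dl c d (hK c 0) (cK d 0) (dK e 0) 0 = E1*l2 + E3*l2 + a*q - b*q - l1^2/f^2 - 3*l1*l2*p - l1*l2*r - l1^2*q - p^2 + r^2 := by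
  simp only [vD_dl, Fin.sum_univ_three, uD00 c d e f l1 l2 a p q r b E0 E1 E2 E3 E4 E5 hc hd he, uD01 c d e f l1 l2 a p q r b E0 E1 E2 E3 E4 E5 hc hd he, uD02 c d e f l1 l2 a p q r b E0 E1 E2 E3 E4 E5 hc hd he, u0 c d f l1 l2 a p q r b hc hd, u1 c d f l1 l2 a p q r b hc hd, u2 c d f l1 l2 a p q r b hc hd, hK, hc.v000, hc.v001, hc.v002, hc.v011, hc.v012, hc.v022, hc.v111, hc.v112, hc.v122, hc.v222, hc.v010, hc.v020, hc.v021, hc.v101, hc.v102, hc.v121, hc.v202, hc.v212, hc.v100, hc.v110, hc.v120, hc.v200, hc.v201, hc.v211, hc.v220, hc.v221, hc.v210]; ring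

theorem quD0 (hc : CV c l1 l2) (hd : DV d f l1 l2 a p q r b) (he : EV e f l1 l2 a p q r b E0 E1 E2 E3 E4 E5) :
    quD dl c d (hK c 0) (cK d 0) (dK e 0) = 2*E1*l1^2*p + 2*E1*l1^2*r + 2*E1*l2^2*p + 2*E1*l2^2*r + 2*E3*l1^2*p + 2*E3*l1^2*r + 2*E3*l2^2*p + 2*E3*l2^2*r + 4*a*l1*l2^2/f^2 + 4*a*l1^3/f^2 + 2*a*l1*p*r + 2*a*l1*r^2 + 2*a*l2*p*q + 2*a*l2*q*r + 2*b*l1*p*r + 2*b*l1*p^2 - 2*b*l2*p*q - 2*b*l2*q*r + 4*l1*l2^2*q/f^2 + 6*l1^2*l2*p/f^2 + 6*l1^2*l2*r/f^2 - 6*l1^3*l2^2/f^2 + 4*l1^3*q/f^2 - 6*l1^5/f^2 + 6*l2^3*p/f^2 + 6*l2^3*r/f^2 - 8*l1*l2^2*p*r - 7*l1*l2^2*p^2 - l1*l2^2*r^2 - 4*l1*p*q*r - 2*l1*p^2*q - 2*l1*q*r^2 - 4*l1^2*l2*p*q - 4*l1^2*l2*q*r - 10*l1^3*p*r - 6*l1^3*p^2 - 4*l1^3*r^2 + 2*l2*p*r^2 - 2*l2*p^2*r - 2*l2*p^3 + 2*l2*r^3 := by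
  simp only [quD_dl, Fin.sum_univ_three, uD00 c d e f l1 l2 a p q r b E0 E1 E2 E3 E4 E5 hc hd he, uD01 c d e f l1 l2 a p q r b E0 E1 E2 E3 E4 E5 hc hd he, uD02 c d e f l1 l2 a p q r b E0 E1 E2 E3 E4 E5 hc hd he, u0 c d f l1 l2 a p q r b hc hd, u1 c d f l1 l2 a p q r b hc hd, u2 c d f l1 l2 a p q r b hc hd, hK, hc.v000, hc.v001, hc.v002, hc.v011, hc.v012, hc.v022, hc.v111, hc.v112, hc.v122, hc.v222, hc.v010, hc.v020, hc.v021, hc.v101, hc.v102, hc.v121, hc.v202, hc.v212, hc.v100, hc.v110, hc.v120, hc.v200, hc.v201, hc.v211, hc.v220, hc.v221, hc.v210]; ring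

theorem tauD10 (hc : CV c l1 l2) (hd : DV d f l1 l2 a p q r b) :
    tauD dl c (hK c 1) (cK d 1) 0 = p + r := by
  simp only [tauD_dl, hK, cK, Fin.sum_univ_three, hc.v000, hc.v001, hc.v002, hc.v011, hc.v012, hc.v022, hc.v111, hc.v112, hc.v122, hc.v222, hc.v010, hc.v020, hc.v021, hc.v101, hc.v102, hc.v121, hc.v202, hc.v212, hc.v100, hc.v110, hc.v120, hc.v200, hc.v201, hc.v211, hc.v220, hc.v221, hc.v210, hd.v0000, hd.v0001, hd.v0002, hd.v0011, hd.v0012, hd.v0022, hd.v0111, hd.v0112, hd.v0122, hd.v0222, hd.v1111, hd.v1112, hd.v1122, hd.v1222, hd.v2222, hd.v0010, hd.v0020, hd.v0021, hd.v0101, hd.v0102, hd.v0121, hd.v0202, hd.v0212, hd.v1011, hd.v1012, hd.v1022, hd.v1121, hd.v1212, hd.v2022, hd.v2122, hd.v0100, hd.v0110, hd.v0120, hd.v0200, hd.v0201, hd.v0211, hd.v0220, hd.v0221, hd.v1001, hd.v1002, hd.v1021, hd.v1101, hd.v1102, hd.v1202, hd.v1211, hd.v1221,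 hd.v2002, hd.v2012, hd.v2112, hd.v2202, hd.v2212, hd.v0210, hd.v1000, hd.v1010, hd.v1020, hd.v1110, hd.v1120, hd.v1201, hd.v1220, hd.v2000, hd.v2001, hd.v2011, hd.v2020, hd.v2021, hd.v2102, hd.v2111, hd.v2121, hd.v2220, hd.v2221, hd.v1100, hd.v1200, hd.v1210, hd.v2010, hd.v2101, hd.v2120, hd.v2200, hd.v2201, hd.v2211, hd.v2100, hd.v2110, hd.v2210]; ring

theorem tauD11 (hc : CV c l1 l2) (hd : DV d f l1 l2 a p q r b) :
    tauD dl c (hK c 1) (cK d 1) 1 = b - l2^2 + q := by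
  simp only [tauD_dl, hK, cK, Fin.sum_univ_three, hc.v000, hc.v001, hc.v002, hc.v011, hc.v012, hc.v022, hc.v111, hc.v112, hc.v122, hc.v222, hc.v010, hc.v020, hc.v021, hc.v101, hc.v102, hc.v121, hc.v202, hc.v212, hc.v100, hc.v110, hc.v120, hc.v200, hc.v201, hc.v211, hc.v220, hc.v221, hc.v210, hd.v0000, hd.v0001, hd.v0002, hd.v0011, hd.v0012, hd.v0022, hd.v0111, hd.v0112, hd.v0122, hd.v0222, hd.v1111, hd.v1112, hd.v1122, hd.v1222, hd.v2222, hd.v0010, hd.v0020, hd.v0021, hd.v0101, hd.v0102, hd.v0121, hd.v0202, hd.v0212, hd.v1011, hd.v1012, hd.v1022, hd.v1121, hd.v1212, hd.v2022, hd.v2122, hd.v0100, hd.v0110, hd.v0120, hd.v0200, hd.v0201, hd.v0211, hd.v0220, hd.v0221, hd.v1001, hd.v1002, hd.v1021, hd.v1101, hd.v1102, hd.v1202, hd.v1211, hd.v1221, hd.v2002, hd.v2012, hd.v2112, hd.v2202, hd.v2212, hd.v0210, hd.v1000, hd.v1010, hd.v1020, hd.v1110, hd.v1120, hd.v1201,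 hd.v1220, hd.v2000, hd.v2001, hd.v2011, hd.v2020, hd.v2021, hd.v2102, hd.v2111, hd.v2121, hd.v2220, hd.v2221, hd.v1100, hd.v1200, hd.v1210, hd.v2010, hd.v2101, hd.v2120, hd.v2200, hd.v2201, hd.v2211, hd.v2100, hd.v2110, hd.v2210]; ring

theorem tauD12 (hc : CV c l1 l2) (hd : DV d f l1 l2 a p q r b) :
    tauD dl c (hK c 1) (cK d 1) 2 = -l2/f := by
  simp only [tauD_dl, hK, cK, Fin.sum_univ_three, hc.v000, hc.v001, hc.v002, hc.v011, hc.v012, hc.v022, hc.v111, hc.v112, hc.v122, hc.v222, hc.v010, hc.v020, hc.v021, hc.v101, hc.v102, hc.v121, hc.v202, hc.v212, hc.v100, hc.v110, hc.v120, hc.v200, hc.v201, hc.v211, hc.v220, hc.v221, hc.v210, hd.v0000, hd.v0001, hd.v0002, hd.v0011, hd.v0012, hd.v0022, hd.v0111, hd.v0112, hd.v0122, hd.v0222, hd.v1111, hd.v1112, hd.v1122, hd.v1222, hd.v2222, hd.v0010, hd.v0020, hd.v0021, hd.v0101, hd.v0102, hd.v0121, hd.v0202, hd.v0212,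 hd.v1011, hd.v1012, hd.v1022, hd.v1121, hd.v1212, hd.v2022, hd.v2122, hd.v0100, hd.v0110, hd.v0120, hd.v0200, hd.v0201, hd.v0211, hd.v0220, hd.v0221, hd.v1001, hd.v1002, hd.v1021, hd.v1101, hd.v1102, hd.v1202, hd.v1211, hd.v1221, hd.v2002, hd.v2012, hd.v2112, hd.v2202, hd.v2212, hd.v0210, hd.v1000, hd.v1010, hd.v1020, hd.v1110, hd.v1120, hd.v1201, hd.v1220, hd.v2000, hd.v2001, hd.v2011, hd.v2020, hd.v2021, hd.v2102, hd.v2111, hd.v2121, hd.v2220, hd.v2221, hd.v1100, hd.v1200, hd.v1210, hd.v2010, hd.v2101, hd.v2120, hd.v2200, hd.v2201, hd.v2211, hd.v2100, hd.v2110, hd.v2210]; ring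

theorem htD10 (hc : CV c l1 l2) (hd : DV d f l1 l2 a p q r b) :
    htD dl c (hK c 1) (cK d 1) 0 = p + r := by
  simp only [htD_dl, Fin.sum_univ_three, tauD10 c d f l1 l2 a p q r b hc hd, tauD11 c d f l1 l2 a p q r b hc hd, tauD12 c d f l1 l2 a p q r b hc hd, tau0 c l1 l2 hc, tau1 c l1 l2 hc, tau2 c l1 l2 hc, hK, hc.v000, hc.v001, hc.v002, hc.v011, hc.v012, hc.v022, hc.v111, hc.v112, hc.v122, hc.v222, hc.v010, hc.v020, hc.v021, hc.v101, hc.v102, hc.v121, hc.v202, hc.v212, hc.v100, hc.v110, hc.v120, hc.v200, hc.v201, hc.v211, hc.v220, hc.v221, hc.v210]; ring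

theorem htD11 (hc : CV c l1 l2) (hd : DV d f l1 l2 a p q r b) :
    htD dl c (hK c 1) (cK d 1) 1 = b - 2*l2^2 + q := by
  simp only [htD_dl, Fin.sum_univ_three, tauD10 c d f l1 l2 a p q r b hc hd, tauD11 c d f l1 l2 a p q r b hc hd, tauD12 c d f l1 l2 a p q r b hc hd, tau0 c l1 l2 hc, tau1 c l1 l2 hc, tau2 c l1 l2 hc, hK, hc.v000, hc.v001, hc.v002, hc.v011, hc.v012, hc.v022, hc.v111, hc.v112, hc.v122, hc.v222, hc.v010, hc.v020, hc.v021, hc.v101, hc.v102, hc.v121, hc.v202, hc.v212, hc.v100, hc.v110, hc.v120, hc.v200, hc.v201, hc.v211, hc.v220, hc.v221, hc.v210]; ring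

theorem htD12 (hc : CV c l1 l2) (hd : DV d f l1 l2 a p q r b) :
    htD dl c (hK c 1) (cK d 1) 2 = -l2/f := by
  simp only [htD_dl, Fin.sum_univ_three, tauD10 c d f l1 l2 a p q r b hc hd, tauD11 c d f l1 l2 a p q r b hc hd, tauD12 c d f l1 l2 a p q r b hc hd, tau0 c l1 l2 hc, tau1 c l1 l2 hc, tau2 c l1 l2 hc, hK, hc.v000, hc.v001, hc.v002, hc.v011, hc.v012, hc.v022, hc.v111, hc.v112, hc.v122, hc.v222, hc.v010, hc.v020, hc.v021, hc.v101, hc.v102, hc.v121, hc.v202, hc.v212, hc.v100, hc.v110, hc.v120, hc.v200, hc.v201, hc.v211, hc.v220, hc.v221, hc.v210]; ring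

theorem nD1 (hc : CV c l1 l2) (hd : DV d f l1 l2 a p q r b) :
    nD dl c (hK c 1) (cK d 1) = 2*b*l2 + 2*l1*p + 2*l1*r + 2*l2*q - 3*l2^3 := by
  simp only [nD_dl, Fin.sum_univ_three, tauD10 c d f l1 l2 a p q r b hc hd, tauD11 c d f l1 l2 a p q r b hc hd, tauD12 c d f l1 l2 a p q r b hc hd, tau0 c l1 l2 hc, tau1 c l1 l2 hc, tau2 c l1 l2 hc, htD10 c d f l1 l2 a p q r b hc hd, htD11 c d f l1 l2 a p q r b hc hd, htD12 c d f l1 l2 a p q r b hc hd]; ring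

theorem thD100 (hc : CV c l1 l2) (hd : DV d f l1 l2 a p q r b) (he : EV e f l1 l2 a p q r b E0 E1 E2 E3 E4 E5) :
    thD dl c d (hK c 1) (cK d 1) (dK e 1) 0 0 = E1 + E3 - 2*l1*p - l2*q := by
  simp only [thD_dl, hK, cK, dK, Fin.sum_univ_three, hc.v000, hc.v001, hc.v002, hc.v011, hc.v012, hc.v022, hc.v111, hc.v112, hc.v122, hc.v222, hc.v010, hc.v020, hc.v021, hc.v101, hc.v102, hc.v121, hc.v202, hc.v212, hc.v100, hc.v110, hc.v120, hc.v200, hc.v201, hc.v211, hc.v220, hc.v221, hc.v210, hd.v0000, hd.v0001, hd.v0002, hd.v0011, hd.v0012, hd.v0022, hd.v0111, hd.v0112, hd.v0122, hd.v0222, hd.v1111, hd.v1112, hd.v1122, hd.v1222, hd.v2222, hd.v0010, hd.v0020, hd.v0021, hd.v0101, hd.v0102, hd.v0121, hd.v0202, hd.v0212, hd.v1011, hd.v1012, hd.v1022, hd.v1121, hd.v1212, hd.v2022, hd.v2122, hd.v0100, hd.v0110, hd.v0120, hd.v0200, hd.v0201, hd.v0211, hd.v0220, hd.v0221,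 hd.v1001, hd.v1002, hd.v1021, hd.v1101, hd.v1102, hd.v1202, hd.v1211, hd.v1221, hd.v2002, hd.v2012, hd.v2112, hd.v2202, hd.v2212, hd.v0210, hd.v1000, hd.v1010, hd.v1020, hd.v1110, hd.v1120, hd.v1201, hd.v1220, hd.v2000, hd.v2001, hd.v2011, hd.v2020, hd.v2021, hd.v2102, hd.v2111, hd.v2121, hd.v2220, hd.v2221, hd.v1100, hd.v1200, hd.v1210, hd.v2010, hd.v2101, hd.v2120, hd.v2200, hd.v2201, hd.v2211, hd.v2100, hd.v2110, hd.v2210, he.v00001, he.v11001, he.v22001]; ring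

theorem thD101 (hc : CV c l1 l2) (hd : DV d f l1 l2 a p q r b) (he : EV e f l1 l2 a p q r b E0 E1 E2 E3 E4 E5) :
    thD dl c d (hK c 1) (cK d 1) (dK e 1) 0 1 = E2 + E4 - l1*q - 2*l2*r := by
  simp only [thD_dl, hK, cK, dK, Fin.sum_univ_three, hc.v000, hc.v001, hc.v002, hc.v011, hc.v012, hc.v022, hc.v111, hc.v112, hc.v122, hc.v222, hc.v010, hc.v020, hc.v021, hc.v101, hc.v102, hc.v121, hc.v202, hc.v212, hc.v100, hc.v110, hc.v120, hc.v200, hc.v201, hc.v211, hc.v220, hc.v221, hc.v210, hd.v0000, hd.v0001, hd.v0002, hd.v0011, hd.v0012, hd.v0022, hd.v0111, hd.v0112, hd.v0122, hd.v0222, hd.v1111, hd.v1112, hd.v1122, hd.v1222, hd.v2222, hd.v0010, hd.v0020, hd.v0021, hd.v0101, hd.v0102, hd.v0121, hd.v0202, hd.v0212, hd.v1011, hd.v1012, hd.v1022, hd.v1121, hd.v1212, hd.v2022, hd.v2122, hd.v0100, hd.v0110, hd.v0120, hd.v0200, hd.v0201, hd.v0211, hd.v0220, hd.v0221,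 hd.v1001, hd.v1002, hd.v1021, hd.v1101, hd.v1102, hd.v1202, hd.v1211, hd.v1221, hd.v2002, hd.v2012, hd.v2112, hd.v2202, hd.v2212, hd.v0210, hd.v1000, hd.v1010, hd.v1020, hd.v1110, hd.v1120, hd.v1201, hd.v1220, hd.v2000, hd.v2001, hd.v2011, hd.v2020, hd.v2021, hd.v2102, hd.v2111, hd.v2121, hd.v2220, hd.v2221, hd.v1100, hd.v1200, hd.v1210, hd.v2010, hd.v2101, hd.v2120, hd.v2200, hd.v2201, hd.v2211, hd.v2100, hd.v2110, hd.v2210, he.v00011, he.v11011, he.v22011]; ring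

theorem thD102 (hc : CV c l1 l2) (hd : DV d f l1 l2 a p q r b) (he : EV e f l1 l2 a p q r b E0 E1 E2 E3 E4 E5) :
    thD dl c d (hK c 1) (cK d 1) (dK e 1) 0 2 = -2*p/f - 2*r/f := by
  simp only [thD_dl, hK, cK, dK, Fin.sum_univ_three, hc.v000, hc.v001, hc.v002, hc.v011, hc.v012, hc.v022, hc.v111, hc.v112, hc.v122, hc.v222, hc.v010, hc.v020, hc.v021, hc.v101, hc.v102, hc.v121, hc.v202, hc.v212, hc.v100, hc.v110, hc.v120, hc.v200, hc.v201, hc.v211, hc.v220, hc.v221, hc.v210, hd.v0000, hd.v0001, hd.v0002, hd.v0011, hd.v0012, hd.v0022, hd.v0111, hd.v0112, hd.v0122, hd.v0222, hd.v1111, hd.v1112, hd.v1122, hd.v1222, hd.v2222, hd.v0010, hd.v0020, hd.v0021, hd.v0101, hd.v0102, hd.v0121, hd.v0202, hd.v0212, hd.v1011, hd.v1012, hd.v1022, hd.v1121, hd.v1212, hd.v2022, hd.v2122, hd.v0100, hd.v0110, hd.v0120, hd.v0200, hd.v0201, hd.v0211, hd.v0220, hd.v0221, hd.v1001,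 hd.v1002, hd.v1021, hd.v1101, hd.v1102, hd.v1202, hd.v1211, hd.v1221, hd.v2002, hd.v2012, hd.v2112, hd.v2202, hd.v2212, hd.v0210, hd.v1000, hd.v1010, hd.v1020, hd.v1110, hd.v1120, hd.v1201, hd.v1220, hd.v2000, hd.v2001, hd.v2011, hd.v2020, hd.v2021, hd.v2102, hd.v2111, hd.v2121, hd.v2220, hd.v2221, hd.v1100, hd.v1200, hd.v1210, hd.v2010, hd.v2101, hd.v2120, hd.v2200, hd.v2201, hd.v2211, hd.v2100, hd.v2110, hd.v2210, he.v00021, he.v11021, he.v22021]; ring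

theorem thD110 (hc : CV c l1 l2) (hd : DV d f l1 l2 a p q r b) (he : EV e f l1 l2 a p q r b E0 E1 E2 E3 E4 E5) :
    thD dl c d (hK c 1) (cK d 1) (dK e 1) 1 0 = E2 + E4 - l1*q - 2*l2*r := by
  simp only [thD_dl, hK, cK, dK, Fin.sum_univ_three, hc.v000, hc.v001, hc.v002, hc.v011, hc.v012, hc.v022, hc.v111, hc.v112, hc.v122, hc.v222, hc.v010, hc.v020, hc.v021, hc.v101, hc.v102, hc.v121, hc.v202, hc.v212, hc.v100, hc.v110, hc.v120, hc.v200, hc.v201, hc.v211, hc.v220, hc.v221, hc.v210, hd.v0000, hd.v0001, hd.v0002, hd.v0011, hd.v0012, hd.v0022, hd.v0111, hd.v0112, hd.v0122, hd.v0222, hd.v1111, hd.v1112, hd.v1122, hd.v1222, hd.v2222, hd.v0010, hd.v0020, hd.v0021, hd.v0101, hd.v0102, hd.v0121, hd.v0202, hd.v0212, hd.v1011, hd.v1012, hd.v1022, hd.v1121, hd.v1212, hd.v2022, hd.v2122, hd.v0100, hd.v0110, hd.v0120, hd.v0200, hd.v0201, hd.v0211, hd.v0220, hd.v0221,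 hd.v1001, hd.v1002, hd.v1021, hd.v1101, hd.v1102, hd.v1202, hd.v1211, hd.v1221, hd.v2002, hd.v2012, hd.v2112, hd.v2202, hd.v2212, hd.v0210, hd.v1000, hd.v1010, hd.v1020, hd.v1110, hd.v1120, hd.v1201, hd.v1220, hd.v2000, hd.v2001, hd.v2011, hd.v2020, hd.v2021, hd.v2102, hd.v2111, hd.v2121, hd.v2220, hd.v2221, hd.v1100, hd.v1200, hd.v1210, hd.v2010, hd.v2101, hd.v2120, hd.v2200, hd.v2201, hd.v2211, hd.v2100, hd.v2110, hd.v2210, he.v00101, he.v11101, he.v22101]; ring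

theorem thD111 (hc : CV c l1 l2) (hd : DV d f l1 l2 a p q r b) (he : EV e f l1 l2 a p q r b E0 E1 E2 E3 E4 E5) :
    thD dl c d (hK c 1) (cK d 1) (dK e 1) 1 1 = E3 + E5 - 3*b*l2 + 2*l2/f^2 + 2*l2^3 := by
  simp only [thD_dl, hK, cK, dK, Fin.sum_univ_three, hc.v000, hc.v001, hc.v002, hc.v011, hc.v012, hc.v022, hc.v111, hc.v112, hc.v122, hc.v222, hc.v010, hc.v020, hc.v021, hc.v101, hc.v102, hc.v121, hc.v202, hc.v212, hc.v100, hc.v110, hc.v120, hc.v200, hc.v201, hc.v211, hc.v220, hc.v221, hc.v210, hd.v0000, hd.v0001, hd.v0002, hd.v0011, hd.v0012, hd.v0022, hd.v0111, hd.v0112, hd.v0122, hd.v0222, hd.v1111, hd.v1112, hd.v1122, hd.v1222, hd.v2222, hd.v0010, hd.v0020, hd.v0021, hd.v0101, hd.v0102, hd.v0121, hd.v0202, hd.v0212, hd.v1011, hd.v1012, hd.v1022, hd.v1121, hd.v1212, hd.v2022, hd.v2122, hd.v0100, hd.v0110, hd.v0120, hd.v0200, hd.v0201, hd.v0211, hd.v0220,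 hd.v0221, hd.v1001, hd.v1002, hd.v1021, hd.v1101, hd.v1102, hd.v1202, hd.v1211, hd.v1221, hd.v2002, hd.v2012, hd.v2112, hd.v2202, hd.v2212, hd.v0210, hd.v1000, hd.v1010, hd.v1020, hd.v1110, hd.v1120, hd.v1201, hd.v1220, hd.v2000, hd.v2001, hd.v2011, hd.v2020, hd.v2021, hd.v2102, hd.v2111, hd.v2121, hd.v2220, hd.v2221, hd.v1100, hd.v1200, hd.v1210, hd.v2010, hd.v2101, hd.v2120, hd.v2200, hd.v2201, hd.v2211, hd.v2100, hd.v2110, hd.v2210, he.v00111, he.v11111, he.v22111]; ring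

theorem thD112 (hc : CV c l1 l2) (hd : DV d f l1 l2 a p q r b) (he : EV e f l1 l2 a p q r b E0 E1 E2 E3 E4 E5) :
    thD dl c d (hK c 1) (cK d 1) (dK e 1) 1 2 = -2*b/f + 2*l2^2/f - 2*q/f := by
  simp only [thD_dl, hK, cK, dK, Fin.sum_univ_three, hc.v000, hc.v001, hc.v002, hc.v011, hc.v012, hc.v022, hc.v111, hc.v112, hc.v122, hc.v222, hc.v010, hc.v020, hc.v021, hc.v101, hc.v102, hc.v121, hc.v202, hc.v212, hc.v100, hc.v110, hc.v120, hc.v200, hc.v201, hc.v211, hc.v220, hc.v221, hc.v210, hd.v0000, hd.v0001, hd.v0002, hd.v0011, hd.v0012, hd.v0022, hd.v0111, hd.v0112, hd.v0122, hd.v0222, hd.v1111, hd.v1112, hd.v1122, hd.v1222, hd.v2222, hd.v0010, hd.v0020, hd.v0021, hd.v0101, hd.v0102, hd.v0121, hd.v0202, hd.v0212, hd.v1011, hd.v1012, hd.v1022, hd.v1121, hd.v1212, hd.v2022, hd.v2122, hd.v0100, hd.v0110, hd.v0120, hd.v0200, hd.v0201, hd.v0211, hd.v0220, hd.v0221,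 hd.v1001, hd.v1002, hd.v1021, hd.v1101, hd.v1102, hd.v1202, hd.v1211, hd.v1221, hd.v2002, hd.v2012, hd.v2112, hd.v2202, hd.v2212, hd.v0210, hd.v1000, hd.v1010, hd.v1020, hd.v1110, hd.v1120, hd.v1201, hd.v1220, hd.v2000, hd.v2001, hd.v2011, hd.v2020, hd.v2021, hd.v2102, hd.v2111, hd.v2121, hd.v2220, hd.v2221, hd.v1100, hd.v1200, hd.v1210, hd.v2010, hd.v2101, hd.v2120, hd.v2200, hd.v2201, hd.v2211, hd.v2100, hd.v2110, hd.v2210, he.v00121, he.v11121, he.v22121]; ring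

theorem thD120 (hc : CV c l1 l2) (hd : DV d f l1 l2 a p q r b) (he : EV e f l1 l2 a p q r b E0 E1 E2 E3 E4 E5) :
    thD dl c d (hK c 1) (cK d 1) (dK e 1) 2 0 = -2*p/f - 2*r/f := by
  simp only [thD_dl, hK, cK, dK, Fin.sum_univ_three, hc.v000, hc.v001, hc.v002, hc.v011, hc.v012, hc.v022, hc.v111, hc.v112, hc.v122, hc.v222, hc.v010, hc.v020, hc.v021, hc.v101, hc.v102, hc.v121, hc.v202, hc.v212, hc.v100, hc.v110, hc.v120, hc.v200, hc.v201, hc.v211, hc.v220, hc.v221, hc.v210, hd.v0000, hd.v0001, hd.v0002, hd.v0011, hd.v0012, hd.v0022, hd.v0111, hd.v0112, hd.v0122, hd.v0222, hd.v1111, hd.v1112, hd.v1122, hd.v1222, hd.v2222, hd.v0010, hd.v0020, hd.v0021, hd.v0101, hd.v0102, hd.v0121, hd.v0202, hd.v0212, hd.v1011, hd.v1012, hd.v1022, hd.v1121, hd.v1212, hd.v2022, hd.v2122, hd.v0100, hd.v0110, hd.v0120, hd.v0200, hd.v0201, hd.v0211, hd.v0220, hd.v0221, hd.v1001,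 hd.v1002, hd.v1021, hd.v1101, hd.v1102, hd.v1202, hd.v1211, hd.v1221, hd.v2002, hd.v2012, hd.v2112, hd.v2202, hd.v2212, hd.v0210, hd.v1000, hd.v1010, hd.v1020, hd.v1110, hd.v1120, hd.v1201, hd.v1220, hd.v2000, hd.v2001, hd.v2011, hd.v2020, hd.v2021, hd.v2102, hd.v2111, hd.v2121, hd.v2220, hd.v2221, hd.v1100, hd.v1200, hd.v1210, hd.v2010, hd.v2101, hd.v2120, hd.v2200, hd.v2201, hd.v2211, hd.v2100, hd.v2110, hd.v2210, he.v00201, he.v11201, he.v22201]; ring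

theorem thD121 (hc : CV c l1 l2) (hd : DV d f l1 l2 a p q r b) (he : EV e f l1 l2 a p q r b E0 E1 E2 E3 E4 E5) :
    thD dl c d (hK c 1) (cK d 1) (dK e 1) 2 1 = -2*b/f + 2*l2^2/f - 2*q/f := by
  simp only [thD_dl, hK, cK, dK, Fin.sum_univ_three, hc.v000, hc.v001, hc.v002, hc.v011, hc.v012, hc.v022, hc.v111, hc.v112, hc.v122, hc.v222, hc.v010, hc.v020, hc.v021, hc.v101, hc.v102, hc.v121, hc.v202, hc.v212, hc.v100, hc.v110, hc.v120, hc.v200, hc.v201, hc.v211, hc.v220, hc.v221, hc.v210, hd.v0000, hd.v0001, hd.v0002, hd.v0011, hd.v0012, hd.v0022, hd.v0111, hd.v0112, hd.v0122, hd.v0222, hd.v1111, hd.v1112, hd.v1122, hd.v1222, hd.v2222, hd.v0010, hd.v0020, hd.v0021, hd.v0101, hd.v0102, hd.v0121, hd.v0202, hd.v0212, hd.v1011, hd.v1012, hd.v1022, hd.v1121, hd.v1212, hd.v2022, hd.v2122, hd.v0100, hd.v0110, hd.v0120, hd.v0200, hd.v0201, hd.v0211, hd.v0220, hd.v0221,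 hd.v1001, hd.v1002, hd.v1021, hd.v1101, hd.v1102, hd.v1202, hd.v1211, hd.v1221, hd.v2002, hd.v2012, hd.v2112, hd.v2202, hd.v2212, hd.v0210, hd.v1000, hd.v1010, hd.v1020, hd.v1110, hd.v1120, hd.v1201, hd.v1220, hd.v2000, hd.v2001, hd.v2011, hd.v2020, hd.v2021, hd.v2102, hd.v2111, hd.v2121, hd.v2220, hd.v2221, hd.v1100, hd.v1200, hd.v1210, hd.v2010, hd.v2101, hd.v2120, hd.v2200, hd.v2201, hd.v2211, hd.v2100, hd.v2110, hd.v2210, he.v00211, he.v11211, he.v22211]; ring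

theorem thD122 (hc : CV c l1 l2) (hd : DV d f l1 l2 a p q r b) (he : EV e f l1 l2 a p q r b E0 E1 E2 E3 E4 E5) :
    thD dl c d (hK c 1) (cK d 1) (dK e 1) 2 2 = 2*l2/f^2 := by
  simp only [thD_dl, hK, cK, dK, Fin.sum_univ_three, hc.v000, hc.v001, hc.v002, hc.v011, hc.v012, hc.v022, hc.v111, hc.v112, hc.v122, hc.v222, hc.v010, hc.v020, hc.v021, hc.v101, hc.v102, hc.v121, hc.v202, hc.v212, hc.v100, hc.v110, hc.v120, hc.v200, hc.v201, hc.v211, hc.v220, hc.v221, hc.v210, hd.v0000, hd.v0001, hd.v0002, hd.v0011, hd.v0012, hd.v0022, hd.v0111, hd.v0112, hd.v0122, hd.v0222, hd.v1111, hd.v1112, hd.v1122, hd.v1222, hd.v2222, hd.v0010, hd.v0020, hd.v0021, hd.v0101, hd.v0102, hd.v0121, hd.v0202, hd.v0212, hd.v1011, hd.v1012, hd.v1022, hd.v1121, hd.v1212, hd.v2022, hd.v2122, hd.v0100, hd.v0110, hd.v0120, hd.v0200, hd.v0201, hd.v0211, hd.v0220, hd.v0221, hd.v1001, hd.v1002,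 hd.v1021, hd.v1101, hd.v1102, hd.v1202, hd.v1211, hd.v1221, hd.v2002, hd.v2012, hd.v2112, hd.v2202, hd.v2212, hd.v0210, hd.v1000, hd.v1010, hd.v1020, hd.v1110, hd.v1120, hd.v1201, hd.v1220, hd.v2000, hd.v2001, hd.v2011, hd.v2020, hd.v2021, hd.v2102, hd.v2111, hd.v2121, hd.v2220, hd.v2221, hd.v1100, hd.v1200, hd.v1210, hd.v2010, hd.v2101, hd.v2120, hd.v2200, hd.v2201, hd.v2211, hd.v2100, hd.v2110, hd.v2210, he.v00221, he.v11221, he.v22221]; ring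

theorem hthD100 (hc : CV c l1 l2) (hd : DV d f l1 l2 a p q r b) (he : EV e f l1 l2 a p q r b E0 E1 E2 E3 E4 E5) :
    hthD dl c d (hK c 1) (cK d 1) (dK e 1) 0 0 = E1 + E3 - 2*l1*p - l2*q := by
  simp only [hthD_dl, Fin.sum_univ_three, thD100 c d e f l1 l2 a p q r b E0 E1 E2 E3 E4 E5 hc hd he, thD101 c d e f l1 l2 a p q r b E0 E1 E2 E3 E4 E5 hc hd he, thD102 c d e f l1 l2 a p q r b E0 E1 E2 E3 E4 E5 hc hd he, thD110 c d e f l1 l2 a p q r b E0 E1 E2 E3 E4 E5 hc hd he, thD111 c d e f l1 l2 a p q r b E0 E1 E2 E3 E4 E5 hc hd he, thD112 c d e f l1 l2 a p q r b E0 E1 E2 E3 E4 E5 hc hd he, thD120 c d e f l1 l2 a p q r b E0 E1 E2 E3 E4 E5 hc hd he, thD121 c d e f l1 l2 a p q r b E0 E1 E2 E3 E4 E5 hc hd he, thD122 c d e f l1 l2 a p q r b E0 E1 E2 E3 E4 E5 hc hd he, th00 c d f l1 l2 a p q r b hc hd, th01 c d f l1 l2 a p q r b hc hd, th02 c d f l1 l2 a p q r b hc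 hd, th10 c d f l1 l2 a p q r b hc hd, th11 c d f l1 l2 a p q r b hc hd, th12 c d f l1 l2 a p q r b hc hd, th20 c d f l1 l2 a p q r b hc hd, th21 c d f l1 l2 a p q r b hc hd, th22 c d f l1 l2 a p q r b hc hd, hK, hc.v000, hc.v001, hc.v002, hc.v011, hc.v012, hc.v022, hc.v111, hc.v112, hc.v122, hc.v222, hc.v010, hc.v020, hc.v021, hc.v101, hc.v102, hc.v121, hc.v202, hc.v212, hc.v100, hc.v110, hc.v120, hc.v200, hc.v201, hc.v211, hc.v220, hc.v221, hc.v210]; ring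

theorem hthD101 (hc : CV c l1 l2) (hd : DV d f l1 l2 a p q r b) (he : EV e f l1 l2 a p q r b E0 E1 E2 E3 E4 E5) :
    hthD dl c d (hK c 1) (cK d 1) (dK e 1) 0 1 = E2 + E4 - l1*q - l2*p - 3*l2*r := by
  simp only [hthD_dl, Fin.sum_univ_three, thD100 c d e f l1 l2 a p q r b E0 E1 E2 E3 E4 E5 hc hd he, thD101 c d e f l1 l2 a p q r b E0 E1 E2 E3 E4 E5 hc hd he, thD102 c d e f l1 l2 a p q r b E0 E1 E2 E3 E4 E5 hc hd he, thD110 c d e f l1 l2 a p q r b E0 E1 E2 E3 E4 E5 hc hd he, thD111 c d e f l1 l2 a p q r b E0 E1 E2 E3 E4 E5 hc hd he, thD112 c d e f l1 l2 a p q r b E0 E1 E2 E3 E4 E5 hc hd he, thD120 c d e f l1 l2 a p q r b E0 E1 E2 E3 E4 E5 hc hd he, thD121 c d e f l1 l2 a p q r b E0 E1 E2 E3 E4 E5 hc hd he, thD122 c d e f l1 l2 a p q r b E0 E1 E2 E3 E4 E5 hc hd he, th00 c d f l1 l2 a p q r b hc hd, th01 c d f l1 l2 a p q r b hc hd, th02 c d f l1 l2 a p q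 r b hc hd, th10 c d f l1 l2 a p q r b hc hd, th11 c d f l1 l2 a p q r b hc hd, th12 c d f l1 l2 a p q r b hc hd, th20 c d f l1 l2 a p q r b hc hd, th21 c d f l1 l2 a p q r b hc hd, th22 c d f l1 l2 a p q r b hc hd, hK, hc.v000, hc.v001, hc.v002, hc.v011, hc.v012, hc.v022, hc.v111, hc.v112, hc.v122, hc.v222, hc.v010, hc.v020, hc.v021, hc.v101, hc.v102, hc.v121, hc.v202, hc.v212, hc.v100, hc.v110, hc.v120, hc.v200, hc.v201, hc.v211, hc.v220, hc.v221, hc.v210]; ring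

theorem hthD102 (hc : CV c l1 l2) (hd : DV d f l1 l2 a p q r b) (he : EV e f l1 l2 a p q r b E0 E1 E2 E3 E4 E5) :
    hthD dl c d (hK c 1) (cK d 1) (dK e 1) 0 2 = -2*p/f - 2*r/f := by
  simp only [hthD_dl, Fin.sum_univ_three, thD100 c d e f l1 l2 a p q r b E0 E1 E2 E3 E4 E5 hc hd he, thD101 c d e f l1 l2 a p q r b E0 E1 E2 E3 E4 E5 hc hd he, thD102 c d e f l1 l2 a p q r b E0 E1 E2 E3 E4 E5 hc hd he, thD110 c d e f l1 l2 a p q r b E0 E1 E2 E3 E4 E5 hc hd he, thD111 c d e f l1 l2 a p q r b E0 E1 E2 E3 E4 E5 hc hd he, thD112 c d e f l1 l2 a p q r b E0 E1 E2 E3 E4 E5 hc hd he, thD120 c d e f l1 l2 a p q r b E0 E1 E2 E3 E4 E5 hc hd he, thD121 c d e f l1 l2 a p q r b E0 E1 E2 E3 E4 E5 hc hd he, thD122 c d e f l1 l2 a p q r b E0 E1 E2 E3 E4 E5 hc hd he, th00 c d f l1 l2 a p q r b hc hd, th01 c d f l1 l2 a p q r b hc hd, th02 c d f l1 l2 a p q r b hc hd, th10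 c d f l1 l2 a p q r b hc hd, th11 c d f l1 l2 a p q r b hc hd, th12 c d f l1 l2 a p q r b hc hd, th20 c d f l1 l2 a p q r b hc hd, th21 c d f l1 l2 a p q r b hc hd, th22 c d f l1 l2 a p q r b hc hd, hK, hc.v000, hc.v001, hc.v002, hc.v011, hc.v012, hc.v022, hc.v111, hc.v112, hc.v122, hc.v222, hc.v010, hc.v020, hc.v021, hc.v101, hc.v102, hc.v121, hc.v202, hc.v212, hc.v100, hc.v110, hc.v120, hc.v200, hc.v201, hc.v211, hc.v220, hc.v221, hc.v210]; ring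

theorem hthD110 (hc : CV c l1 l2) (hd : DV d f l1 l2 a p q r b) (he : EV e f l1 l2 a p q r b E0 E1 E2 E3 E4 E5) :
    hthD dl c d (hK c 1) (cK d 1) (dK e 1) 1 0 = E2 + E4 - l1*q - l2*p - 3*l2*r := by
  simp only [hthD_dl, Fin.sum_univ_three, thD100 c d e f l1 l2 a p q r b E0 E1 E2 E3 E4 E5 hc hd he, thD101 c d e f l1 l2 a p q r b E0 E1 E2 E3 E4 E5 hc hd he, thD102 c d e f l1 l2 a p q r b E0 E1 E2 E3 E4 E5 hc hd he, thD110 c d e f l1 l2 a p q r b E0 E1 E2 E3 E4 E5 hc hd he, thD111 c d e f l1 l2 a p q r b E0 E1 E2 E3 E4 E5 hc hd he, thD112 c d e f l1 l2 a p q r b E0 E1 E2 E3 E4 E5 hc hd he, thD120 c d e f l1 l2 a p q r b E0 E1 E2 E3 E4 E5 hc hd he, thD121 c d e f l1 l2 a p q r b E0 E1 E2 E3 E4 E5 hc hd he, thD122 c d e f l1 l2 a p q r b E0 E1 E2 E3 E4 E5 hc hd he, th00 c d f l1 l2 a p q r b hc hd, th01 c d f l1 l2 a p q r b hc hd, th02 c d f l1 l2 a p q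 r b hc hd, th10 c d f l1 l2 a p q r b hc hd, th11 c d f l1 l2 a p q r b hc hd, th12 c d f l1 l2 a p q r b hc hd, th20 c d f l1 l2 a p q r b hc hd, th21 c d f l1 l2 a p q r b hc hd, th22 c d f l1 l2 a p q r b hc hd, hK, hc.v000, hc.v001, hc.v002, hc.v011, hc.v012, hc.v022, hc.v111, hc.v112, hc.v122, hc.v222, hc.v010, hc.v020, hc.v021, hc.v101, hc.v102, hc.v121, hc.v202, hc.v212, hc.v100, hc.v110, hc.v120, hc.v200, hc.v201, hc.v211, hc.v220, hc.v221, hc.v210]; ring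

theorem hthD111 (hc : CV c l1 l2) (hd : DV d f l1 l2 a p q r b) (he : EV e f l1 l2 a p q r b E0 E1 E2 E3 E4 E5) :
    hthD dl c d (hK c 1) (cK d 1) (dK e 1) 1 1 = E3 + E5 - 5*b*l2 + 2*l2/f^2 - 2*l2*q + 4*l2^3 := by
  simp only [hthD_dl, Fin.sum_univ_three, thD100 c d e f l1 l2 a p q r b E0 E1 E2 E3 E4 E5 hc hd he, thD101 c d e f l1 l2 a p q r b E0 E1 E2 E3 E4 E5 hc hd he, thD102 c d e f l1 l2 a p q r b E0 E1 E2 E3 E4 E5 hc hd he, thD110 c d e f l1 l2 a p q r b E0 E1 E2 E3 E4 E5 hc hd he, thD111 c d e f l1 l2 a p q r b E0 E1 E2 E3 E4 E5 hc hd he, thD112 c d e f l1 l2 a p q r b E0 E1 E2 E3 E4 E5 hc hd he, thD120 c d e f l1 l2 a p q r b E0 E1 E2 E3 E4 E5 hc hd he, thD121 c d e f l1 l2 a p q r b E0 E1 E2 E3 E4 E5 hc hd he, thD122 c d e f l1 l2 a p q r b E0 E1 E2 E3 E4 E5 hc hd he, th00 c d f l1 l2 a p q r b hc hd, th01 c d f l1 l2 a p q r b hc hd, th02 c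 d f l1 l2 a p q r b hc hd, th10 c d f l1 l2 a p q r b hc hd, th11 c d f l1 l2 a p q r b hc hd, th12 c d f l1 l2 a p q r b hc hd, th20 c d f l1 l2 a p q r b hc hd, th21 c d f l1 l2 a p q r b hc hd, th22 c d f l1 l2 a p q r b hc hd, hK, hc.v000, hc.v001, hc.v002, hc.v011, hc.v012, hc.v022, hc.v111, hc.v112, hc.v122, hc.v222, hc.v010, hc.v020, hc.v021, hc.v101, hc.v102, hc.v121, hc.v202, hc.v212, hc.v100, hc.v110, hc.v120, hc.v200, hc.v201, hc.v211, hc.v220, hc.v221, hc.v210]; ring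

theorem hthD112 (hc : CV c l1 l2) (hd : DV d f l1 l2 a p q r b) (he : EV e f l1 l2 a p q r b E0 E1 E2 E3 E4 E5) :
    hthD dl c d (hK c 1) (cK d 1) (dK e 1) 1 2 = -2*b/f + 3*l2^2/f - 2*q/f := by
  simp only [hthD_dl, Fin.sum_univ_three, thD100 c d e f l1 l2 a p q r b E0 E1 E2 E3 E4 E5 hc hd he, thD101 c d e f l1 l2 a p q r b E0 E1 E2 E3 E4 E5 hc hd he, thD102 c d e f l1 l2 a p q r b E0 E1 E2 E3 E4 E5 hc hd he, thD110 c d e f l1 l2 a p q r b E0 E1 E2 E3 E4 E5 hc hd he, thD111 c d e f l1 l2 a p q r b E0 E1 E2 E3 E4 E5 hc hd he, thD112 c d e f l1 l2 a p q r b E0 E1 E2 E3 E4 E5 hc hd he, thD120 c d e f l1 l2 a p q r b E0 E1 E2 E3 E4 E5 hc hd he, thD121 c d e f l1 l2 a p q r b E0 E1 E2 E3 E4 E5 hc hd he, thD122 c d e f l1 l2 a p q r b E0 E1 E2 E3 E4 E5 hc hd he, th00 c d f l1 l2 a p q r b hc hd, th01 c d f l1 l2 a p q r b hc hd, th02 c d f l1 l2 a p q r b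 hc hd, th10 c d f l1 l2 a p q r b hc hd, th11 c d f l1 l2 a p q r b hc hd, th12 c d f l1 l2 a p q r b hc hd, th20 c d f l1 l2 a p q r b hc hd, th21 c d f l1 l2 a p q r b hc hd, th22 c d f l1 l2 a p q r b hc hd, hK, hc.v000, hc.v001, hc.v002, hc.v011, hc.v012, hc.v022, hc.v111, hc.v112, hc.v122, hc.v222, hc.v010, hc.v020, hc.v021, hc.v101, hc.v102, hc.v121, hc.v202, hc.v212, hc.v100, hc.v110, hc.v120, hc.v200, hc.v201, hc.v211, hc.v220, hc.v221, hc.v210]; ring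

theorem hthD120 (hc : CV c l1 l2) (hd : DV d f l1 l2 a p q r b) (he : EV e f l1 l2 a p q r b E0 E1 E2 E3 E4 E5) :
    hthD dl c d (hK c 1) (cK d 1) (dK e 1) 2 0 = -2*p/f - 2*r/f := by
  simp only [hthD_dl, Fin.sum_univ_three, thD100 c d e f l1 l2 a p q r b E0 E1 E2 E3 E4 E5 hc hd he, thD101 c d e f l1 l2 a p q r b E0 E1 E2 E3 E4 E5 hc hd he, thD102 c d e f l1 l2 a p q r b E0 E1 E2 E3 E4 E5 hc hd he, thD110 c d e f l1 l2 a p q r b E0 E1 E2 E3 E4 E5 hc hd he, thD111 c d e f l1 l2 a p q r b E0 E1 E2 E3 E4 E5 hc hd he, thD112 c d e f l1 l2 a p q r b E0 E1 E2 E3 E4 E5 hc hd he, thD120 c d e f l1 l2 a p q r b E0 E1 E2 E3 E4 E5 hc hd he, thD121 c d e f l1 l2 a p q r b E0 E1 E2 E3 E4 E5 hc hd he, thD122 c d e f l1 l2 a p q r b E0 E1 E2 E3 E4 E5 hc hd he, th00 c d f l1 l2 a p q r b hc hd, th01 c d f l1 l2 a p q r b hc hd, th02 c d f l1 l2 a p q r b hc hd, th10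 c d f l1 l2 a p q r b hc hd, th11 c d f l1 l2 a p q r b hc hd, th12 c d f l1 l2 a p q r b hc hd, th20 c d f l1 l2 a p q r b hc hd, th21 c d f l1 l2 a p q r b hc hd, th22 c d f l1 l2 a p q r b hc hd, hK, hc.v000, hc.v001, hc.v002, hc.v011, hc.v012, hc.v022, hc.v111, hc.v112, hc.v122, hc.v222, hc.v010, hc.v020, hc.v021, hc.v101, hc.v102, hc.v121, hc.v202, hc.v212, hc.v100, hc.v110, hc.v120, hc.v200, hc.v201, hc.v211, hc.v220, hc.v221, hc.v210]; ring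

theorem hthD121 (hc : CV c l1 l2) (hd : DV d f l1 l2 a p q r b) (he : EV e f l1 l2 a p q r b E0 E1 E2 E3 E4 E5) :
    hthD dl c d (hK c 1) (cK d 1) (dK e 1) 2 1 = -2*b/f + 3*l2^2/f - 2*q/f := by
  simp only [hthD_dl, Fin.sum_univ_three, thD100 c d e f l1 l2 a p q r b E0 E1 E2 E3 E4 E5 hc hd he, thD101 c d e f l1 l2 a p q r b E0 E1 E2 E3 E4 E5 hc hd he, thD102 c d e f l1 l2 a p q r b E0 E1 E2 E3 E4 E5 hc hd he, thD110 c d e f l1 l2 a p q r b E0 E1 E2 E3 E4 E5 hc hd he, thD111 c d e f l1 l2 a p q r b E0 E1 E2 E3 E4 E5 hc hd he, thD112 c d e f l1 l2 a p q r b E0 E1 E2 E3 E4 E5 hc hd he, thD120 c d e f l1 l2 a p q r b E0 E1 E2 E3 E4 E5 hc hd he, thD121 c d e f l1 l2 a p q r b E0 E1 E2 E3 E4 E5 hc hd he, thD122 c d e f l1 l2 a p q r b E0 E1 E2 E3 E4 E5 hc hd he, th00 c d f l1 l2 a p q r b hc hd, th01 c d f l1 l2 a p q r b hc hd, th02 c d f l1 l2 a p q r b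 hc hd, th10 c d f l1 l2 a p q r b hc hd, th11 c d f l1 l2 a p q r b hc hd, th12 c d f l1 l2 a p q r b hc hd, th20 c d f l1 l2 a p q r b hc hd, th21 c d f l1 l2 a p q r b hc hd, th22 c d f l1 l2 a p q r b hc hd, hK, hc.v000, hc.v001, hc.v002, hc.v011, hc.v012, hc.v022, hc.v111, hc.v112, hc.v122, hc.v222, hc.v010, hc.v020, hc.v021, hc.v101, hc.v102, hc.v121, hc.v202, hc.v212, hc.v100, hc.v110, hc.v120, hc.v200, hc.v201, hc.v211, hc.v220, hc.v221, hc.v210]; ring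

theorem hthD122 (hc : CV c l1 l2) (hd : DV d f l1 l2 a p q r b) (he : EV e f l1 l2 a p q r b E0 E1 E2 E3 E4 E5) :
    hthD dl c d (hK c 1) (cK d 1) (dK e 1) 2 2 = 2*l2/f^2 := by
  simp only [hthD_dl, Fin.sum_univ_three, thD100 c d e f l1 l2 a p q r b E0 E1 E2 E3 E4 E5 hc hd he, thD101 c d e f l1 l2 a p q r b E0 E1 E2 E3 E4 E5 hc hd he, thD102 c d e f l1 l2 a p q r b E0 E1 E2 E3 E4 E5 hc hd he, thD110 c d e f l1 l2 a p q r b E0 E1 E2 E3 E4 E5 hc hd he, thD111 c d e f l1 l2 a p q r b E0 E1 E2 E3 E4 E5 hc hd he, thD112 c d e f l1 l2 a p q r b E0 E1 E2 E3 E4 E5 hc hd he, thD120 c d e f l1 l2 a p q r b E0 E1 E2 E3 E4 E5 hc hd he, thD121 c d e f l1 l2 a p q r b E0 E1 E2 E3 E4 E5 hc hd he, thD122 c d e f l1 l2 a p q r b E0 E1 E2 E3 E4 E5 hc hd he, th00 c d f l1 l2 a p q r b hc hd, th01 c d f l1 l2 a p q r b hc hd, th02 c d f l1 l2 a p q r b hc hd, th10 c d f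 l1 l2 a p q r b hc hd, th11 c d f l1 l2 a p q r b hc hd, th12 c d f l1 l2 a p q r b hc hd, th20 c d f l1 l2 a p q r b hc hd, th21 c d f l1 l2 a p q r b hc hd, th22 c d f l1 l2 a p q r b hc hd, hK, hc.v000, hc.v001, hc.v002, hc.v011, hc.v012, hc.v022, hc.v111, hc.v112, hc.v122, hc.v222, hc.v010, hc.v020, hc.v021, hc.v101, hc.v102, hc.v121, hc.v202, hc.v212, hc.v100, hc.v110, hc.v120, hc.v200, hc.v201, hc.v211, hc.v220, hc.v221, hc.v210]; ring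

theorem uD10 (hc : CV c l1 l2) (hd : DV d f l1 l2 a p q r b) (he : EV e f l1 l2 a p q r b E0 E1 E2 E3 E4 E5) :
    uD dl c d (hK c 1) (cK d 1) (dK e 1) 0 = E2*l2 + E4*l2 + a*r + b*p + l1*l2/f^2 - l1*l2*q - l1^2*r - 2*l2^2*p - 3*l2^2*r - p*q - q*r := by
  simp only [uD_dl, Fin.sum_univ_three, thD100 c d e f l1 l2 a p q r b E0 E1 E2 E3 E4 E5 hc hd he, thD101 c d e f l1 l2 a p q r b E0 E1 E2 E3 E4 E5 hc hd he, thD102 c d e f l1 l2 a p q r b E0 E1 E2 E3 E4 E5 hc hd he, thD110 c d e f l1 l2 a p q r b E0 E1 E2 E3 E4 E5 hc hd he, thD111 c d e f l1 l2 a p q r b E0 E1 E2 E3 E4 E5 hc hd he, thD112 c d e f l1 l2 a p q r b E0 E1 E2 E3 E4 E5 hc hd he, thD120 c d e f l1 l2 a p q r b E0 E1 E2 E3 E4 E5 hc hd he, thD121 c d e f l1 l2 a p q r b E0 E1 E2 E3 E4 E5 hc hd he, thD122 c d e f l1 l2 a p q r b E0 E1 E2 E3 E4 E5 hc hd he, hthD100 c d e f l1 l2 a p q r b E0 E1 E2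 E3 E4 E5 hc hd he, hthD101 c d e f l1 l2 a p q r b E0 E1 E2 E3 E4 E5 hc hd he, hthD102 c d e f l1 l2 a p q r b E0 E1 E2 E3 E4 E5 hc hd he, hthD110 c d e f l1 l2 a p q r b E0 E1 E2 E3 E4 E5 hc hd he, hthD111 c d e f l1 l2 a p q r b E0 E1 E2 E3 E4 E5 hc hd he, hthD112 c d e f l1 l2 a p q r b E0 E1 E2 E3 E4 E5 hc hd he, hthD120 c d e f l1 l2 a p q r b E0 E1 E2 E3 E4 E5 hc hd he, hthD121 c d e f l1 l2 a p q r b E0 E1 E2 E3 E4 E5 hc hd he, hthD122 c d e f l1 l2 a p q r b E0 E1 E2 E3 E4 E5 hc hd he, th00 c d f l1 l2 a p q r b hc hd, th01 c d f l1 l2 a p q r b hc hd, th02 c d f l1 l2 a p q r b hc hd, th10 c d f l1 l2 a p q r b hc hd, th11 c d f l1 l2 a p q r b hc hd, th12 c d f l1 l2 a p q r b hc hd, th20 c d f l1 l2 a p q r b hc hd, th21 c d f l1 l2 a p q r b hc hd, th22 c d f l1 l2 a p q r b hc hd, tau0 c l1 l2 hc, tau1 c l1 l2 hc, tau2 c l1 l2 hc, htD10 c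 d f l1 l2 a p q r b hc hd, htD11 c d f l1 l2 a p q r b hc hd, htD12 c d f l1 l2 a p q r b hc hd, cK, hc.v000, hc.v001, hc.v002, hc.v011, hc.v012, hc.v022, hc.v111, hc.v112, hc.v122, hc.v222, hc.v010, hc.v020, hc.v021, hc.v101, hc.v102, hc.v121, hc.v202, hc.v212, hc.v100, hc.v110, hc.v120, hc.v200, hc.v201, hc.v211, hc.v220, hc.v221, hc.v210, hd.v0000, hd.v0001, hd.v0002, hd.v0011, hd.v0012, hd.v0022, hd.v0111, hd.v0112, hd.v0122, hd.v0222, hd.v1111, hd.v1112, hd.v1122, hd.v1222, hd.v2222, hd.v0010, hd.v0020, hd.v0021, hd.v0101, hd.v0102, hd.v0121, hd.v0202, hd.v0212, hd.v1011, hd.v1012, hd.v1022, hd.v1121, hd.v1212, hd.v2022, hd.v2122, hd.v0100, hd.v0110, hd.v0120, hd.v0200, hd.v0201, hd.v0211, hd.v0220, hd.v0221, hd.v1001, hd.v1002, hd.v1021, hd.v1101, hd.v1102, hd.v1202, hd.v1211, hd.v1221, hd.v2002, hd.v2012, hd.v2112, hd.v2202, hd.v2212, hd.v0210,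 hd.v1000, hd.v1010, hd.v1020, hd.v1110, hd.v1120, hd.v1201, hd.v1220, hd.v2000, hd.v2001, hd.v2011, hd.v2020, hd.v2021, hd.v2102, hd.v2111, hd.v2121, hd.v2220, hd.v2221, hd.v1100, hd.v1200, hd.v1210, hd.v2010, hd.v2101, hd.v2120, hd.v2200, hd.v2201, hd.v2211, hd.v2100, hd.v2110, hd.v2210]; ring

theorem uD11 (hc : CV c l1 l2) (hd : DV d f l1 l2 a p q r b) (he : EV e f l1 l2 a p q r b E0 E1 E2 E3 E4 E5) :
    uD dl c d (hK c 1) (cK d 1) (dK e 1) 1 = E2*l1 + E4*l1 - a*q + b*q - l2^2/f^2 - 2*l1*l2*r - l2^2*q + p^2 - r^2 := by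
  simp only [uD_dl, Fin.sum_univ_three, thD100 c d e f l1 l2 a p q r b E0 E1 E2 E3 E4 E5 hc hd he, thD101 c d e f l1 l2 a p q r b E0 E1 E2 E3 E4 E5 hc hd he, thD102 c d e f l1 l2 a p q r b E0 E1 E2 E3 E4 E5 hc hd he, thD110 c d e f l1 l2 a p q r b E0 E1 E2 E3 E4 E5 hc hd he, thD111 c d e f l1 l2 a p q r b E0 E1 E2 E3 E4 E5 hc hd he, thD112 c d e f l1 l2 a p q r b E0 E1 E2 E3 E4 E5 hc hd he, thD120 c d e f l1 l2 a p q r b E0 E1 E2 E3 E4 E5 hc hd he, thD121 c d e f l1 l2 a p q r b E0 E1 E2 E3 E4 E5 hc hd he, thD122 c d e f l1 l2 a p q r b E0 E1 E2 E3 E4 E5 hc hd he, hthD100 c d e f l1 l2 a p q r b E0 E1 E2 E3 E4 E5 hc hd he, hthD101 c d e f l1 l2 a p q r b E0 E1 E2 E3 E4 E5 hc hd he, hthD102 c d e f l1 l2 a p q r b E0 E1 E2 E3 E4 E5 hc hd he, hthD110 c d e f l1 l2 a p q r b E0 E1 E2 E3 E4 E5 hc hd he, hthD111 c d e f l1 l2 a p q r b E0 E1 E2 E3 E4 E5 hc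 hd he, hthD112 c d e f l1 l2 a p q r b E0 E1 E2 E3 E4 E5 hc hd he, hthD120 c d e f l1 l2 a p q r b E0 E1 E2 E3 E4 E5 hc hd he, hthD121 c d e f l1 l2 a p q r b E0 E1 E2 E3 E4 E5 hc hd he, hthD122 c d e f l1 l2 a p q r b E0 E1 E2 E3 E4 E5 hc hd he, th00 c d f l1 l2 a p q r b hc hd, th01 c d f l1 l2 a p q r b hc hd, th02 c d f l1 l2 a p q r b hc hd, th10 c d f l1 l2 a p q r b hc hd, th11 c d f l1 l2 a p q r b hc hd, th12 c d f l1 l2 a p q r b hc hd, th20 c d f l1 l2 a p q r b hc hd, th21 c d f l1 l2 a p q r b hc hd, th22 c d f l1 l2 a p q r b hc hd, tau0 c l1 l2 hc, tau1 c l1 l2 hc, tau2 c l1 l2 hc, htD10 c d f l1 l2 a p q r b hc hd, htD11 c d f l1 l2 a p q r b hc hd, htD12 c d f l1 l2 a p q r b hc hd, cK, hc.v000, hc.v001, hc.v002, hc.v011, hc.v012, hc.v022, hc.v111, hc.v112, hc.v122, hc.v222, hc.v010, hc.v020, hc.v021, hc.v101, hc.v102, hc.v121, hc.v202,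 hc.v212, hc.v100, hc.v110, hc.v120, hc.v200, hc.v201, hc.v211, hc.v220, hc.v221, hc.v210, hd.v0000, hd.v0001, hd.v0002, hd.v0011, hd.v0012, hd.v0022, hd.v0111, hd.v0112, hd.v0122, hd.v0222, hd.v1111, hd.v1112, hd.v1122, hd.v1222, hd.v2222, hd.v0010, hd.v0020, hd.v0021, hd.v0101, hd.v0102, hd.v0121, hd.v0202, hd.v0212, hd.v1011, hd.v1012, hd.v1022, hd.v1121, hd.v1212, hd.v2022, hd.v2122, hd.v0100, hd.v0110, hd.v0120, hd.v0200, hd.v0201, hd.v0211, hd.v0220, hd.v0221, hd.v1001, hd.v1002, hd.v1021, hd.v1101, hd.v1102, hd.v1202, hd.v1211, hd.v1221, hd.v2002, hd.v2012, hd.v2112, hd.v2202, hd.v2212, hd.v0210, hd.v1000, hd.v1010, hd.v1020, hd.v1110, hd.v1120, hd.v1201, hd.v1220, hd.v2000, hd.v2001, hd.v2011, hd.v2020, hd.v2021, hd.v2102, hd.v2111, hd.v2121, hd.v2220, hd.v2221, hd.v1100, hd.v1200, hd.v1210, hd.v2010, hd.v2101, hd.v2120, hd.v2200, hd.v2201, hd.v2211,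 hd.v2100, hd.v2110, hd.v2210]; ring

theorem uD12 (hc : CV c l1 l2) (hd : DV d f l1 l2 a p q r b) (he : EV e f l1 l2 a p q r b E0 E1 E2 E3 E4 E5) :
    uD dl c d (hK c 1) (cK d 1) (dK e 1) 2 = -2*b*l2/f - 3*l1*p/f - 3*l1*r/f - 2*l2*q/f + 3*l2^3/f := by
  simp only [uD_dl, Fin.sum_univ_three, thD100 c d e f l1 l2 a p q r b E0 E1 E2 E3 E4 E5 hc hd he, thD101 c d e f l1 l2 a p q r b E0 E1 E2 E3 E4 E5 hc hd he, thD102 c d e f l1 l2 a p q r b E0 E1 E2 E3 E4 E5 hc hd he, thD110 c d e f l1 l2 a p q r b E0 E1 E2 E3 E4 E5 hc hd he, thD111 c d e f l1 l2 a p q r b E0 E1 E2 E3 E4 E5 hc hd he, thD112 c d e f l1 l2 a p q r b E0 E1 E2 E3 E4 E5 hc hd he, thD120 c d e f l1 l2 a p q r b E0 E1 E2 E3 E4 E5 hc hd he, thD121 c d e f l1 l2 a p q r b E0 E1 E2 E3 E4 E5 hc hd he, thD122 c d e f l1 l2 a p q r b E0 E1 E2 E3 E4 E5 hc hd he, hthD100 c d e f l1 l2 a p q r b E0 E1 E2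 E3 E4 E5 hc hd he, hthD101 c d e f l1 l2 a p q r b E0 E1 E2 E3 E4 E5 hc hd he, hthD102 c d e f l1 l2 a p q r b E0 E1 E2 E3 E4 E5 hc hd he, hthD110 c d e f l1 l2 a p q r b E0 E1 E2 E3 E4 E5 hc hd he, hthD111 c d e f l1 l2 a p q r b E0 E1 E2 E3 E4 E5 hc hd he, hthD112 c d e f l1 l2 a p q r b E0 E1 E2 E3 E4 E5 hc hd he, hthD120 c d e f l1 l2 a p q r b E0 E1 E2 E3 E4 E5 hc hd he, hthD121 c d e f l1 l2 a p q r b E0 E1 E2 E3 E4 E5 hc hd he, hthD122 c d e f l1 l2 a p q r b E0 E1 E2 E3 E4 E5 hc hd he, th00 c d f l1 l2 a p q r b hc hd, th01 c d f l1 l2 a p q r b hc hd, th02 c d f l1 l2 a p q r b hc hd, th10 c d f l1 l2 a p q r b hc hd, th11 c d f l1 l2 a p q r b hc hd, th12 c d f l1 l2 a p q r b hc hd, th20 c d f l1 l2 a p q r b hc hd, th21 c d f l1 l2 a p q r b hc hd, th22 c d f l1 l2 a p q r b hc hd, tau0 c l1 l2 hc, tau1 c l1 l2 hc, tau2 c l1 l2 hc, htD10 c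 d f l1 l2 a p q r b hc hd, htD11 c d f l1 l2 a p q r b hc hd, htD12 c d f l1 l2 a p q r b hc hd, cK, hc.v000, hc.v001, hc.v002, hc.v011, hc.v012, hc.v022, hc.v111, hc.v112, hc.v122, hc.v222, hc.v010, hc.v020, hc.v021, hc.v101, hc.v102, hc.v121, hc.v202, hc.v212, hc.v100, hc.v110, hc.v120, hc.v200, hc.v201, hc.v211, hc.v220, hc.v221, hc.v210, hd.v0000, hd.v0001, hd.v0002, hd.v0011, hd.v0012, hd.v0022, hd.v0111, hd.v0112, hd.v0122, hd.v0222, hd.v1111, hd.v1112, hd.v1122, hd.v1222, hd.v2222, hd.v0010, hd.v0020, hd.v0021, hd.v0101, hd.v0102, hd.v0121, hd.v0202, hd.v0212, hd.v1011, hd.v1012, hd.v1022, hd.v1121, hd.v1212, hd.v2022, hd.v2122, hd.v0100, hd.v0110, hd.v0120, hd.v0200, hd.v0201, hd.v0211, hd.v0220, hd.v0221, hd.v1001, hd.v1002, hd.v1021, hd.v1101, hd.v1102, hd.v1202, hd.v1211, hd.v1221, hd.v2002, hd.v2012, hd.v2112, hd.v2202, hd.v2212, hd.v0210,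 hd.v1000, hd.v1010, hd.v1020, hd.v1110, hd.v1120, hd.v1201, hd.v1220, hd.v2000, hd.v2001, hd.v2011, hd.v2020, hd.v2021, hd.v2102, hd.v2111, hd.v2121, hd.v2220, hd.v2221, hd.v1100, hd.v1200, hd.v1210, hd.v2010, hd.v2101, hd.v2120, hd.v2200, hd.v2201, hd.v2211, hd.v2100, hd.v2110, hd.v2210]; ring

theorem vD1 (hc : CV c l1 l2) (hd : DV d f l1 l2 a p q r b) (he : EV e f l1 l2 a p q r b E0 E1 E2 E3 E4 E5) :
    vD dl c d (hK c 1) (cK d 1) (dK e 1) 1 = E2*l1 + E4*l1 - a*q + b*q - l2^2/f^2 - l1*l2*p - 3*l1*l2*r - l2^2*q + p^2 - r^2 := by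
  simp only [vD_dl, Fin.sum_univ_three, uD10 c d e f l1 l2 a p q r b E0 E1 E2 E3 E4 E5 hc hd he, uD11 c d e f l1 l2 a p q r b E0 E1 E2 E3 E4 E5 hc hd he, uD12 c d e f l1 l2 a p q r b E0 E1 E2 E3 E4 E5 hc hd he, u0 c d f l1 l2 a p q r b hc hd, u1 c d f l1 l2 a p q r b hc hd, u2 c d f l1 l2 a p q r b hc hd, hK, hc.v000, hc.v001, hc.v002, hc.v011, hc.v012, hc.v022, hc.v111, hc.v112, hc.v122, hc.v222, hc.v010, hc.v020, hc.v021, hc.v101, hc.v102, hc.v121, hc.v202, hc.v212, hc.v100, hc.v110, hc.v120, hc.v200, hc.v201, hc.v211, hc.v220, hc.v221, hc.v210]; ring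

theorem quD1 (hc : CV c l1 l2) (hd : DV d f l1 l2 a p q r b) (he : EV e f l1 l2 a p q r b E0 E1 E2 E3 E4 E5) :
    quD dl c d (hK c 1) (cK d 1) (dK e 1) = 2*E2*l1^2*p + 2*E2*l1^2*r + 2*E2*l2^2*p + 2*E2*l2^2*r + 2*E4*l1^2*p + 2*E4*l1^2*r + 2*E4*l2^2*p + 2*E4*l2^2*r - 2*a*l1*p*q - 2*a*l1*q*r + 2*a*l2*p*r + 2*a*l2*r^2 + 4*b*l1^2*l2/f^2 + 4*b*l2^3/f^2 + 2*b*l1*p*q + 2*b*l1*q*r + 2*b*l2*p*r + 2*b*l2*p^2 + 6*l1*l2^2*p/f^2 + 6*l1*l2^2*r/f^2 + 4*l1^2*l2*q/f^2 - 6*l1^2*l2^3/f^2 + 6*l1^3*p/f^2 + 6*l1^3*r/f^2 + 4*l2^3*q/f^2 - 6*l2^5/f^2 - 4*l1*l2^2*p*q - 4*l1*l2^2*q*r - 2*l1*p*r^2 + 2*l1*p^2*r + 2*l1*p^3 - 2*l1*r^3 - 8*l1^2*l2*p*r - l1^2*l2*p^2 - 7*l1^2*l2*r^2 - 4*l2*p*q*r - 2*l2*p^2*q - 2*l2*q*r^2 - 10*l2^3*p*r - 4*l2^3*p^2 - 6*l2^3*r^2 := by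
  simp only [quD_dl, Fin.sum_univ_three, uD10 c d e f l1 l2 a p q r b E0 E1 E2 E3 E4 E5 hc hd he, uD11 c d e f l1 l2 a p q r b E0 E1 E2 E3 E4 E5 hc hd he, uD12 c d e f l1 l2 a p q r b E0 E1 E2 E3 E4 E5 hc hd he, u0 c d f l1 l2 a p q r b hc hd, u1 c d f l1 l2 a p q r b hc hd, u2 c d f l1 l2 a p q r b hc hd, hK, hc.v000, hc.v001, hc.v002, hc.v011, hc.v012, hc.v022, hc.v111, hc.v112, hc.v122, hc.v222, hc.v010, hc.v020, hc.v021, hc.v101, hc.v102, hc.v121, hc.v202, hc.v212, hc.v100, hc.v110, hc.v120, hc.v200, hc.v201, hc.v211, hc.v220, hc.v221, hc.v210]; ring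

theorem tauD20 (hc : CV c l1 l2) (hd : DV d f l1 l2 a p q r b) :
    tauD dl c (hK c 2) (cK d 2) 0 = -l1/f := by
  simp only [tauD_dl, hK, cK, Fin.sum_univ_three, hc.v000, hc.v001, hc.v002, hc.v011, hc.v012, hc.v022, hc.v111, hc.v112, hc.v122, hc.v222, hc.v010, hc.v020, hc.v021, hc.v101, hc.v102, hc.v121, hc.v202, hc.v212, hc.v100, hc.v110, hc.v120, hc.v200, hc.v201, hc.v211, hc.v220, hc.v221, hc.v210, hd.v0000, hd.v0001, hd.v0002, hd.v0011, hd.v0012, hd.v0022, hd.v0111, hd.v0112, hd.v0122, hd.v0222, hd.v1111, hd.v1112, hd.v1122, hd.v1222, hd.v2222, hd.v0010, hd.v0020, hd.v0021, hd.v0101, hd.v0102, hd.v0121, hd.v0202, hd.v0212, hd.v1011, hd.v1012, hd.v1022, hd.v1121, hd.v1212, hd.v2022, hd.v2122, hd.v0100, hd.v0110, hd.v0120, hd.v0200, hd.v0201, hd.v0211, hd.v0220, hd.v0221, hd.v1001, hd.v1002, hd.v1021, hd.v1101, hd.v1102, hd.v1202, hd.v1211, hd.v1221,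 hd.v2002, hd.v2012, hd.v2112, hd.v2202, hd.v2212, hd.v0210, hd.v1000, hd.v1010, hd.v1020, hd.v1110, hd.v1120, hd.v1201, hd.v1220, hd.v2000, hd.v2001, hd.v2011, hd.v2020, hd.v2021, hd.v2102, hd.v2111, hd.v2121, hd.v2220, hd.v2221, hd.v1100, hd.v1200, hd.v1210, hd.v2010, hd.v2101, hd.v2120, hd.v2200, hd.v2201, hd.v2211, hd.v2100, hd.v2110, hd.v2210]; ring

theorem tauD21 (hc : CV c l1 l2) (hd : DV d f l1 l2 a p q r b) :
    tauD dl c (hK c 2) (cK d 2) 1 = -l2/f := by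
  simp only [tauD_dl, hK, cK, Fin.sum_univ_three, hc.v000, hc.v001, hc.v002, hc.v011, hc.v012, hc.v022, hc.v111, hc.v112, hc.v122, hc.v222, hc.v010, hc.v020, hc.v021, hc.v101, hc.v102, hc.v121, hc.v202, hc.v212, hc.v100, hc.v110, hc.v120, hc.v200, hc.v201, hc.v211, hc.v220, hc.v221, hc.v210, hd.v0000, hd.v0001, hd.v0002, hd.v0011, hd.v0012, hd.v0022, hd.v0111, hd.v0112, hd.v0122, hd.v0222, hd.v1111, hd.v1112, hd.v1122, hd.v1222, hd.v2222, hd.v0010, hd.v0020, hd.v0021, hd.v0101, hd.v0102, hd.v0121, hd.v0202, hd.v0212, hd.v1011, hd.v1012, hd.v1022, hd.v1121, hd.v1212, hd.v2022, hd.v2122, hd.v0100, hd.v0110, hd.v0120, hd.v0200, hd.v0201, hd.v0211, hd.v0220, hd.v0221, hd.v1001, hd.v1002, hd.v1021, hd.v1101, hd.v1102, hd.v1202, hd.v1211, hd.v1221, hd.v2002, hd.v2012, hd.v2112, hd.v2202, hd.v2212, hd.v0210, hd.v1000, hd.v1010, hd.v1020, hd.v1110, hd.v1120, hd.v1201,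 hd.v1220, hd.v2000, hd.v2001, hd.v2011, hd.v2020, hd.v2021, hd.v2102, hd.v2111, hd.v2121, hd.v2220, hd.v2221, hd.v1100, hd.v1200, hd.v1210, hd.v2010, hd.v2101, hd.v2120, hd.v2200, hd.v2201, hd.v2211, hd.v2100, hd.v2110, hd.v2210]; ring

theorem tauD22 (hc : CV c l1 l2) (hd : DV d f l1 l2 a p q r b) :
    tauD dl c (hK c 2) (cK d 2) 2 = 0 := by
  simp only [tauD_dl, hK, cK, Fin.sum_univ_three, hc.v000, hc.v001, hc.v002, hc.v011, hc.v012, hc.v022, hc.v111, hc.v112, hc.v122, hc.v222, hc.v010, hc.v020, hc.v021, hc.v101, hc.v102, hc.v121, hc.v202, hc.v212, hc.v100, hc.v110, hc.v120, hc.v200, hc.v201, hc.v211, hc.v220, hc.v221, hc.v210, hd.v0000, hd.v0001, hd.v0002, hd.v0011, hd.v0012, hd.v0022, hd.v0111, hd.v0112, hd.v0122, hd.v0222, hd.v1111, hd.v1112, hd.v1122, hd.v1222, hd.v2222, hd.v0010, hd.v0020, hd.v0021, hd.v0101, hd.v0102, hd.v0121, hd.v0202, hd.v0212,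 hd.v1011, hd.v1012, hd.v1022, hd.v1121, hd.v1212, hd.v2022, hd.v2122, hd.v0100, hd.v0110, hd.v0120, hd.v0200, hd.v0201, hd.v0211, hd.v0220, hd.v0221, hd.v1001, hd.v1002, hd.v1021, hd.v1101, hd.v1102, hd.v1202, hd.v1211, hd.v1221, hd.v2002, hd.v2012, hd.v2112, hd.v2202, hd.v2212, hd.v0210, hd.v1000, hd.v1010, hd.v1020, hd.v1110, hd.v1120, hd.v1201, hd.v1220, hd.v2000, hd.v2001, hd.v2011, hd.v2020, hd.v2021, hd.v2102, hd.v2111, hd.v2121, hd.v2220, hd.v2221, hd.v1100, hd.v1200, hd.v1210, hd.v2010, hd.v2101, hd.v2120, hd.v2200, hd.v2201, hd.v2211, hd.v2100, hd.v2110, hd.v2210]; ring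

theorem htD20 (hc : CV c l1 l2) (hd : DV d f l1 l2 a p q r b) :
    htD dl c (hK c 2) (cK d 2) 0 = -l1/f := by
  simp only [htD_dl, Fin.sum_univ_three, tauD20 c d f l1 l2 a p q r b hc hd, tauD21 c d f l1 l2 a p q r b hc hd, tauD22 c d f l1 l2 a p q r b hc hd, tau0 c l1 l2 hc, tau1 c l1 l2 hc, tau2 c l1 l2 hc, hK, hc.v000, hc.v001, hc.v002, hc.v011, hc.v012, hc.v022, hc.v111, hc.v112, hc.v122, hc.v222, hc.v010, hc.v020, hc.v021, hc.v101, hc.v102, hc.v121, hc.v202, hc.v212, hc.v100, hc.v110, hc.v120, hc.v200, hc.v201, hc.v211, hc.v220, hc.v221, hc.v210]; ring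

theorem htD21 (hc : CV c l1 l2) (hd : DV d f l1 l2 a p q r b) :
    htD dl c (hK c 2) (cK d 2) 1 = -l2/f := by
  simp only [htD_dl, Fin.sum_univ_three, tauD20 c d f l1 l2 a p q r b hc hd, tauD21 c d f l1 l2 a p q r b hc hd, tauD22 c d f l1 l2 a p q r b hc hd, tau0 c l1 l2 hc, tau1 c l1 l2 hc, tau2 c l1 l2 hc, hK, hc.v000, hc.v001, hc.v002, hc.v011, hc.v012, hc.v022, hc.v111, hc.v112, hc.v122, hc.v222, hc.v010, hc.v020, hc.v021, hc.v101, hc.v102, hc.v121, hc.v202, hc.v212, hc.v100, hc.v110, hc.v120, hc.v200, hc.v201, hc.v211, hc.v220, hc.v221, hc.v210]; ring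

theorem htD22 (hc : CV c l1 l2) (hd : DV d f l1 l2 a p q r b) :
    htD dl c (hK c 2) (cK d 2) 2 = 0 := by
  simp only [htD_dl, Fin.sum_univ_three, tauD20 c d f l1 l2 a p q r b hc hd, tauD21 c d f l1 l2 a p q r b hc hd, tauD22 c d f l1 l2 a p q r b hc hd, tau0 c l1 l2 hc, tau1 c l1 l2 hc, tau2 c l1 l2 hc, hK, hc.v000, hc.v001, hc.v002, hc.v011, hc.v012, hc.v022, hc.v111, hc.v112, hc.v122, hc.v222, hc.v010, hc.v020, hc.v021, hc.v101, hc.v102, hc.v121, hc.v202, hc.v212, hc.v100, hc.v110, hc.v120, hc.v200, hc.v201, hc.v211, hc.v220, hc.v221, hc.v210]; ring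

theorem nD2 (hc : CV c l1 l2) (hd : DV d f l1 l2 a p q r b) :
    nD dl c (hK c 2) (cK d 2) = -2*l1^2/f - 2*l2^2/f := by
  simp only [nD_dl, Fin.sum_univ_three, tauD20 c d f l1 l2 a p q r b hc hd, tauD21 c d f l1 l2 a p q r b hc hd, tauD22 c d f l1 l2 a p q r b hc hd, tau0 c l1 l2 hc, tau1 c l1 l2 hc, tau2 c l1 l2 hc, htD20 c d f l1 l2 a p q r b hc hd, htD21 c d f l1 l2 a p q r b hc hd, htD22 c d f l1 l2 a p q r b hc hd]; ring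

theorem thD200 (hc : CV c l1 l2) (hd : DV d f l1 l2 a p q r b) (he : EV e f l1 l2 a p q r b E0 E1 E2 E3 E4 E5) :
    thD dl c d (hK c 2) (cK d 2) (dK e 2) 0 0 = -2*a/f + 2*l1^2/f - 2*q/f := by
  simp only [thD_dl, hK, cK, dK, Fin.sum_univ_three, hc.v000, hc.v001, hc.v002, hc.v011, hc.v012, hc.v022, hc.v111, hc.v112, hc.v122, hc.v222, hc.v010, hc.v020, hc.v021, hc.v101, hc.v102, hc.v121, hc.v202, hc.v212, hc.v100, hc.v110, hc.v120, hc.v200, hc.v201, hc.v211, hc.v220, hc.v221, hc.v210, hd.v0000, hd.v0001, hd.v0002, hd.v0011, hd.v0012, hd.v0022, hd.v0111, hd.v0112, hd.v0122, hd.v0222, hd.v1111, hd.v1112, hd.v1122, hd.v1222, hd.v2222, hd.v0010, hd.v0020, hd.v0021, hd.v0101, hd.v0102, hd.v0121, hd.v0202, hd.v0212, hd.v1011, hd.v1012, hd.v1022, hd.v1121, hd.v1212, hd.v2022, hd.v2122, hd.v0100, hd.v0110, hd.v0120, hd.v0200, hd.v0201, hd.v0211, hd.v0220, hd.v0221,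 hd.v1001, hd.v1002, hd.v1021, hd.v1101, hd.v1102, hd.v1202, hd.v1211, hd.v1221, hd.v2002, hd.v2012, hd.v2112, hd.v2202, hd.v2212, hd.v0210, hd.v1000, hd.v1010, hd.v1020, hd.v1110, hd.v1120, hd.v1201, hd.v1220, hd.v2000, hd.v2001, hd.v2011, hd.v2020, hd.v2021, hd.v2102, hd.v2111, hd.v2121, hd.v2220, hd.v2221, hd.v1100, hd.v1200, hd.v1210, hd.v2010, hd.v2101, hd.v2120, hd.v2200, hd.v2201, hd.v2211, hd.v2100, hd.v2110, hd.v2210, he.v00002, he.v11002, he.v22002]; ring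

theorem thD201 (hc : CV c l1 l2) (hd : DV d f l1 l2 a p q r b) (he : EV e f l1 l2 a p q r b E0 E1 E2 E3 E4 E5) :
    thD dl c d (hK c 2) (cK d 2) (dK e 2) 0 1 = -2*p/f - 2*r/f := by
  simp only [thD_dl, hK, cK, dK, Fin.sum_univ_three, hc.v000, hc.v001, hc.v002, hc.v011, hc.v012, hc.v022, hc.v111, hc.v112, hc.v122, hc.v222, hc.v010, hc.v020, hc.v021, hc.v101, hc.v102, hc.v121, hc.v202, hc.v212, hc.v100, hc.v110, hc.v120, hc.v200, hc.v201, hc.v211, hc.v220, hc.v221, hc.v210, hd.v0000, hd.v0001, hd.v0002, hd.v0011, hd.v0012, hd.v0022, hd.v0111, hd.v0112, hd.v0122, hd.v0222, hd.v1111, hd.v1112, hd.v1122, hd.v1222, hd.v2222, hd.v0010, hd.v0020, hd.v0021, hd.v0101, hd.v0102, hd.v0121, hd.v0202, hd.v0212, hd.v1011, hd.v1012, hd.v1022, hd.v1121, hd.v1212, hd.v2022, hd.v2122, hd.v0100, hd.v0110, hd.v0120, hd.v0200, hd.v0201, hd.v0211, hd.v0220, hd.v0221, hd.v1001,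 hd.v1002, hd.v1021, hd.v1101, hd.v1102, hd.v1202, hd.v1211, hd.v1221, hd.v2002, hd.v2012, hd.v2112, hd.v2202, hd.v2212, hd.v0210, hd.v1000, hd.v1010, hd.v1020, hd.v1110, hd.v1120, hd.v1201, hd.v1220, hd.v2000, hd.v2001, hd.v2011, hd.v2020, hd.v2021, hd.v2102, hd.v2111, hd.v2121, hd.v2220, hd.v2221, hd.v1100, hd.v1200, hd.v1210, hd.v2010, hd.v2101, hd.v2120, hd.v2200, hd.v2201, hd.v2211, hd.v2100, hd.v2110, hd.v2210, he.v00012, he.v11012, he.v22012]; ring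

theorem thD202 (hc : CV c l1 l2) (hd : DV d f l1 l2 a p q r b) (he : EV e f l1 l2 a p q r b E0 E1 E2 E3 E4 E5) :
    thD dl c d (hK c 2) (cK d 2) (dK e 2) 0 2 = 2*l1/f^2 := by
  simp only [thD_dl, hK, cK, dK, Fin.sum_univ_three, hc.v000, hc.v001, hc.v002, hc.v011, hc.v012, hc.v022, hc.v111, hc.v112, hc.v122, hc.v222, hc.v010, hc.v020, hc.v021, hc.v101, hc.v102, hc.v121, hc.v202, hc.v212, hc.v100, hc.v110, hc.v120, hc.v200, hc.v201, hc.v211, hc.v220, hc.v221, hc.v210, hd.v0000, hd.v0001, hd.v0002, hd.v0011, hd.v0012, hd.v0022, hd.v0111, hd.v0112, hd.v0122, hd.v0222, hd.v1111, hd.v1112, hd.v1122, hd.v1222, hd.v2222, hd.v0010, hd.v0020, hd.v0021, hd.v0101, hd.v0102, hd.v0121, hd.v0202, hd.v0212, hd.v1011, hd.v1012, hd.v1022, hd.v1121, hd.v1212, hd.v2022, hd.v2122, hd.v0100, hd.v0110, hd.v0120, hd.v0200, hd.v0201, hd.v0211, hd.v0220, hd.v0221, hd.v1001, hd.v1002,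 hd.v1021, hd.v1101, hd.v1102, hd.v1202, hd.v1211, hd.v1221, hd.v2002, hd.v2012, hd.v2112, hd.v2202, hd.v2212, hd.v0210, hd.v1000, hd.v1010, hd.v1020, hd.v1110, hd.v1120, hd.v1201, hd.v1220, hd.v2000, hd.v2001, hd.v2011, hd.v2020, hd.v2021, hd.v2102, hd.v2111, hd.v2121, hd.v2220, hd.v2221, hd.v1100, hd.v1200, hd.v1210, hd.v2010, hd.v2101, hd.v2120, hd.v2200, hd.v2201, hd.v2211, hd.v2100, hd.v2110, hd.v2210, he.v00022, he.v11022, he.v22022]; ring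

theorem thD210 (hc : CV c l1 l2) (hd : DV d f l1 l2 a p q r b) (he : EV e f l1 l2 a p q r b E0 E1 E2 E3 E4 E5) :
    thD dl c d (hK c 2) (cK d 2) (dK e 2) 1 0 = -2*p/f - 2*r/f := by
  simp only [thD_dl, hK, cK, dK, Fin.sum_univ_three, hc.v000, hc.v001, hc.v002, hc.v011, hc.v012, hc.v022, hc.v111, hc.v112, hc.v122, hc.v222, hc.v010, hc.v020, hc.v021, hc.v101, hc.v102, hc.v121, hc.v202, hc.v212, hc.v100, hc.v110, hc.v120, hc.v200, hc.v201, hc.v211, hc.v220, hc.v221, hc.v210, hd.v0000, hd.v0001, hd.v0002, hd.v0011, hd.v0012, hd.v0022, hd.v0111, hd.v0112, hd.v0122, hd.v0222, hd.v1111, hd.v1112, hd.v1122, hd.v1222, hd.v2222, hd.v0010, hd.v0020, hd.v0021, hd.v0101, hd.v0102, hd.v0121, hd.v0202, hd.v0212, hd.v1011, hd.v1012, hd.v1022, hd.v1121, hd.v1212, hd.v2022, hd.v2122, hd.v0100, hd.v0110, hd.v0120, hd.v0200, hd.v0201, hd.v0211, hd.v0220, hd.v0221, hd.v1001,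 hd.v1002, hd.v1021, hd.v1101, hd.v1102, hd.v1202, hd.v1211, hd.v1221, hd.v2002, hd.v2012, hd.v2112, hd.v2202, hd.v2212, hd.v0210, hd.v1000, hd.v1010, hd.v1020, hd.v1110, hd.v1120, hd.v1201, hd.v1220, hd.v2000, hd.v2001, hd.v2011, hd.v2020, hd.v2021, hd.v2102, hd.v2111, hd.v2121, hd.v2220, hd.v2221, hd.v1100, hd.v1200, hd.v1210, hd.v2010, hd.v2101, hd.v2120, hd.v2200, hd.v2201, hd.v2211, hd.v2100, hd.v2110, hd.v2210, he.v00102, he.v11102, he.v22102]; ring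

theorem thD211 (hc : CV c l1 l2) (hd : DV d f l1 l2 a p q r b) (he : EV e f l1 l2 a p q r b E0 E1 E2 E3 E4 E5) :
    thD dl c d (hK c 2) (cK d 2) (dK e 2) 1 1 = -2*b/f + 2*l2^2/f - 2*q/f := by
  simp only [thD_dl, hK, cK, dK, Fin.sum_univ_three, hc.v000, hc.v001, hc.v002, hc.v011, hc.v012, hc.v022, hc.v111, hc.v112, hc.v122, hc.v222, hc.v010, hc.v020, hc.v021, hc.v101, hc.v102, hc.v121, hc.v202, hc.v212, hc.v100, hc.v110, hc.v120, hc.v200, hc.v201, hc.v211, hc.v220, hc.v221, hc.v210, hd.v0000, hd.v0001, hd.v0002, hd.v0011, hd.v0012, hd.v0022, hd.v0111, hd.v0112, hd.v0122, hd.v0222, hd.v1111, hd.v1112, hd.v1122, hd.v1222, hd.v2222, hd.v0010, hd.v0020, hd.v0021, hd.v0101, hd.v0102, hd.v0121, hd.v0202, hd.v0212, hd.v1011, hd.v1012, hd.v1022, hd.v1121, hd.v1212, hd.v2022, hd.v2122, hd.v0100, hd.v0110, hd.v0120, hd.v0200, hd.v0201, hd.v0211, hd.v0220, hd.v0221,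 hd.v1001, hd.v1002, hd.v1021, hd.v1101, hd.v1102, hd.v1202, hd.v1211, hd.v1221, hd.v2002, hd.v2012, hd.v2112, hd.v2202, hd.v2212, hd.v0210, hd.v1000, hd.v1010, hd.v1020, hd.v1110, hd.v1120, hd.v1201, hd.v1220, hd.v2000, hd.v2001, hd.v2011, hd.v2020, hd.v2021, hd.v2102, hd.v2111, hd.v2121, hd.v2220, hd.v2221, hd.v1100, hd.v1200, hd.v1210, hd.v2010, hd.v2101, hd.v2120, hd.v2200, hd.v2201, hd.v2211, hd.v2100, hd.v2110, hd.v2210, he.v00112, he.v11112, he.v22112]; ring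

theorem thD212 (hc : CV c l1 l2) (hd : DV d f l1 l2 a p q r b) (he : EV e f l1 l2 a p q r b E0 E1 E2 E3 E4 E5) :
    thD dl c d (hK c 2) (cK d 2) (dK e 2) 1 2 = 2*l2/f^2 := by
  simp only [thD_dl, hK, cK, dK, Fin.sum_univ_three, hc.v000, hc.v001, hc.v002, hc.v011, hc.v012, hc.v022, hc.v111, hc.v112, hc.v122, hc.v222, hc.v010, hc.v020, hc.v021, hc.v101, hc.v102, hc.v121, hc.v202, hc.v212, hc.v100, hc.v110, hc.v120, hc.v200, hc.v201, hc.v211, hc.v220, hc.v221, hc.v210, hd.v0000, hd.v0001, hd.v0002, hd.v0011, hd.v0012, hd.v0022, hd.v0111, hd.v0112, hd.v0122, hd.v0222, hd.v1111, hd.v1112, hd.v1122, hd.v1222, hd.v2222, hd.v0010, hd.v0020, hd.v0021, hd.v0101, hd.v0102, hd.v0121, hd.v0202, hd.v0212, hd.v1011, hd.v1012, hd.v1022, hd.v1121, hd.v1212, hd.v2022, hd.v2122, hd.v0100, hd.v0110, hd.v0120, hd.v0200, hd.v0201, hd.v0211, hd.v0220, hd.v0221, hd.v1001, hd.v1002,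 hd.v1021, hd.v1101, hd.v1102, hd.v1202, hd.v1211, hd.v1221, hd.v2002, hd.v2012, hd.v2112, hd.v2202, hd.v2212, hd.v0210, hd.v1000, hd.v1010, hd.v1020, hd.v1110, hd.v1120, hd.v1201, hd.v1220, hd.v2000, hd.v2001, hd.v2011, hd.v2020, hd.v2021, hd.v2102, hd.v2111, hd.v2121, hd.v2220, hd.v2221, hd.v1100, hd.v1200, hd.v1210, hd.v2010, hd.v2101, hd.v2120, hd.v2200, hd.v2201, hd.v2211, hd.v2100, hd.v2110, hd.v2210, he.v00122, he.v11122, he.v22122]; ring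

theorem thD220 (hc : CV c l1 l2) (hd : DV d f l1 l2 a p q r b) (he : EV e f l1 l2 a p q r b E0 E1 E2 E3 E4 E5) :
    thD dl c d (hK c 2) (cK d 2) (dK e 2) 2 0 = 2*l1/f^2 := by
  simp only [thD_dl, hK, cK, dK, Fin.sum_univ_three, hc.v000, hc.v001, hc.v002, hc.v011, hc.v012, hc.v022, hc.v111, hc.v112, hc.v122, hc.v222, hc.v010, hc.v020, hc.v021, hc.v101, hc.v102, hc.v121, hc.v202, hc.v212, hc.v100, hc.v110, hc.v120, hc.v200, hc.v201, hc.v211, hc.v220, hc.v221, hc.v210, hd.v0000, hd.v0001, hd.v0002, hd.v0011, hd.v0012, hd.v0022, hd.v0111, hd.v0112, hd.v0122, hd.v0222, hd.v1111, hd.v1112, hd.v1122, hd.v1222, hd.v2222, hd.v0010, hd.v0020, hd.v0021, hd.v0101, hd.v0102, hd.v0121, hd.v0202, hd.v0212, hd.v1011, hd.v1012, hd.v1022, hd.v1121, hd.v1212, hd.v2022, hd.v2122, hd.v0100, hd.v0110, hd.v0120, hd.v0200, hd.v0201, hd.v0211, hd.v0220, hd.v0221, hd.v1001, hd.v1002,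 hd.v1021, hd.v1101, hd.v1102, hd.v1202, hd.v1211, hd.v1221, hd.v2002, hd.v2012, hd.v2112, hd.v2202, hd.v2212, hd.v0210, hd.v1000, hd.v1010, hd.v1020, hd.v1110, hd.v1120, hd.v1201, hd.v1220, hd.v2000, hd.v2001, hd.v2011, hd.v2020, hd.v2021, hd.v2102, hd.v2111, hd.v2121, hd.v2220, hd.v2221, hd.v1100, hd.v1200, hd.v1210, hd.v2010, hd.v2101, hd.v2120, hd.v2200, hd.v2201, hd.v2211, hd.v2100, hd.v2110, hd.v2210, he.v00202, he.v11202, he.v22202]; ring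

theorem thD221 (hc : CV c l1 l2) (hd : DV d f l1 l2 a p q r b) (he : EV e f l1 l2 a p q r b E0 E1 E2 E3 E4 E5) :
    thD dl c d (hK c 2) (cK d 2) (dK e 2) 2 1 = 2*l2/f^2 := by
  simp only [thD_dl, hK, cK, dK, Fin.sum_univ_three, hc.v000, hc.v001, hc.v002, hc.v011, hc.v012, hc.v022, hc.v111, hc.v112, hc.v122, hc.v222, hc.v010, hc.v020, hc.v021, hc.v101, hc.v102, hc.v121, hc.v202, hc.v212, hc.v100, hc.v110, hc.v120, hc.v200, hc.v201, hc.v211, hc.v220, hc.v221, hc.v210, hd.v0000, hd.v0001, hd.v0002, hd.v0011, hd.v0012, hd.v0022, hd.v0111, hd.v0112, hd.v0122, hd.v0222, hd.v1111, hd.v1112, hd.v1122, hd.v1222, hd.v2222, hd.v0010, hd.v0020, hd.v0021, hd.v0101, hd.v0102, hd.v0121, hd.v0202, hd.v0212, hd.v1011, hd.v1012, hd.v1022, hd.v1121, hd.v1212, hd.v2022, hd.v2122, hd.v0100, hd.v0110, hd.v0120, hd.v0200, hd.v0201, hd.v0211, hd.v0220, hd.v0221, hd.v1001, hd.v1002,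 hd.v1021, hd.v1101, hd.v1102, hd.v1202, hd.v1211, hd.v1221, hd.v2002, hd.v2012, hd.v2112, hd.v2202, hd.v2212, hd.v0210, hd.v1000, hd.v1010, hd.v1020, hd.v1110, hd.v1120, hd.v1201, hd.v1220, hd.v2000, hd.v2001, hd.v2011, hd.v2020, hd.v2021, hd.v2102, hd.v2111, hd.v2121, hd.v2220, hd.v2221, hd.v1100, hd.v1200, hd.v1210, hd.v2010, hd.v2101, hd.v2120, hd.v2200, hd.v2201, hd.v2211, hd.v2100, hd.v2110, hd.v2210, he.v00212, he.v11212, he.v22212]; ring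

theorem thD222 (hc : CV c l1 l2) (hd : DV d f l1 l2 a p q r b) (he : EV e f l1 l2 a p q r b E0 E1 E2 E3 E4 E5) :
    thD dl c d (hK c 2) (cK d 2) (dK e 2) 2 2 = 0 := by
  simp only [thD_dl, hK, cK, dK, Fin.sum_univ_three, hc.v000, hc.v001, hc.v002, hc.v011, hc.v012, hc.v022, hc.v111, hc.v112, hc.v122, hc.v222, hc.v010, hc.v020, hc.v021, hc.v101, hc.v102, hc.v121, hc.v202, hc.v212, hc.v100, hc.v110, hc.v120, hc.v200, hc.v201, hc.v211, hc.v220, hc.v221, hc.v210, hd.v0000, hd.v0001, hd.v0002, hd.v0011, hd.v0012, hd.v0022, hd.v0111, hd.v0112, hd.v0122, hd.v0222, hd.v1111, hd.v1112, hd.v1122, hd.v1222, hd.v2222, hd.v0010, hd.v0020, hd.v0021, hd.v0101, hd.v0102, hd.v0121, hd.v0202, hd.v0212, hd.v1011, hd.v1012, hd.v1022, hd.v1121, hd.v1212, hd.v2022, hd.v2122, hd.v0100, hd.v0110, hd.v0120, hd.v0200, hd.v0201, hd.v0211, hd.v0220, hd.v0221, hd.v1001, hd.v1002,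 hd.v1021, hd.v1101, hd.v1102, hd.v1202, hd.v1211, hd.v1221, hd.v2002, hd.v2012, hd.v2112, hd.v2202, hd.v2212, hd.v0210, hd.v1000, hd.v1010, hd.v1020, hd.v1110, hd.v1120, hd.v1201, hd.v1220, hd.v2000, hd.v2001, hd.v2011, hd.v2020, hd.v2021, hd.v2102, hd.v2111, hd.v2121, hd.v2220, hd.v2221, hd.v1100, hd.v1200, hd.v1210, hd.v2010, hd.v2101, hd.v2120, hd.v2200, hd.v2201, hd.v2211, hd.v2100, hd.v2110, hd.v2210, he.v00222, he.v11222, he.v22222]; ring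

theorem hthD200 (hc : CV c l1 l2) (hd : DV d f l1 l2 a p q r b) (he : EV e f l1 l2 a p q r b E0 E1 E2 E3 E4 E5) :
    hthD dl c d (hK c 2) (cK d 2) (dK e 2) 0 0 = -2*a/f + 2*l1^2/f - 2*q/f := by
  simp only [hthD_dl, Fin.sum_univ_three, thD200 c d e f l1 l2 a p q r b E0 E1 E2 E3 E4 E5 hc hd he, thD201 c d e f l1 l2 a p q r b E0 E1 E2 E3 E4 E5 hc hd he, thD202 c d e f l1 l2 a p q r b E0 E1 E2 E3 E4 E5 hc hd he, thD210 c d e f l1 l2 a p q r b E0 E1 E2 E3 E4 E5 hc hd he, thD211 c d e f l1 l2 a p q r b E0 E1 E2 E3 E4 E5 hc hd he, thD212 c d e f l1 l2 a p q r b E0 E1 E2 E3 E4 E5 hc hd he, thD220 c d e f l1 l2 a p q r b E0 E1 E2 E3 E4 E5 hc hd he, thD221 c d e f l1 l2 a p q r b E0 E1 E2 E3 E4 E5 hc hd he, thD222 c d e f l1 l2 a p q r b E0 E1 E2 E3 E4 E5 hc hd he, th00 c d f l1 l2 a p q r b hc hd, th01 c d f l1 l2 a p q r b hc hd, th02 c d f l1 l2 a p q r b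 hc hd, th10 c d f l1 l2 a p q r b hc hd, th11 c d f l1 l2 a p q r b hc hd, th12 c d f l1 l2 a p q r b hc hd, th20 c d f l1 l2 a p q r b hc hd, th21 c d f l1 l2 a p q r b hc hd, th22 c d f l1 l2 a p q r b hc hd, hK, hc.v000, hc.v001, hc.v002, hc.v011, hc.v012, hc.v022, hc.v111, hc.v112, hc.v122, hc.v222, hc.v010, hc.v020, hc.v021, hc.v101, hc.v102, hc.v121, hc.v202, hc.v212, hc.v100, hc.v110, hc.v120, hc.v200, hc.v201, hc.v211, hc.v220, hc.v221, hc.v210]; ring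

theorem hthD201 (hc : CV c l1 l2) (hd : DV d f l1 l2 a p q r b) (he : EV e f l1 l2 a p q r b E0 E1 E2 E3 E4 E5) :
    hthD dl c d (hK c 2) (cK d 2) (dK e 2) 0 1 = -2*p/f - 2*r/f := by
  simp only [hthD_dl, Fin.sum_univ_three, thD200 c d e f l1 l2 a p q r b E0 E1 E2 E3 E4 E5 hc hd he, thD201 c d e f l1 l2 a p q r b E0 E1 E2 E3 E4 E5 hc hd he, thD202 c d e f l1 l2 a p q r b E0 E1 E2 E3 E4 E5 hc hd he, thD210 c d e f l1 l2 a p q r b E0 E1 E2 E3 E4 E5 hc hd he, thD211 c d e f l1 l2 a p q r b E0 E1 E2 E3 E4 E5 hc hd he, thD212 c d e f l1 l2 a p q r b E0 E1 E2 E3 E4 E5 hc hd he, thD220 c d e f l1 l2 a p q r b E0 E1 E2 E3 E4 E5 hc hd he, thD221 c d e f l1 l2 a p q r b E0 E1 E2 E3 E4 E5 hc hd he, thD222 c d e f l1 l2 a p q r b E0 E1 E2 E3 E4 E5 hc hd he, th00 c d f l1 l2 a p q r b hc hd, th01 c d f l1 l2 a p q r b hc hd, th02 c d f l1 l2 a p q r b hc hd, th10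 c d f l1 l2 a p q r b hc hd, th11 c d f l1 l2 a p q r b hc hd, th12 c d f l1 l2 a p q r b hc hd, th20 c d f l1 l2 a p q r b hc hd, th21 c d f l1 l2 a p q r b hc hd, th22 c d f l1 l2 a p q r b hc hd, hK, hc.v000, hc.v001, hc.v002, hc.v011, hc.v012, hc.v022, hc.v111, hc.v112, hc.v122, hc.v222, hc.v010, hc.v020, hc.v021, hc.v101, hc.v102, hc.v121, hc.v202, hc.v212, hc.v100, hc.v110, hc.v120, hc.v200, hc.v201, hc.v211, hc.v220, hc.v221, hc.v210]; ring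

theorem hthD202 (hc : CV c l1 l2) (hd : DV d f l1 l2 a p q r b) (he : EV e f l1 l2 a p q r b E0 E1 E2 E3 E4 E5) :
    hthD dl c d (hK c 2) (cK d 2) (dK e 2) 0 2 = 2*l1/f^2 := by
  simp only [hthD_dl, Fin.sum_univ_three, thD200 c d e f l1 l2 a p q r b E0 E1 E2 E3 E4 E5 hc hd he, thD201 c d e f l1 l2 a p q r b E0 E1 E2 E3 E4 E5 hc hd he, thD202 c d e f l1 l2 a p q r b E0 E1 E2 E3 E4 E5 hc hd he, thD210 c d e f l1 l2 a p q r b E0 E1 E2 E3 E4 E5 hc hd he, thD211 c d e f l1 l2 a p q r b E0 E1 E2 E3 E4 E5 hc hd he, thD212 c d e f l1 l2 a p q r b E0 E1 E2 E3 E4 E5 hc hd he, thD220 c d e f l1 l2 a p q r b E0 E1 E2 E3 E4 E5 hc hd he, thD221 c d e f l1 l2 a p q r b E0 E1 E2 E3 E4 E5 hc hd he, thD222 c d e f l1 l2 a p q r b E0 E1 E2 E3 E4 E5 hc hd he, th00 c d f l1 l2 a p q r b hc hd, th01 c d f l1 l2 a p q r b hc hd, th02 c d f l1 l2 a p q r b hc hd, th10 c d f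 l1 l2 a p q r b hc hd, th11 c d f l1 l2 a p q r b hc hd, th12 c d f l1 l2 a p q r b hc hd, th20 c d f l1 l2 a p q r b hc hd, th21 c d f l1 l2 a p q r b hc hd, th22 c d f l1 l2 a p q r b hc hd, hK, hc.v000, hc.v001, hc.v002, hc.v011, hc.v012, hc.v022, hc.v111, hc.v112, hc.v122, hc.v222, hc.v010, hc.v020, hc.v021, hc.v101, hc.v102, hc.v121, hc.v202, hc.v212, hc.v100, hc.v110, hc.v120, hc.v200, hc.v201, hc.v211, hc.v220, hc.v221, hc.v210]; ring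

theorem hthD210 (hc : CV c l1 l2) (hd : DV d f l1 l2 a p q r b) (he : EV e f l1 l2 a p q r b E0 E1 E2 E3 E4 E5) :
    hthD dl c d (hK c 2) (cK d 2) (dK e 2) 1 0 = -2*p/f - 2*r/f := by
  simp only [hthD_dl, Fin.sum_univ_three, thD200 c d e f l1 l2 a p q r b E0 E1 E2 E3 E4 E5 hc hd he, thD201 c d e f l1 l2 a p q r b E0 E1 E2 E3 E4 E5 hc hd he, thD202 c d e f l1 l2 a p q r b E0 E1 E2 E3 E4 E5 hc hd he, thD210 c d e f l1 l2 a p q r b E0 E1 E2 E3 E4 E5 hc hd he, thD211 c d e f l1 l2 a p q r b E0 E1 E2 E3 E4 E5 hc hd he, thD212 c d e f l1 l2 a p q r b E0 E1 E2 E3 E4 E5 hc hd he, thD220 c d e f l1 l2 a p q r b E0 E1 E2 E3 E4 E5 hc hd he, thD221 c d e f l1 l2 a p q r b E0 E1 E2 E3 E4 E5 hc hd he, thD222 c d e f l1 l2 a p q r b E0 E1 E2 E3 E4 E5 hc hd he, th00 c d f l1 l2 a p q r b hc hd, th01 c d f l1 l2 a p q r b hc hd, th02 c d f l1 l2 a p q r b hc hd, th10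 c d f l1 l2 a p q r b hc hd, th11 c d f l1 l2 a p q r b hc hd, th12 c d f l1 l2 a p q r b hc hd, th20 c d f l1 l2 a p q r b hc hd, th21 c d f l1 l2 a p q r b hc hd, th22 c d f l1 l2 a p q r b hc hd, hK, hc.v000, hc.v001, hc.v002, hc.v011, hc.v012, hc.v022, hc.v111, hc.v112, hc.v122, hc.v222, hc.v010, hc.v020, hc.v021, hc.v101, hc.v102, hc.v121, hc.v202, hc.v212, hc.v100, hc.v110, hc.v120, hc.v200, hc.v201, hc.v211, hc.v220, hc.v221, hc.v210]; ring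

theorem hthD211 (hc : CV c l1 l2) (hd : DV d f l1 l2 a p q r b) (he : EV e f l1 l2 a p q r b E0 E1 E2 E3 E4 E5) :
    hthD dl c d (hK c 2) (cK d 2) (dK e 2) 1 1 = -2*b/f + 2*l2^2/f - 2*q/f := by
  simp only [hthD_dl, Fin.sum_univ_three, thD200 c d e f l1 l2 a p q r b E0 E1 E2 E3 E4 E5 hc hd he, thD201 c d e f l1 l2 a p q r b E0 E1 E2 E3 E4 E5 hc hd he, thD202 c d e f l1 l2 a p q r b E0 E1 E2 E3 E4 E5 hc hd he, thD210 c d e f l1 l2 a p q r b E0 E1 E2 E3 E4 E5 hc hd he, thD211 c d e f l1 l2 a p q r b E0 E1 E2 E3 E4 E5 hc hd he, thD212 c d e f l1 l2 a p q r b E0 E1 E2 E3 E4 E5 hc hd he, thD220 c d e f l1 l2 a p q r b E0 E1 E2 E3 E4 E5 hc hd he, thD221 c d e f l1 l2 a p q r b E0 E1 E2 E3 E4 E5 hc hd he, thD222 c d e f l1 l2 a p q r b E0 E1 E2 E3 E4 E5 hc hd he, th00 c d f l1 l2 a p q r b hc hd, th01 c d f l1 l2 a p q r b hc hd, th02 c d f l1 l2 a p q r b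 hc hd, th10 c d f l1 l2 a p q r b hc hd, th11 c d f l1 l2 a p q r b hc hd, th12 c d f l1 l2 a p q r b hc hd, th20 c d f l1 l2 a p q r b hc hd, th21 c d f l1 l2 a p q r b hc hd, th22 c d f l1 l2 a p q r b hc hd, hK, hc.v000, hc.v001, hc.v002, hc.v011, hc.v012, hc.v022, hc.v111, hc.v112, hc.v122, hc.v222, hc.v010, hc.v020, hc.v021, hc.v101, hc.v102, hc.v121, hc.v202, hc.v212, hc.v100, hc.v110, hc.v120, hc.v200, hc.v201, hc.v211, hc.v220, hc.v221, hc.v210]; ring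

theorem hthD212 (hc : CV c l1 l2) (hd : DV d f l1 l2 a p q r b) (he : EV e f l1 l2 a p q r b E0 E1 E2 E3 E4 E5) :
    hthD dl c d (hK c 2) (cK d 2) (dK e 2) 1 2 = 2*l2/f^2 := by
  simp only [hthD_dl, Fin.sum_univ_three, thD200 c d e f l1 l2 a p q r b E0 E1 E2 E3 E4 E5 hc hd he, thD201 c d e f l1 l2 a p q r b E0 E1 E2 E3 E4 E5 hc hd he, thD202 c d e f l1 l2 a p q r b E0 E1 E2 E3 E4 E5 hc hd he, thD210 c d e f l1 l2 a p q r b E0 E1 E2 E3 E4 E5 hc hd he, thD211 c d e f l1 l2 a p q r b E0 E1 E2 E3 E4 E5 hc hd he, thD212 c d e f l1 l2 a p q r b E0 E1 E2 E3 E4 E5 hc hd he, thD220 c d e f l1 l2 a p q r b E0 E1 E2 E3 E4 E5 hc hd he, thD221 c d e f l1 l2 a p q r b E0 E1 E2 E3 E4 E5 hc hd he, thD222 c d e f l1 l2 a p q r b E0 E1 E2 E3 E4 E5 hc hd he, th00 c d f l1 l2 a p q r b hc hd, th01 c d f l1 l2 a p q r b hc hd, th02 c d f l1 l2 a p q r b hc hd, th10 c d f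 l1 l2 a p q r b hc hd, th11 c d f l1 l2 a p q r b hc hd, th12 c d f l1 l2 a p q r b hc hd, th20 c d f l1 l2 a p q r b hc hd, th21 c d f l1 l2 a p q r b hc hd, th22 c d f l1 l2 a p q r b hc hd, hK, hc.v000, hc.v001, hc.v002, hc.v011, hc.v012, hc.v022, hc.v111, hc.v112, hc.v122, hc.v222, hc.v010, hc.v020, hc.v021, hc.v101, hc.v102, hc.v121, hc.v202, hc.v212, hc.v100, hc.v110, hc.v120, hc.v200, hc.v201, hc.v211, hc.v220, hc.v221, hc.v210]; ring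

theorem hthD220 (hc : CV c l1 l2) (hd : DV d f l1 l2 a p q r b) (he : EV e f l1 l2 a p q r b E0 E1 E2 E3 E4 E5) :
    hthD dl c d (hK c 2) (cK d 2) (dK e 2) 2 0 = 2*l1/f^2 := by
  simp only [hthD_dl, Fin.sum_univ_three, thD200 c d e f l1 l2 a p q r b E0 E1 E2 E3 E4 E5 hc hd he, thD201 c d e f l1 l2 a p q r b E0 E1 E2 E3 E4 E5 hc hd he, thD202 c d e f l1 l2 a p q r b E0 E1 E2 E3 E4 E5 hc hd he, thD210 c d e f l1 l2 a p q r b E0 E1 E2 E3 E4 E5 hc hd he, thD211 c d e f l1 l2 a p q r b E0 E1 E2 E3 E4 E5 hc hd he, thD212 c d e f l1 l2 a p q r b E0 E1 E2 E3 E4 E5 hc hd he, thD220 c d e f l1 l2 a p q r b E0 E1 E2 E3 E4 E5 hc hd he, thD221 c d e f l1 l2 a p q r b E0 E1 E2 E3 E4 E5 hc hd he, thD222 c d e f l1 l2 a p q r b E0 E1 E2 E3 E4 E5 hc hd he, th00 c d f l1 l2 a p q r b hc hd, th01 c d f l1 l2 a p q r b hc hd, th02 c d f l1 l2 a p q r b hc hd, th10 c d f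 l1 l2 a p q r b hc hd, th11 c d f l1 l2 a p q r b hc hd, th12 c d f l1 l2 a p q r b hc hd, th20 c d f l1 l2 a p q r b hc hd, th21 c d f l1 l2 a p q r b hc hd, th22 c d f l1 l2 a p q r b hc hd, hK, hc.v000, hc.v001, hc.v002, hc.v011, hc.v012, hc.v022, hc.v111, hc.v112, hc.v122, hc.v222, hc.v010, hc.v020, hc.v021, hc.v101, hc.v102, hc.v121, hc.v202, hc.v212, hc.v100, hc.v110, hc.v120, hc.v200, hc.v201, hc.v211, hc.v220, hc.v221, hc.v210]; ring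

theorem hthD221 (hc : CV c l1 l2) (hd : DV d f l1 l2 a p q r b) (he : EV e f l1 l2 a p q r b E0 E1 E2 E3 E4 E5) :
    hthD dl c d (hK c 2) (cK d 2) (dK e 2) 2 1 = 2*l2/f^2 := by
  simp only [hthD_dl, Fin.sum_univ_three, thD200 c d e f l1 l2 a p q r b E0 E1 E2 E3 E4 E5 hc hd he, thD201 c d e f l1 l2 a p q r b E0 E1 E2 E3 E4 E5 hc hd he, thD202 c d e f l1 l2 a p q r b E0 E1 E2 E3 E4 E5 hc hd he, thD210 c d e f l1 l2 a p q r b E0 E1 E2 E3 E4 E5 hc hd he, thD211 c d e f l1 l2 a p q r b E0 E1 E2 E3 E4 E5 hc hd he, thD212 c d e f l1 l2 a p q r b E0 E1 E2 E3 E4 E5 hc hd he, thD220 c d e f l1 l2 a p q r b E0 E1 E2 E3 E4 E5 hc hd he, thD221 c d e f l1 l2 a p q r b E0 E1 E2 E3 E4 E5 hc hd he, thD222 c d e f l1 l2 a p q r b E0 E1 E2 E3 E4 E5 hc hd he, th00 c d f l1 l2 a p q r b hc hd, th01 c d f l1 l2 a p q r b hc hd, th02 c d f l1 l2 a p q r b hc hd, th10 c d f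 l1 l2 a p q r b hc hd, th11 c d f l1 l2 a p q r b hc hd, th12 c d f l1 l2 a p q r b hc hd, th20 c d f l1 l2 a p q r b hc hd, th21 c d f l1 l2 a p q r b hc hd, th22 c d f l1 l2 a p q r b hc hd, hK, hc.v000, hc.v001, hc.v002, hc.v011, hc.v012, hc.v022, hc.v111, hc.v112, hc.v122, hc.v222, hc.v010, hc.v020, hc.v021, hc.v101, hc.v102, hc.v121, hc.v202, hc.v212, hc.v100, hc.v110, hc.v120, hc.v200, hc.v201, hc.v211, hc.v220, hc.v221, hc.v210]; ring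

theorem hthD222 (hc : CV c l1 l2) (hd : DV d f l1 l2 a p q r b) (he : EV e f l1 l2 a p q r b E0 E1 E2 E3 E4 E5) :
    hthD dl c d (hK c 2) (cK d 2) (dK e 2) 2 2 = 0 := by
  simp only [hthD_dl, Fin.sum_univ_three, thD200 c d e f l1 l2 a p q r b E0 E1 E2 E3 E4 E5 hc hd he, thD201 c d e f l1 l2 a p q r b E0 E1 E2 E3 E4 E5 hc hd he, thD202 c d e f l1 l2 a p q r b E0 E1 E2 E3 E4 E5 hc hd he, thD210 c d e f l1 l2 a p q r b E0 E1 E2 E3 E4 E5 hc hd he, thD211 c d e f l1 l2 a p q r b E0 E1 E2 E3 E4 E5 hc hd he, thD212 c d e f l1 l2 a p q r b E0 E1 E2 E3 E4 E5 hc hd he, thD220 c d e f l1 l2 a p q r b E0 E1 E2 E3 E4 E5 hc hd he, thD221 c d e f l1 l2 a p q r b E0 E1 E2 E3 E4 E5 hc hd he, thD222 c d e f l1 l2 a p q r b E0 E1 E2 E3 E4 E5 hc hd he, th00 c d f l1 l2 a p q r b hc hd, th01 c d f l1 l2 a p q r b hc hd, th02 c d f l1 l2 a p q r b hc hd, th10 c d f l1 l2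 a p q r b hc hd, th11 c d f l1 l2 a p q r b hc hd, th12 c d f l1 l2 a p q r b hc hd, th20 c d f l1 l2 a p q r b hc hd, th21 c d f l1 l2 a p q r b hc hd, th22 c d f l1 l2 a p q r b hc hd, hK, hc.v000, hc.v001, hc.v002, hc.v011, hc.v012, hc.v022, hc.v111, hc.v112, hc.v122, hc.v222, hc.v010, hc.v020, hc.v021, hc.v101, hc.v102, hc.v121, hc.v202, hc.v212, hc.v100, hc.v110, hc.v120, hc.v200, hc.v201, hc.v211, hc.v220, hc.v221, hc.v210]; ring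

theorem uD20 (hc : CV c l1 l2) (hd : DV d f l1 l2 a p q r b) (he : EV e f l1 l2 a p q r b E0 E1 E2 E3 E4 E5) :
    uD dl c d (hK c 2) (cK d 2) (dK e 2) 0 = -3*l2*p/f - 3*l2*r/f := by
  simp only [uD_dl, Fin.sum_univ_three, thD200 c d e f l1 l2 a p q r b E0 E1 E2 E3 E4 E5 hc hd he, thD201 c d e f l1 l2 a p q r b E0 E1 E2 E3 E4 E5 hc hd he, thD202 c d e f l1 l2 a p q r b E0 E1 E2 E3 E4 E5 hc hd he, thD210 c d e f l1 l2 a p q r b E0 E1 E2 E3 E4 E5 hc hd he, thD211 c d e f l1 l2 a p q r b E0 E1 E2 E3 E4 E5 hc hd he, thD212 c d e f l1 l2 a p q r b E0 E1 E2 E3 E4 E5 hc hd he, thD220 c d e f l1 l2 a p q r b E0 E1 E2 E3 E4 E5 hc hd he, thD221 c d e f l1 l2 a p q r b E0 E1 E2 E3 E4 E5 hc hd he, thD222 c d e f l1 l2 a p q r b E0 E1 E2 E3 E4 E5 hc hd he, hthD200 c d e f l1 l2 a p q r b E0 E1 E2 E3 E4 E5 hc hd he, hthD201 c d e f l1 l2 a p q r b E0 E1 E2 E3 E4 E5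 hc hd he, hthD202 c d e f l1 l2 a p q r b E0 E1 E2 E3 E4 E5 hc hd he, hthD210 c d e f l1 l2 a p q r b E0 E1 E2 E3 E4 E5 hc hd he, hthD211 c d e f l1 l2 a p q r b E0 E1 E2 E3 E4 E5 hc hd he, hthD212 c d e f l1 l2 a p q r b E0 E1 E2 E3 E4 E5 hc hd he, hthD220 c d e f l1 l2 a p q r b E0 E1 E2 E3 E4 E5 hc hd he, hthD221 c d e f l1 l2 a p q r b E0 E1 E2 E3 E4 E5 hc hd he, hthD222 c d e f l1 l2 a p q r b E0 E1 E2 E3 E4 E5 hc hd he, th00 c d f l1 l2 a p q r b hc hd, th01 c d f l1 l2 a p q r b hc hd, th02 c d f l1 l2 a p q r b hc hd, th10 c d f l1 l2 a p q r b hc hd, th11 c d f l1 l2 a p q r b hc hd, th12 c d f l1 l2 a p q r b hc hd, th20 c d f l1 l2 a p q r b hc hd, th21 c d f l1 l2 a p q r b hc hd, th22 c d f l1 l2 a p q r b hc hd, tau0 c l1 l2 hc, tau1 c l1 l2 hc, tau2 c l1 l2 hc, htD20 c d f l1 l2 a p q r b hc hd, htD21 c d f l1 l2 a p q r b hc hd, htD22 c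 d f l1 l2 a p q r b hc hd, cK, hc.v000, hc.v001, hc.v002, hc.v011, hc.v012, hc.v022, hc.v111, hc.v112, hc.v122, hc.v222, hc.v010, hc.v020, hc.v021, hc.v101, hc.v102, hc.v121, hc.v202, hc.v212, hc.v100, hc.v110, hc.v120, hc.v200, hc.v201, hc.v211, hc.v220, hc.v221, hc.v210, hd.v0000, hd.v0001, hd.v0002, hd.v0011, hd.v0012, hd.v0022, hd.v0111, hd.v0112, hd.v0122, hd.v0222, hd.v1111, hd.v1112, hd.v1122, hd.v1222, hd.v2222, hd.v0010, hd.v0020, hd.v0021, hd.v0101, hd.v0102, hd.v0121, hd.v0202, hd.v0212, hd.v1011, hd.v1012, hd.v1022, hd.v1121, hd.v1212, hd.v2022, hd.v2122, hd.v0100, hd.v0110, hd.v0120, hd.v0200, hd.v0201, hd.v0211, hd.v0220, hd.v0221, hd.v1001, hd.v1002, hd.v1021, hd.v1101, hd.v1102, hd.v1202, hd.v1211, hd.v1221, hd.v2002, hd.v2012, hd.v2112, hd.v2202, hd.v2212, hd.v0210, hd.v1000, hd.v1010, hd.v1020, hd.v1110, hd.v1120, hd.v1201, hd.v1220,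 hd.v2000, hd.v2001, hd.v2011, hd.v2020, hd.v2021, hd.v2102, hd.v2111, hd.v2121, hd.v2220, hd.v2221, hd.v1100, hd.v1200, hd.v1210, hd.v2010, hd.v2101, hd.v2120, hd.v2200, hd.v2201, hd.v2211, hd.v2100, hd.v2110, hd.v2210]; ring

theorem uD21 (hc : CV c l1 l2) (hd : DV d f l1 l2 a p q r b) (he : EV e f l1 l2 a p q r b E0 E1 E2 E3 E4 E5) :
    uD dl c d (hK c 2) (cK d 2) (dK e 2) 1 = -3*l1*p/f - 3*l1*r/f := by
  simp only [uD_dl, Fin.sum_univ_three, thD200 c d e f l1 l2 a p q r b E0 E1 E2 E3 E4 E5 hc hd he, thD201 c d e f l1 l2 a p q r b E0 E1 E2 E3 E4 E5 hc hd he, thD202 c d e f l1 l2 a p q r b E0 E1 E2 E3 E4 E5 hc hd he, thD210 c d e f l1 l2 a p q r b E0 E1 E2 E3 E4 E5 hc hd he, thD211 c d e f l1 l2 a p q r b E0 E1 E2 E3 E4 E5 hc hd he, thD212 c d e f l1 l2 a p q r b E0 E1 E2 E3 E4 E5 hc hd he, thD220 c d e f l1 l2 a p q r b E0 E1 E2 E3 E4 E5 hc hd he, thD221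 c d e f l1 l2 a p q r b E0 E1 E2 E3 E4 E5 hc hd he, thD222 c d e f l1 l2 a p q r b E0 E1 E2 E3 E4 E5 hc hd he, hthD200 c d e f l1 l2 a p q r b E0 E1 E2 E3 E4 E5 hc hd he, hthD201 c d e f l1 l2 a p q r b E0 E1 E2 E3 E4 E5 hc hd he, hthD202 c d e f l1 l2 a p q r b E0 E1 E2 E3 E4 E5 hc hd he, hthD210 c d e f l1 l2 a p q r b E0 E1 E2 E3 E4 E5 hc hd he, hthD211 c d e f l1 l2 a p q r b E0 E1 E2 E3 E4 E5 hc hd he, hthD212 c d e f l1 l2 a p q r b E0 E1 E2 E3 E4 E5 hc hd he, hthD220 c d e f l1 l2 a p q r b E0 E1 E2 E3 E4 E5 hc hd he, hthD221 c d e f l1 l2 a p q r b E0 E1 E2 E3 E4 E5 hc hd he, hthD222 c d e f l1 l2 a p q r b E0 E1 E2 E3 E4 E5 hc hd he, th00 c d f l1 l2 a p q r b hc hd, th01 c d f l1 l2 a p q r b hc hd, th02 c d f l1 l2 a p q r b hc hd, th10 c d f l1 l2 a p q r b hc hd, th11 c d f l1 l2 a p q r b hc hd, th12 c d f l1 l2 a p q r b hc hd, th20 c d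 f l1 l2 a p q r b hc hd, th21 c d f l1 l2 a p q r b hc hd, th22 c d f l1 l2 a p q r b hc hd, tau0 c l1 l2 hc, tau1 c l1 l2 hc, tau2 c l1 l2 hc, htD20 c d f l1 l2 a p q r b hc hd, htD21 c d f l1 l2 a p q r b hc hd, htD22 c d f l1 l2 a p q r b hc hd, cK, hc.v000, hc.v001, hc.v002, hc.v011, hc.v012, hc.v022, hc.v111, hc.v112, hc.v122, hc.v222, hc.v010, hc.v020, hc.v021, hc.v101, hc.v102, hc.v121, hc.v202, hc.v212, hc.v100, hc.v110, hc.v120, hc.v200, hc.v201, hc.v211, hc.v220, hc.v221, hc.v210, hd.v0000, hd.v0001, hd.v0002, hd.v0011, hd.v0012, hd.v0022, hd.v0111, hd.v0112, hd.v0122, hd.v0222, hd.v1111, hd.v1112, hd.v1122, hd.v1222, hd.v2222, hd.v0010, hd.v0020, hd.v0021, hd.v0101, hd.v0102, hd.v0121, hd.v0202, hd.v0212, hd.v1011, hd.v1012, hd.v1022, hd.v1121, hd.v1212, hd.v2022, hd.v2122, hd.v0100, hd.v0110, hd.v0120, hd.v0200, hd.v0201, hd.v0211, hd.v0220,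 hd.v0221, hd.v1001, hd.v1002, hd.v1021, hd.v1101, hd.v1102, hd.v1202, hd.v1211, hd.v1221, hd.v2002, hd.v2012, hd.v2112, hd.v2202, hd.v2212, hd.v0210, hd.v1000, hd.v1010, hd.v1020, hd.v1110, hd.v1120, hd.v1201, hd.v1220, hd.v2000, hd.v2001, hd.v2011, hd.v2020, hd.v2021, hd.v2102, hd.v2111, hd.v2121, hd.v2220, hd.v2221, hd.v1100, hd.v1200, hd.v1210, hd.v2010, hd.v2101, hd.v2120, hd.v2200, hd.v2201, hd.v2211, hd.v2100, hd.v2110, hd.v2210]; ring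

theorem uD22 (hc : CV c l1 l2) (hd : DV d f l1 l2 a p q r b) (he : EV e f l1 l2 a p q r b E0 E1 E2 E3 E4 E5) :
    uD dl c d (hK c 2) (cK d 2) (dK e 2) 2 = 3*l1^2/f^2 + 3*l2^2/f^2 := by
  simp only [uD_dl, Fin.sum_univ_three, thD200 c d e f l1 l2 a p q r b E0 E1 E2 E3 E4 E5 hc hd he, thD201 c d e f l1 l2 a p q r b E0 E1 E2 E3 E4 E5 hc hd he, thD202 c d e f l1 l2 a p q r b E0 E1 E2 E3 E4 E5 hc hd he, thD210 c d e f l1 l2 a p q r b E0 E1 E2 E3 E4 E5 hc hd he, thD211 c d e f l1 l2 a p q r b E0 E1 E2 E3 E4 E5 hc hd he, thD212 c d e f l1 l2 a p q r b E0 E1 E2 E3 E4 E5 hc hd he, thD220 c d e f l1 l2 a p q r b E0 E1 E2 E3 E4 E5 hc hd he, thD221 c d e f l1 l2 a p q r b E0 E1 E2 E3 E4 E5 hc hd he, thD222 c d e f l1 l2 a p q r b E0 E1 E2 E3 E4 E5 hc hd he, hthD200 c d e f l1 l2 a p q r b E0 E1 E2 E3 E4 E5 hc hd he, hthD201 c d e f l1 l2 a p q r b E0 E1 E2 E3 E4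 E5 hc hd he, hthD202 c d e f l1 l2 a p q r b E0 E1 E2 E3 E4 E5 hc hd he, hthD210 c d e f l1 l2 a p q r b E0 E1 E2 E3 E4 E5 hc hd he, hthD211 c d e f l1 l2 a p q r b E0 E1 E2 E3 E4 E5 hc hd he, hthD212 c d e f l1 l2 a p q r b E0 E1 E2 E3 E4 E5 hc hd he, hthD220 c d e f l1 l2 a p q r b E0 E1 E2 E3 E4 E5 hc hd he, hthD221 c d e f l1 l2 a p q r b E0 E1 E2 E3 E4 E5 hc hd he, hthD222 c d e f l1 l2 a p q r b E0 E1 E2 E3 E4 E5 hc hd he, th00 c d f l1 l2 a p q r b hc hd, th01 c d f l1 l2 a p q r b hc hd, th02 c d f l1 l2 a p q r b hc hd, th10 c d f l1 l2 a p q r b hc hd, th11 c d f l1 l2 a p q r b hc hd, th12 c d f l1 l2 a p q r b hc hd, th20 c d f l1 l2 a p q r b hc hd, th21 c d f l1 l2 a p q r b hc hd, th22 c d f l1 l2 a p q r b hc hd, tau0 c l1 l2 hc, tau1 c l1 l2 hc, tau2 c l1 l2 hc, htD20 c d f l1 l2 a p q r b hc hd, htD21 c d f l1 l2 a p q r b hc hd, htD22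 c d f l1 l2 a p q r b hc hd, cK, hc.v000, hc.v001, hc.v002, hc.v011, hc.v012, hc.v022, hc.v111, hc.v112, hc.v122, hc.v222, hc.v010, hc.v020, hc.v021, hc.v101, hc.v102, hc.v121, hc.v202, hc.v212, hc.v100, hc.v110, hc.v120, hc.v200, hc.v201, hc.v211, hc.v220, hc.v221, hc.v210, hd.v0000, hd.v0001, hd.v0002, hd.v0011, hd.v0012, hd.v0022, hd.v0111, hd.v0112, hd.v0122, hd.v0222, hd.v1111, hd.v1112, hd.v1122, hd.v1222, hd.v2222, hd.v0010, hd.v0020, hd.v0021, hd.v0101, hd.v0102, hd.v0121, hd.v0202, hd.v0212, hd.v1011, hd.v1012, hd.v1022, hd.v1121, hd.v1212, hd.v2022, hd.v2122, hd.v0100, hd.v0110, hd.v0120, hd.v0200, hd.v0201, hd.v0211, hd.v0220, hd.v0221, hd.v1001, hd.v1002, hd.v1021, hd.v1101, hd.v1102, hd.v1202, hd.v1211, hd.v1221, hd.v2002, hd.v2012, hd.v2112, hd.v2202, hd.v2212, hd.v0210, hd.v1000, hd.v1010, hd.v1020, hd.v1110, hd.v1120, hd.v1201, hd.v1220,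 hd.v2000, hd.v2001, hd.v2011, hd.v2020, hd.v2021, hd.v2102, hd.v2111, hd.v2121, hd.v2220, hd.v2221, hd.v1100, hd.v1200, hd.v1210, hd.v2010, hd.v2101, hd.v2120, hd.v2200, hd.v2201, hd.v2211, hd.v2100, hd.v2110, hd.v2210]; ring

theorem vD2 (hc : CV c l1 l2) (hd : DV d f l1 l2 a p q r b) (he : EV e f l1 l2 a p q r b E0 E1 E2 E3 E4 E5) :
    vD dl c d (hK c 2) (cK d 2) (dK e 2) 2 = 3*l1^2/f^2 + 3*l2^2/f^2 := by
  simp only [vD_dl, Fin.sum_univ_three, uD20 c d e f l1 l2 a p q r b E0 E1 E2 E3 E4 E5 hc hd he, uD21 c d e f l1 l2 a p q r b E0 E1 E2 E3 E4 E5 hc hd he, uD22 c d e f l1 l2 a p q r b E0 E1 E2 E3 E4 E5 hc hd he, u0 c d f l1 l2 a p q r b hc hd, u1 c d f l1 l2 a p q r b hc hd, u2 c d f l1 l2 a p q r b hc hd, hK, hc.v000, hc.v001, hc.v002, hc.v011, hc.v012, hc.v022, hc.v111, hc.v112, hc.v122, hc.v222, hc.v010, hc.v020, hc.v021, hc.v101, hc.v102, hc.v121,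 hc.v202, hc.v212, hc.v100, hc.v110, hc.v120, hc.v200, hc.v201, hc.v211, hc.v220, hc.v221, hc.v210]; ring

end

end Pool.Agent.H935R3.LW.AlgT
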